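import Mathlib
import Pool.Agent.H422.MF.Poly
import Pool.Agent.H422.MR.Pt

/-!
# Polynomials with potentially good reduction or with a dominating constant term: one place
-/

set_option autoImplicit false

open Polynomial

namespace Pool.Agent.H422.DC

open Pool.Agent.H422.HE Pool.Agent.H422.UC Pool.Agent.H422.MF Pool.Agent.H422.MR

section

variable {K : Type*} [Field K] {Γ : Type*} [LinearOrderedCommGroupWithZero Γ] (v : Valuation K Γ)

/-- potentially good reduction, with centre `0` -/
def PG (f : K[X]) : Prop :=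
  ∀ i, v (f.coeff i) ^ (f.natDegree - 1) * v f.leadingCoeff ≤ v f.leadingCoeff ^ i

/-- the coefficient conditions for a dominating constant term -/
structure BC (f : K[X]) : Prop where
  esc : 1 < v f.leadingCoeff * v (f.coeff 0) ^ (f.natDegree - 1)
  coef : ∀ i, v (f.coeff i) ^ f.natDegree ≤
    v (f.coeff 0) ^ (f.natDegree - i) * v f.leadingCoeff ^ i

variable {v} {f : K[X]}

lemma lead_ne (hD : 2 ≤ f.natDegree) : v f.leadingCoeff ≠ 0 := by
  rw [Valuation.ne_zero_iff]
  apply leadingCoeff_ne_zero.mpr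
  rintro rfl
  simp at hD

/-- the leading term dominates -/
lemma eval_top (hD : 2 ≤ f.natDegree) {x : K} (hx : x ≠ 0)
    (h : ∀ i < f.natDegree, v (f.coeff i) * v x ^ i < v f.leadingCoeff * v x ^ f.natDegree) :
    v (f.eval x) = v f.leadingCoeff * v x ^ f.natDegree := by
  have h0 : v f.leadingCoeff * v x ^ f.natDegree ≠ 0 :=
    mul_ne_zero (lead_ne hD) (pow_ne_zero _ ((Valuation.ne_zero_iff _).mpr hx))
  rw [eval_eq_sum_range, Finset.sum_range_succ, add_comm, Valuation.map_add_eq_of_lt_left,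
    map_mul, map_pow]
  · rfl
  · rw [map_mul, map_pow]
    apply Valuation.map_sum_lt
    · exact h0
    · intro i hi
      rw [Finset.mem_range] at hi
      rw [map_mul, map_pow]
      exact h i hi

/-- the constant term dominates -/
lemma eval_bot {x : K} (h0 : f.coeff 0 ≠ 0)
    (h : ∀ i, 0 < i → i ≤ f.natDegree → v (f.coeff i) * v x ^ i < v (f.coeff 0)) :
    v (f.eval x) = v (f.coeff 0) := by
  rw [eval_eq_sum_range, Finset.sum_range_succ', add_comm, Valuation.map_add_eq_of_lt_left,
    pow_zero, mul_one]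
  rw [pow_zero, mul_one]
  apply Valuation.map_sum_lt
  · exact (Valuation.ne_zero_iff _).mpr h0
  · intro i hi
    rw [Finset.mem_range] at hi
    rw [map_mul, map_pow]
    exact h (i + 1) (by omega) (by omega)

/-! ### potentially good reduction -/

lemma PG.big (h : PG v f) (hD : 2 ≤ f.natDegree) {x : K}
    (hx : 1 < v f.leadingCoeff * v x ^ (f.natDegree - 1)) :
    v (f.eval x) = v f.leadingCoeff * v x ^ f.natDegree := by
  obtain ⟨D, hDe⟩ : ∃ D, f.natDegree = D + 2 := ⟨f.natDegree - 2, by omega⟩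
  have hA := lead_ne (v := v) hD
  have hx0 : x ≠ 0 := by
    rintro rfl
    rw [map_zero, zero_pow (by omega), mul_zero] at hx
    exact not_lt_zero hx
  apply eval_top hD hx0
  intro i hi
  have h1 := h i
  rw [hDe] at h1 hx hi ⊢
  simp only [show D + 2 - 1 = D + 1 by omega] at h1 hx
  set A := v f.leadingCoeff
  set X := v x
  set b := v (f.coeff i)
  obtain ⟨k, hk⟩ : ∃ k, D + 2 = i + k := ⟨D + 2 - i, by omega⟩
  have hX0 : X ≠ 0 := (Valuation.ne_zero_iff _).mpr hx0
  -- compare the powers with exponent `D + 1`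
  apply lt_of_pow_lt_pow_left₀ (D + 1) zero_le
  have hApos : 0 < A := zero_lt_iff.mpr hA
  rw [← mul_lt_mul_iff_left₀ hApos]
  have hone : 1 < (A * X ^ (D + 1)) ^ k := one_lt_pow₀ hx (by omega)
  calc (b * X ^ i) ^ (D + 1) * A = (b ^ (D + 1) * A) * X ^ (i * (D + 1)) := by
        rw [mul_pow, ← pow_mul, mul_right_comm]
    _ ≤ A ^ i * X ^ (i * (D + 1)) := mul_le_mul' h1 le_rfl
    _ = (A ^ i * X ^ (i * (D + 1))) * 1 := (mul_one _).symm
    _ < (A ^ i * X ^ (i * (D + 1))) * (A * X ^ (D + 1)) ^ k := by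
        refine (mul_lt_mul_iff_right₀ ?_).mpr hone
        exact zero_lt_iff.mpr (mul_ne_zero (pow_ne_zero _ hA) (pow_ne_zero _ hX0))
    _ = A ^ (i + k) * X ^ ((i + k) * (D + 1)) := by
        rw [mul_pow, ← pow_mul, pow_add A, Nat.add_mul i k, pow_add X, Nat.mul_comm (D + 1) k,
          mul_mul_mul_comm]
    _ = (A * X ^ (D + 2)) ^ (D + 1) * A := by
        rw [← hk, mul_pow, ← pow_mul, pow_succ A (D + 1)]; ac_rfl

lemma PG.pre (h : PG v f) (hD : 2 ≤ f.natDegree) {x : K} (px : Pre (fun z => f.eval z) x) :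
    v f.leadingCoeff * v x ^ (f.natDegree - 1) ≤ 1 := by
  by_contra hcon
  rw [not_le] at hcon
  have hpow : ∀ x : K, v x ^ f.natDegree = v x ^ (f.natDegree - 1) * v x := by
    intro x; rw [← pow_succ]; congr 1; omega
  have key : ∀ x : K, 1 < v f.leadingCoeff * v x ^ (f.natDegree - 1) →
      v x < v (f.eval x) := by
    intro x hx
    rw [h.big hD hx, hpow, ← mul_assoc]
    have hx0 : v x ≠ 0 := by
      intro h0
      rw [h0, zero_pow (by omega), mul_zero] at hx
      exact not_lt_zero hx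
    calc v x = 1 * v x := (one_mul _).symm
      _ < _ := (mul_lt_mul_iff_left₀ (zero_lt_iff.mpr hx0)).mpr hx
  refine not_pre_of_lt' (F := fun z => f.eval z)
    (C := fun x => 1 < v f.leadingCoeff * v x ^ (f.natDegree - 1)) (μ := fun x => v x)
    ?_ (fun x hx => key x hx) hcon px
  intro x hx
  refine lt_of_lt_of_le hx (mul_le_mul' le_rfl ?_)
  exact pow_le_pow_left₀ zero_le (key x hx).le _

lemma pow_sub_le_pow {x y : K} {R : Γ} (hx : v x ≤ R) (hy : v y ≤ R) (n : ℕ) :
    v (x ^ (n + 1) - y ^ (n + 1)) ≤ R ^ n * v (x - y) := by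
  induction n with
  | zero => simp
  | succ n ih =>
    have : x ^ (n + 1 + 1) - y ^ (n + 1 + 1) = x * (x ^ (n + 1) - y ^ (n + 1)) +
      (x - y) * y ^ (n + 1) := by ring
    rw [this]
    refine (v.map_add _ _).trans (max_le ?_ ?_)
    · rw [map_mul]
      calc v x * v (x ^ (n + 1) - y ^ (n + 1)) ≤ R * (R ^ n * v (x - y)) := mul_le_mul' hx ih
        _ = _ := by rw [pow_succ]; ac_rfl
    · rw [map_mul, map_pow, mul_comm]
      exact mul_le_mul' (pow_le_pow_left₀ zero_le hy _) le_rfl

lemma PG.coef_le (h : PG v f) (hD : 2 ≤ f.natDegree) {R : Γ}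
    (hR : v f.leadingCoeff * R ^ (f.natDegree - 1) ≤ 1) (i : ℕ) :
    v (f.coeff (i + 1)) * R ^ i ≤ 1 := by
  have hA := lead_ne (v := v) hD
  have h1 := h (i + 1)
  set D := f.natDegree - 1 with hDdef
  have hD0 : D ≠ 0 := by omega
  set A := v f.leadingCoeff
  apply (pow_le_one_iff_of_nonneg zero_le hD0).mp
  rw [← mul_le_mul_iff_left₀ (zero_lt_iff.mpr hA), one_mul]
  calc (v (f.coeff (i + 1)) * R ^ i) ^ D * A
      = (v (f.coeff (i + 1)) ^ D * A) * (R ^ D) ^ i := by
        rw [mul_pow, ← pow_mul, ← pow_mul, Nat.mul_comm i D, mul_right_comm]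
    _ ≤ A ^ (i + 1) * (R ^ D) ^ i := mul_le_mul' h1 le_rfl
    _ = (A * R ^ D) ^ i * A := by rw [mul_pow, pow_succ]; ac_rfl
    _ ≤ 1 * A := mul_le_mul' (pow_le_one' hR i) le_rfl
    _ = A := one_mul _

/-- potentially good reduction: the map does not expand -/
lemma PG.nonexp (h : PG v f) (hD : 2 ≤ f.natDegree) {x y : K}
    (hx : v f.leadingCoeff * v x ^ (f.natDegree - 1) ≤ 1)
    (hy : v f.leadingCoeff * v y ^ (f.natDegree - 1) ≤ 1) :
    v (f.eval x - f.eval y) ≤ v (x - y) := by
  set R := max (v x) (v y) with hRdef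
  have hR : v f.leadingCoeff * R ^ (f.natDegree - 1) ≤ 1 := by
    rcases le_total (v x) (v y) with h' | h'
    · rw [hRdef, max_eq_right h']; exact hy
    · rw [hRdef, max_eq_left h']; exact hx
  rw [eval_eq_sum_range, eval_eq_sum_range, ← Finset.sum_sub_distrib]
  apply Valuation.map_sum_le
  intro i _
  rw [← mul_sub, map_mul]
  rcases i with _ | i
  · simp
  · calc v (f.coeff (i + 1)) * v (x ^ (i + 1) - y ^ (i + 1)) ≤
        v (f.coeff (i + 1)) * (R ^ i * v (x - y)) :=
          mul_le_mul' le_rfl (pow_sub_le_pow (le_max_left _ _) (le_max_right _ _) i)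
      _ = (v (f.coeff (i + 1)) * R ^ i) * v (x - y) := (mul_assoc _ _ _).symm
      _ ≤ 1 * v (x - y) := mul_le_mul' (h.coef_le hD hR i) le_rfl
      _ = _ := one_mul _

theorem PG.iso (h : PG v f) (hD : 2 ≤ f.natDegree) {x y : K} (px : Per (fun z => f.eval z) x)
    (py : Per (fun z => f.eval z) y) : v (f.eval x - f.eval y) = v (x - y) := by
  refine le_antisymm (h.nonexp hD (h.pre hD px.pre) (h.pre hD py.pre)) ?_
  exact per_step (F := fun z => f.eval z) (δ := fun x y => v (x - y))
    (C := fun x => Pre (fun z => f.eval z) x) (fun x hx => hx.step)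
    (fun x y hx hy => h.nonexp hD (h.pre hD hx) (h.pre hD hy)) px.pre py.pre px py

/-! ### dominating constant term -/

lemma BC.c0 (h : BC v f) (hD : 2 ≤ f.natDegree) : v (f.coeff 0) ≠ 0 := by
  intro h0
  have := h.esc
  rw [h0, zero_pow (by omega), mul_zero] at this
  exact not_lt_zero this

lemma BC.big (h : BC v f) (hD : 2 ≤ f.natDegree) {x : K}
    (hx : v (f.coeff 0) < v f.leadingCoeff * v x ^ f.natDegree) :
    v (f.eval x) = v f.leadingCoeff * v x ^ f.natDegree := by
  have hA := lead_ne (v := v) hD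
  have hx0 : x ≠ 0 := by
    rintro rfl
    rw [map_zero, zero_pow (by omega), mul_zero] at hx
    exact not_lt_zero hx
  have hX0 : v x ≠ 0 := (Valuation.ne_zero_iff _).mpr hx0
  apply eval_top hD hx0
  intro i hi
  have h1 := h.coef i
  set D := f.natDegree
  set A := v f.leadingCoeff
  apply lt_of_pow_lt_pow_left₀ D zero_le
  calc (v (f.coeff i) * v x ^ i) ^ D = v (f.coeff i) ^ D * (v x ^ D) ^ i := by
        rw [mul_pow, ← pow_mul, ← pow_mul, Nat.mul_comm i D]
    _ ≤ (v (f.coeff 0) ^ (D - i) * A ^ i) * (v x ^ D) ^ i := mul_le_mul' h1 le_rfl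
    _ = v (f.coeff 0) ^ (D - i) * (A * v x ^ D) ^ i := by rw [mul_pow, mul_assoc]
    _ < (A * v x ^ D) ^ (D - i) * (A * v x ^ D) ^ i := by
        refine (mul_lt_mul_iff_left₀ ?_).mpr ?_
        · exact zero_lt_iff.mpr (pow_ne_zero _ (mul_ne_zero hA (pow_ne_zero _ hX0)))
        · exact pow_lt_pow_left₀ hx zero_le (by omega)
    _ = (A * v x ^ D) ^ D := by rw [← pow_add]; congr 1; omega

lemma BC.small (h : BC v f) (hD : 2 ≤ f.natDegree) {x : K}
    (hx : v f.leadingCoeff * v x ^ f.natDegree < v (f.coeff 0)) :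
    v (f.eval x) = v (f.coeff 0) := by
  have h0 := h.c0 hD
  apply eval_bot ((Valuation.ne_zero_iff _).mp h0)
  intro i hi hiD
  have h1 := h.coef i
  set D := f.natDegree
  set A := v f.leadingCoeff
  apply lt_of_pow_lt_pow_left₀ D zero_le
  calc (v (f.coeff i) * v x ^ i) ^ D = v (f.coeff i) ^ D * (v x ^ D) ^ i := by
        rw [mul_pow, ← pow_mul, ← pow_mul, Nat.mul_comm i D]
    _ ≤ (v (f.coeff 0) ^ (D - i) * A ^ i) * (v x ^ D) ^ i := mul_le_mul' h1 le_rfl
    _ = v (f.coeff 0) ^ (D - i) * (A * v x ^ D) ^ i := by rw [mul_pow, mul_assoc]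
    _ < v (f.coeff 0) ^ (D - i) * v (f.coeff 0) ^ i := by
        refine (mul_lt_mul_iff_right₀ ?_).mpr ?_
        · exact zero_lt_iff.mpr (pow_ne_zero _ h0)
        · exact pow_lt_pow_left₀ hx zero_le (by omega)
    _ = v (f.coeff 0) ^ D := by rw [← pow_add]; congr 1; omega

/-- the radius -/
theorem BC.pre (h : BC v f) (hD : 2 ≤ f.natDegree) {x : K} (px : Pre (fun z => f.eval z) x) :
    v f.leadingCoeff * v x ^ f.natDegree = v (f.coeff 0) := by
  have hA := lead_ne (v := v) hD
  have h0 := h.c0 hD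
  have hpow : ∀ g : Γ, g ^ f.natDegree = g ^ (f.natDegree - 1) * g := by
    intro g; rw [← pow_succ]; congr 1; omega
  -- escaping points
  have hesc : ∀ x : K, v (f.coeff 0) < v f.leadingCoeff * v x ^ f.natDegree →
      v x < v (f.eval x) := by
    intro x hx
    have hX0 : v x ≠ 0 := by
      intro h0
      rw [h0, zero_pow (by omega), mul_zero] at hx
      exact not_lt_zero hx
    rw [h.big hD hx, hpow, ← mul_assoc]
    have h1 : 1 < v f.leadingCoeff * v x ^ (f.natDegree - 1) := by
      by_contra hcon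
      rw [not_lt] at hcon
      -- then `v x ≥ v b₀`, hence contradiction
      have h2 : v (f.coeff 0) < v x := by
        calc v (f.coeff 0) < v f.leadingCoeff * v x ^ f.natDegree := hx
          _ = (v f.leadingCoeff * v x ^ (f.natDegree - 1)) * v x := by rw [hpow, mul_assoc]
          _ ≤ 1 * v x := mul_le_mul' hcon le_rfl
          _ = v x := one_mul _
      have h3 : v f.leadingCoeff * v (f.coeff 0) ^ (f.natDegree - 1) ≤ 1 :=
        (mul_le_mul' le_rfl (pow_le_pow_left₀ zero_le h2.le _)).trans hcon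
      exact absurd h.esc (not_lt.mpr h3)
    calc v x = 1 * v x := (one_mul _).symm
      _ < _ := (mul_lt_mul_iff_left₀ (zero_lt_iff.mpr hX0)).mpr h1
  have hno : ∀ x : K, Pre (fun z => f.eval z) x →
      ¬ v (f.coeff 0) < v f.leadingCoeff * v x ^ f.natDegree := by
    intro x px hx
    refine not_pre_of_lt' (F := fun z => f.eval z)
      (C := fun x => v (f.coeff 0) < v f.leadingCoeff * v x ^ f.natDegree) (μ := fun x => v x)
      ?_ (fun x hx => hesc x hx) hx px
    intro x hx
    refine lt_of_lt_of_le hx (mul_le_mul' le_rfl ?_)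
    exact pow_le_pow_left₀ zero_le (hesc x hx).le _
  rcases lt_trichotomy (v f.leadingCoeff * v x ^ f.natDegree) (v (f.coeff 0)) with h1 | h1 | h1
  · exfalso
    have h2 := h.small hD h1
    apply hno _ px.step
    rw [h2, hpow, ← mul_assoc]
    calc v (f.coeff 0) = 1 * v (f.coeff 0) := (one_mul _).symm
      _ < _ := (mul_lt_mul_iff_left₀ (zero_lt_iff.mpr h0)).mpr h.esc
  · exact h1
  · exact absurd h1 (hno x px)

lemma BC.ne_zero (h : BC v f) (hD : 2 ≤ f.natDegree) {x : K}
    (hx : v f.leadingCoeff * v x ^ f.natDegree = v (f.coeff 0)) : v x ≠ 0 := by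
  intro h0
  rw [h0, zero_pow (by omega), mul_zero] at hx
  exact h.c0 hD hx.symm

/-- the expansion factor `v (f.coeff 0) / v x` is larger than one -/
lemma BC.lt (h : BC v f) (hD : 2 ≤ f.natDegree) {x : K}
    (hx : v f.leadingCoeff * v x ^ f.natDegree = v (f.coeff 0)) : v x < v (f.coeff 0) := by
  have h0 := h.c0 hD
  by_contra hcon
  rw [not_lt] at hcon
  have hpow : v x ^ f.natDegree = v x ^ (f.natDegree - 1) * v x := by
    rw [← pow_succ]; congr 1; omega
  have h1 : 1 < v f.leadingCoeff * v x ^ (f.natDegree - 1) :=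
    lt_of_lt_of_le h.esc (mul_le_mul' le_rfl (pow_le_pow_left₀ zero_le hcon _))
  have h2 : v x < v (f.coeff 0) := by
    rw [← hx, hpow, ← mul_assoc]
    calc v x = 1 * v x := (one_mul _).symm
      _ < _ := (mul_lt_mul_iff_left₀ (zero_lt_iff.mpr (h.ne_zero hD hx))).mpr h1
  exact absurd h2 (not_lt.mpr hcon)

lemma int_diff {g : K[X]} (hg : IntP v g) {u w : K} (hu : v u ≤ 1) (hw : v w ≤ 1)
    (huw : v (u - w) < 1) (hd : v (g.derivative.eval w) = 1) :
    v (g.eval u - g.eval w) = v (u - w) := by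
  have h1 := eval_taylor v hg hu hw
  rcases eq_or_ne (u - w) 0 with h0 | h0
  · rw [sub_eq_zero] at h0
    rw [h0, sub_self, sub_self]
  have h3 : v ((u - w) * (derivative g).eval w) = v (u - w) := by rw [map_mul, hd, mul_one]
  have h4 : g.eval u - g.eval w = (u - w) * (derivative g).eval w +
    (g.eval u - g.eval w - (u - w) * (derivative g).eval w) := by ring
  rw [h4, Valuation.map_add_eq_of_lt_left, h3]
  rw [h3]
  refine lt_of_le_of_lt h1 ?_
  rw [sq]
  calc v (u - w) * v (u - w) < v (u - w) * 1 := by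
        have h5 : 0 < v (u - w) := zero_lt_iff.mpr ((Valuation.ne_zero_iff _).mpr h0)
        exact (mul_lt_mul_iff_right₀ h5).mpr huw
    _ = _ := mul_one _

/-- one step -/
theorem BC.step (h : BC v f) (hD : 2 ≤ f.natDegree) {x y : K}
    (hx : v f.leadingCoeff * v x ^ f.natDegree = v (f.coeff 0))
    (hsimple : v (x * f.derivative.eval x) = v (f.coeff 0)) (hxy : v (x - y) < v x) :
    v (f.eval x - f.eval y) * v x = v (f.coeff 0) * v (x - y) := by
  have h0 := h.c0 hD
  have hb0 : f.coeff 0 ≠ 0 := (Valuation.ne_zero_iff _).mp h0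
  have hX0 := h.ne_zero hD hx
  have hx0 : x ≠ 0 := (Valuation.ne_zero_iff _).mp hX0
  set g : K[X] := C ((f.coeff 0)⁻¹) * f.comp (C x * X) with hg
  have hgint : IntP v g := by
    intro i
    rw [hg, coeff_C_mul, comp_C_mul_X_coeff, map_mul, map_inv₀, map_mul, map_pow]
    rw [inv_mul_le_iff₀ (zero_lt_iff.mpr h0), mul_one]
    rcases lt_or_ge f.natDegree i with hi | hi
    · rw [coeff_eq_zero_of_natDegree_lt hi, map_zero, zero_mul]; exact zero_le
    · have h1 := h.coef i
      set D := f.natDegree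
      set A := v f.leadingCoeff
      apply le_of_pow_le_pow_left₀ (n := D) (by omega) zero_le
      calc (v (f.coeff i) * v x ^ i) ^ D = v (f.coeff i) ^ D * (v x ^ D) ^ i := by
            rw [mul_pow, ← pow_mul, ← pow_mul, Nat.mul_comm i D]
        _ ≤ (v (f.coeff 0) ^ (D - i) * A ^ i) * (v x ^ D) ^ i := mul_le_mul' h1 le_rfl
        _ = v (f.coeff 0) ^ (D - i) * (A * v x ^ D) ^ i := by rw [mul_pow, mul_assoc]
        _ = v (f.coeff 0) ^ D := by rw [hx, ← pow_add]; congr 1; omega
  have hgev : ∀ u : K, g.eval u = (f.coeff 0)⁻¹ * f.eval (x * u) := by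
    intro u
    simp [hg, eval_comp]
  have hgd : v (g.derivative.eval 1) = 1 := by
    have : g.derivative.eval 1 = (f.coeff 0)⁻¹ * (x * f.derivative.eval x) := by
      rw [hg, derivative_C_mul, derivative_comp]
      simp [eval_comp]
    rw [this, map_mul, map_inv₀, hsimple, inv_mul_cancel₀ h0]
  have hu : v (y / x - 1) < 1 := by
    have : y / x - 1 = -((x - y) / x) := by field_simp; ring
    rw [this, Valuation.map_neg, map_div₀]
    exact (div_lt_one₀ (zero_lt_iff.mpr hX0)).mpr hxy
  have hu1 : v (y / x) ≤ 1 := by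
    have : y / x = (y / x - 1) + 1 := by ring
    rw [this]
    refine (v.map_add _ _).trans (max_le hu.le (by rw [map_one]))
  have key := int_diff hgint hu1 (by rw [map_one]) hu hgd
  rw [hgev, hgev, mul_one, mul_div_cancel₀ _ hx0, ← mul_sub, map_mul, map_inv₀] at key
  have h5 : v (y / x - 1) = v (x - y) / v x := by
    have : y / x - 1 = -((x - y) / x) := by field_simp; ring
    rw [this, Valuation.map_neg, map_div₀]
  rw [h5, Valuation.map_sub_swap, inv_mul_eq_div, div_eq_div_iff h0 hX0] at key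
  rw [key, mul_comm]

/-- Expanding dynamics on a sphere: distances of all distinct points. -/
lemma sphere {F : K → K} {C : K → Prop} (hC : ∀ x, C x → C (F x)) {ρ E : Γ}
    (hρ : ∀ x, C x → v x = ρ) (hE1 : 1 < E)
    (hstep : ∀ x y, C x → C y → v (x - y) < ρ → v (F x - F y) = E * v (x - y)) {x y : K}
    (hx : C x) (hy : C y) (px : Pre F x) (py : Pre F y) (hne : x ≠ y) :
    ∃ j : ℕ, v (x - y) * E ^ j = ρ := by
  have hCn : ∀ (n : ℕ) {x : K}, C x → C (F^[n] x) := by
    intro n
    induction n with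
    | zero => intro x hx; exact hx
    | succ n ih => intro x hx; rw [Function.iterate_succ_apply']; exact hC _ (ih hx)
  have hle : ∀ {x y : K}, C x → C y → v (x - y) ≤ ρ := by
    intro x y hx hy
    refine (v.map_sub _ _).trans ?_
    rw [hρ x hx, hρ y hy, max_self]
  by_contra hcon
  push Not at hcon
  have hpow : ∀ n, v (F^[n] x - F^[n] y) = v (x - y) * E ^ n := by
    intro n
    induction n with
    | zero => simp
    | succ n ih =>
      have h1 : v (F^[n] x - F^[n] y) < ρ :=
        lt_of_le_of_ne (hle (hCn n hx) (hCn n hy)) (by rw [ih]; exact hcon n)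
      rw [Function.iterate_succ_apply', Function.iterate_succ_apply',
        hstep _ _ (hCn n hx) (hCn n hy) h1, ih, pow_succ]
      rw [mul_comm E, mul_assoc]
  obtain ⟨k, p, hp, e1, e2⟩ := common_pre px py
  have h1 := hpow (k + p)
  rw [e1, e2, hpow k, pow_add] at h1
  have hxy : v (x - y) * E ^ k ≠ 0 := mul_ne_zero
    ((Valuation.ne_zero_iff _).mpr (sub_ne_zero.mpr hne))
    (pow_ne_zero _ (ne_of_gt (lt_trans zero_lt_one hE1)))
  rw [← mul_assoc] at h1
  have h2 : E ^ p = 1 := by
    have h3 : v (x - y) * E ^ k * E ^ p = v (x - y) * E ^ k * 1 := by rw [mul_one]; exact h1.symm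
    exact mul_left_cancel₀ hxy h3
  exact absurd h2 (one_lt_pow₀ hE1 (by omega)).ne'

/-- distances of distinct preperiodic points -/
theorem BC.dist (h : BC v f) (hD : 2 ≤ f.natDegree)
    (hsimple : ∀ x, v f.leadingCoeff * v x ^ f.natDegree = v (f.coeff 0) →
      v (f.eval x) < v (f.coeff 0) → v (x * f.derivative.eval x) = v (f.coeff 0)) {x y : K}
    (px : Pre (fun z => f.eval z) x) (py : Pre (fun z => f.eval z) y) (hne : x ≠ y) :
    ∃ j : ℕ, v (x - y) * (v (f.coeff 0) / v x) ^ j = v x := by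
  have h0 := h.c0 hD
  have hx := h.pre hD px
  have hX0 := h.ne_zero hD hx
  have hA := lead_ne (v := v) hD
  have heq : ∀ z, Pre (fun z => f.eval z) z → v z = v x := by
    intro z pz
    have h1 := (h.pre hD pz).trans hx.symm
    exact (pow_left_inj₀ zero_le zero_le (by omega)).mp (mul_left_cancel₀ hA h1)
  refine sphere (F := fun z => f.eval z) (C := fun z => Pre (fun z => f.eval z) z)
    (fun z hz => hz.step) heq ?_ ?_ px py px py hne
  · exact (one_lt_div₀ (zero_lt_iff.mpr hX0)).mpr (h.lt hD hx)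
  · intro z w pz pw hzw
    have hz := h.pre hD pz
    have h1 : v (f.eval z) < v (f.coeff 0) := by
      rw [heq _ pz.step]
      exact h.lt hD hx
    have h2 := h.step hD hz (hsimple z hz h1) (by rw [heq z pz]; exact hzw)
    rw [heq z pz] at h2
    rw [div_mul_eq_mul_div, eq_div_iff hX0]
    exact h2

end

end Pool.Agent.H422.DC
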