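import Mathlib
import Pool.Agent.H422.DC.Loc

/-!
# Differences of periodic points: relations along a cycle
-/

set_option autoImplicit false

open Polynomial

namespace Pool.Agent.H422.DC

open Pool.Agent.H422.HE Pool.Agent.H422.UC Pool.Agent.H422.MF Pool.Agent.H422.MR

section

variable {K : Type*} [Field K] {Γ : Type*} [LinearOrderedCommGroupWithZero Γ] (v : Valuation K Γ)

/-- dominating constant term -/
structure BD (f : K[X]) (M : ℕ) : Prop extends BC v f where
  simple : ∀ x, v f.leadingCoeff * v x ^ f.natDegree = v (f.coeff 0) →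
    v (f.eval x) < v (f.coeff 0) → v (x * f.derivative.eval x) = v (f.coeff 0)
  pow : ∀ x, v f.leadingCoeff * v x ^ f.natDegree = v (f.coeff 0) →
    ∃ g, v (f.coeff 0) = v x * g ^ M

/-- the local property of the differences of periodic points -/
def LP (φ : K → K) (M : ℕ) : Prop :=
  (∀ x y, Per φ x → Per φ y → v (φ x - φ y) = v (x - y)) ∨
  ∃ ρ : Γ, ρ ≠ 0 ∧ ∀ x y, Per φ x → Per φ y → x ≠ y → ∃ g, v (x - y) = g ^ M * ρ

variable {v}

lemma BD.cls {f : K[X]} {M : ℕ} (h : BD v f M) (hD : 2 ≤ f.natDegree) {x y : K}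
    (px : Pre (fun z => f.eval z) x) (py : Pre (fun z => f.eval z) y) (hne : x ≠ y) :
    ∃ g, v (x - y) = g ^ M * v x := by
  obtain ⟨j, hj⟩ := h.toBC.dist hD h.simple px py hne
  have hx := h.toBC.pre hD px
  have hX0 := h.toBC.ne_zero hD hx
  have h0 := h.toBC.c0 hD
  obtain ⟨g, hg⟩ := h.pow x hx
  have h1 : v (f.coeff 0) / v x = g ^ M := by
    rw [hg, mul_div_cancel_left₀ _ hX0]
  have h2 : g ^ M ≠ 0 := by
    intro h2
    rw [h2, mul_zero] at hg
    exact h0 hg
  rw [h1] at hj
  refine ⟨(g ^ j)⁻¹, ?_⟩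
  rw [inv_pow, ← pow_mul, Nat.mul_comm j M, pow_mul, inv_mul_eq_div,
    eq_div_iff (pow_ne_zero _ h2)]
  exact hj

/-- translation of the coordinate -/
noncomputable def tr (f : K[X]) (c : K) : K[X] := f.comp (X + C c) - C c

lemma tr_eval (f : K[X]) (c x : K) : (tr f c).eval (x - c) = f.eval x - c := by
  simp [tr, eval_comp]

lemma tr_iter (f : K[X]) (c x : K) (n : ℕ) :
    (fun z => (tr f c).eval z)^[n] (x - c) = (fun z => f.eval z)^[n] x - c := by
  induction n with
  | zero => rfl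
  | succ n ih => rw [Function.iterate_succ_apply', Function.iterate_succ_apply', ih, tr_eval]

lemma tr_per {f : K[X]} {c x : K} (h : Per (fun z => f.eval z) x) :
    Per (fun z => (tr f c).eval z) (x - c) := by
  obtain ⟨n, hn, he⟩ := h
  exact ⟨n, hn, by rw [tr_iter, he]⟩

lemma tr_natDegree {f : K[X]} (c : K) : (tr f c).natDegree = f.natDegree := by
  have h1 : (f.comp (X + C c)).natDegree = f.natDegree := by
    rw [natDegree_comp, natDegree_X_add_C, mul_one]
  rw [tr, sub_eq_add_neg, ← C_neg, natDegree_add_C, h1]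

/-- the local conditions imply the property of the differences -/
theorem LP_of {f : K[X]} (hD : 2 ≤ f.natDegree) {M : ℕ} {c : K}
    (h : PG v (tr f c) ∨ BD v (tr f c) M) : LP v (fun z => f.eval z) M := by
  have hD' : 2 ≤ (tr f c).natDegree := by rwa [tr_natDegree]
  rcases h with h | h
  · left
    intro x y px py
    have := h.iso hD' (tr_per (c := c) px) (tr_per (c := c) py)
    rw [tr_eval, tr_eval, sub_sub_sub_cancel_right, sub_sub_sub_cancel_right] at this
    exact this
  · right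
    by_cases hex : ∃ x0, Per (fun z => f.eval z) x0
    · obtain ⟨x0, px0⟩ := hex
      have hA := lead_ne (v := v) hD'
      have hx0 := h.toBC.pre hD' (tr_per (c := c) px0).pre
      refine ⟨v (x0 - c), h.toBC.ne_zero hD' hx0, fun x y px py hne => ?_⟩
      have px' := (tr_per (c := c) px).pre
      have hx := h.toBC.pre hD' px'
      have heq : v (x - c) = v (x0 - c) :=
        (pow_left_inj₀ zero_le zero_le (by omega)).mp
          (mul_left_cancel₀ hA (hx.trans hx0.symm))
      obtain ⟨g, hg⟩ := h.cls hD' px' (tr_per (c := c) py).pre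
        (fun h' => hne (sub_left_injective h'))
      rw [sub_sub_sub_cancel_right] at hg
      exact ⟨g, by rw [hg, heq]⟩
    · push Not at hex
      exact ⟨1, one_ne_zero, fun x _ px => absurd px (hex x)⟩

end

section cyc

variable {K : Type*} [Field K] {Γ : Type*} [LinearOrderedCommGroupWithZero Γ] {v : Valuation K Γ}
  {φ : K → K} {M : ℕ}

lemma per_of_iter {X : Type*} {φ : X → X} {m : ℕ} (hm : 0 < m) {x : X} (h : Per φ^[m] x) :
    Per φ x := by
  obtain ⟨n, hn, he⟩ := h
  exact ⟨m * n, Nat.mul_pos hm hn, by rw [Function.iterate_mul]; exact he⟩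

lemma per_iter {X : Type*} {φ : X → X} {m : ℕ} {x : X} (h : Per φ x) : Per φ^[m] x := by
  obtain ⟨n, hn, he⟩ := h
  exact ⟨n, hn, by rw [← Function.iterate_mul, Nat.mul_comm]; exact iter_mul he m⟩

lemma iso_iter (h : ∀ x y, Per φ x → Per φ y → v (φ x - φ y) = v (x - y)) {x y : K}
    (px : Per φ x) (py : Per φ y) (n : ℕ) : v (φ^[n] x - φ^[n] y) = v (x - y) := by
  induction n with
  | zero => rfl
  | succ n ih =>
    rw [Function.iterate_succ_apply', Function.iterate_succ_apply', h _ _ (px.iter n) (py.iter n),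
      ih]

lemma LP.iter (h : LP v φ M) {m : ℕ} (hm : 0 < m) : LP v φ^[m] M := by
  rcases h with h | ⟨ρ, hρ, h⟩
  · left
    intro x y px py
    exact iso_iter h (per_of_iter hm px) (per_of_iter hm py) m
  · right
    exact ⟨ρ, hρ, fun x y px py hne => h x y (per_of_iter hm px) (per_of_iter hm py) hne⟩

/-- telescoping -/
lemma tele (h : ∀ x y, Per φ x → Per φ y → v (φ x - φ y) = v (x - y)) {x : K} (px : Per φ x)
    (k j : ℕ) : v (φ^[k * j] x - x) ≤ v (φ^[k] x - x) := by
  induction j with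
  | zero => simp
  | succ j ih =>
    have e1 : φ^[k * (j + 1)] x - x = (φ^[k * j] (φ^[k] x) - φ^[k * j] x) + (φ^[k * j] x - x) := by
      rw [← Function.iterate_add_apply, Nat.mul_succ]; ring
    rw [e1]
    refine (v.map_add _ _).trans (max_le ?_ ih)
    rw [iso_iter h (px.iter k) px]

/-- the relation between the differences along a cycle -/
theorem LP.rel (h : LP v φ M) {x : K} (px : Per φ x) {k k' j j' : ℕ}
    (h1 : φ^[k * j] x = φ^[k'] x) (h2 : φ^[k' * j'] x = φ^[k] x) (hk : φ^[k] x ≠ x)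
    (hk' : φ^[k'] x ≠ x) (i i' : ℕ) :
    ∃ g, v (φ^[i + k] x - φ^[i] x) = g ^ M * v (φ^[i' + k'] x - φ^[i'] x) := by
  have hinj : ∀ i k, φ^[k] x ≠ x → φ^[i + k] x ≠ φ^[i] x := by
    intro i k hk h'
    rw [Function.iterate_add_apply] at h'
    exact hk (per_inj (px.iter k) px h')
  rcases h with h | ⟨ρ, hρ, h⟩
  · refine ⟨1, ?_⟩
    rw [one_pow, one_mul, Function.iterate_add_apply, Function.iterate_add_apply,
      iso_iter h (px.iter k) px, iso_iter h (px.iter k') px]
    refine le_antisymm ?_ ?_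
    · rw [← h2]; exact tele h px k' j'
    · rw [← h1]; exact tele h px k j
  · obtain ⟨g, hg⟩ := h _ _ (px.iter (i + k)) (px.iter i) (hinj i k hk)
    obtain ⟨g', hg'⟩ := h _ _ (px.iter (i' + k')) (px.iter i') (hinj i' k' hk')
    have hg0 : g' ^ M ≠ 0 := by
      intro h0
      rw [h0, zero_mul, Valuation.zero_iff, sub_eq_zero] at hg'
      exact hinj i' k' hk' hg'
    refine ⟨g / g', ?_⟩
    rw [hg, hg', div_pow, ← mul_assoc, div_mul_cancel₀ _ hg0]

lemma exists_mul_mod {k q k' : ℕ} (hq : 0 < q) (h : Nat.gcd k q ∣ k') :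
    ∃ j, (k * j) % q = k' % q := by
  obtain ⟨c, hc⟩ := h
  have hb := Nat.gcd_eq_gcd_ab k q
  set a := Nat.gcdA k q
  set b := Nat.gcdB k q
  have hq' : (q : ℤ) ≠ 0 := by exact_mod_cast hq.ne'
  refine ⟨((a * c) % q).toNat, ?_⟩
  have h1 : ((((a * c) % q).toNat : ℕ) : ℤ) = (a * c) % q :=
    Int.toNat_of_nonneg (Int.emod_nonneg _ hq')
  zify
  rw [h1]
  have h2 : ((k : ℤ) * (a * c % q)) % q = (k * (a * c)) % q := by
    rw [Int.mul_emod, Int.emod_emod_of_dvd _ (dvd_refl _), ← Int.mul_emod]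
  rw [h2]
  have h3 : (k : ℤ) * (a * c) = k' + q * (-(b * c)) := by
    have h4 : (k' : ℤ) = (Nat.gcd k q : ℤ) * c := by exact_mod_cast hc
    rw [h4, hb]; ring
  rw [h3, Int.add_mul_emod_self_left]

lemma iter_of_mod {X : Type*} {φ : X → X} {x : X} {a b : ℕ}
    (h : a % Function.minimalPeriod φ x = b % Function.minimalPeriod φ x) :
    φ^[a] x = φ^[b] x := by
  rw [← Function.iterate_mod_minimalPeriod_eq (n := a), h,
    Function.iterate_mod_minimalPeriod_eq]

lemma iter_eq_self_iff {X : Type*} {φ : X → X} {x : X} {k : ℕ} :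
    φ^[k] x = x ↔ Function.minimalPeriod φ x ∣ k :=
  Function.isPeriodicPt_iff_minimalPeriod_dvd

theorem LP.rel' (h : LP v φ M) {x : K} (px : Per φ x) {k k' : ℕ}
    (hk : Nat.gcd k (Function.minimalPeriod φ x) = Nat.gcd k' (Function.minimalPeriod φ x))
    (hk0 : ¬ Function.minimalPeriod φ x ∣ k) (i i' : ℕ) :
    ∃ g, v (φ^[i + k] x - φ^[i] x) = g ^ M * v (φ^[i' + k'] x - φ^[i'] x) := by
  have hq : 0 < Function.minimalPeriod φ x := by
    obtain ⟨n, hn, he⟩ := px
    exact Function.IsPeriodicPt.minimalPeriod_pos hn he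
  obtain ⟨j, hj⟩ := exists_mul_mod (k := k) (k' := k') hq (by rw [hk]; exact Nat.gcd_dvd_left _ _)
  obtain ⟨j', hj'⟩ := exists_mul_mod (k := k') (k' := k) hq
    (by rw [← hk]; exact Nat.gcd_dvd_left _ _)
  refine h.rel px (iter_of_mod hj) (iter_of_mod hj') ?_ ?_ i i'
  · rw [Ne, iter_eq_self_iff]; exact hk0
  · rw [Ne, iter_eq_self_iff]
    intro hd
    apply hk0
    have h1 : Nat.gcd k' (Function.minimalPeriod φ x) = Function.minimalPeriod φ x :=
      Nat.gcd_eq_right hd
    rw [h1] at hk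
    rw [← hk]
    exact Nat.gcd_dvd_left _ _

end cyc

end Pool.Agent.H422.DC
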