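import Mathlib
import Pool.Agent.H422.DC.Cyc
import Pool.Agent.H422.HE.Pow
import Pool.Agent.H422.MF.GlobP

/-!
# Cycle lengths over a number field
-/

set_option autoImplicit false

open Polynomial IsDedekindDomain NumberField

namespace Pool.Agent.H422.DC

open Pool.Agent.H422.HE Pool.Agent.H422.UC Pool.Agent.H422.MF Pool.Agent.H422.MR

section

variable {K : Type} [Field K] [NumberField K]

/-- solutions of `t + t' = 1` in power classes -/
def TT (S : Set (HeightOneSpectrum (𝓞 K))) (M : ℕ) : Set K :=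
  {t : K | ∀ v ∉ S, (∃ g, v.valuation K t = g ^ M) ∧ ∃ g, v.valuation K (t - 1) = g ^ M}

lemma TT_finite {S : Set (HeightOneSpectrum (𝓞 K))} (hS : S.Finite) {M : ℕ} (hM : 4 ≤ M) :
    (TT S M).Finite := by
  classical
  refine (pow_fin K hS (m := M) (R := {0, 1}) (Or.inl ⟨hM, ?_⟩)).subset ?_
  · rw [Finset.card_pair zero_ne_one]
  · intro t ht v hv r hr
    rw [Finset.mem_insert, Finset.mem_singleton] at hr
    rcases hr with rfl | rfl
    · rw [sub_zero]; exact (ht v hv).1
    · exact (ht v hv).2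

/-- the same with a square -/
def LL (S : Set (HeightOneSpectrum (𝓞 K))) (M : ℕ) : Set K :=
  {t : K | ∀ v ∉ S, (∃ g, v.valuation K t = g ^ M) ∧ IsSquare (v.valuation K (t - 1))}

lemma LL_finite {S : Set (HeightOneSpectrum (𝓞 K))} (hS : S.Finite) {M : ℕ} (hM : 5 ≤ M) :
    (LL S M).Finite := by
  classical
  obtain ⟨T, hT0, hT⟩ := sel_pow (K := K) (m := M) (by omega) S hS
  have key : ∀ δ ∈ T, {w : K | ∀ v ∉ S, IsSquare (v.valuation K
      ((C δ * X ^ M + C (-1) : K[X]).eval w))}.Finite := by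
    intro δ hδ
    obtain ⟨h1, h2⟩ := sep_one (m := M) (by omega) (hT0 δ hδ) (neg_ne_zero.mpr one_ne_zero)
    exact hyper_val K hS h1 (by rw [h2]; exact hM)
  refine ((T.finite_toSet.biUnion (t := fun δ => (fun w => δ * w ^ M) '' {w : K | ∀ v ∉ S,
    IsSquare (v.valuation K ((C δ * X ^ M + C (-1) : K[X]).eval w))})
    fun δ hδ => (key δ hδ).image _).union (Set.finite_singleton 0)).subset ?_
  intro t ht
  by_cases h0 : t = 0
  · right; exact h0
  left
  obtain ⟨δ, hδ, w, -, hw⟩ := hT t h0 fun v hv => (ht v hv).1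
  simp only [Set.mem_iUnion]
  refine ⟨δ, hδ, w, ?_, hw.symm⟩
  intro v hv
  have h1 : (C δ * X ^ M + C (-1) : K[X]).eval w = t - 1 := by
    rw [hw]; simp; ring
  rw [h1]
  exact (ht v hv).2

variable {S : Set (HeightOneSpectrum (𝓞 K))} {M : ℕ} {φ : K → K}

omit [Field K] [NumberField K] in
lemma step_ne {x : K} {k : ℕ} (hk : 1 < Function.minimalPeriod φ x)
    (hk' : Nat.gcd k (Function.minimalPeriod φ x) = 1) : ¬ Function.minimalPeriod φ x ∣ k := by
  intro hd
  rw [Nat.gcd_eq_right hd] at hk'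
  omega

lemma iter_inj {X : Type*} {φ : X → X} {x : X} {a b : ℕ} (ha : a < Function.minimalPeriod φ x)
    (hb : b < Function.minimalPeriod φ x) (h : φ^[a] x = φ^[b] x) : a = b :=
  Function.iterate_injOn_Iio_minimalPeriod ha hb h

/-- odd steps -/
lemma mem_TT (h : ∀ v ∉ S, LP (v.valuation K) φ M) {x : K} (px : Per φ x) {k : ℕ} (hk2 : 2 ≤ k)
    (hq : 1 < Function.minimalPeriod φ x) (hk : Nat.gcd k (Function.minimalPeriod φ x) = 1)
    (hk1 : Nat.gcd (k - 1) (Function.minimalPeriod φ x) = 1) :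
    (φ^[k] x - x) / (φ^[1] x - x) ∈ TT S M := by
  intro v hv
  have h1 : φ^[1] x - x ≠ 0 := by
    rw [sub_ne_zero, Ne, iter_eq_self_iff]
    exact step_ne hq (Nat.gcd_one_left _)
  have hv1 : v.valuation K (φ^[1] x - x) ≠ 0 := (Valuation.ne_zero_iff _).mpr h1
  constructor
  · obtain ⟨g, hg⟩ := (h v hv).rel' px (k := k) (k' := 1) (by rw [hk, Nat.gcd_one_left])
      (step_ne hq hk) 0 0
    simp only [Nat.zero_add, Function.iterate_zero, id] at hg
    exact ⟨g, by rw [map_div₀, hg, mul_div_cancel_right₀ _ hv1]⟩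
  · obtain ⟨g, hg⟩ := (h v hv).rel' px (k := k - 1) (k' := 1) (by rw [hk1, Nat.gcd_one_left])
      (step_ne hq hk1) 1 0
    simp only [Nat.zero_add, Function.iterate_zero, id] at hg
    rw [show 1 + (k - 1) = k by omega] at hg
    refine ⟨g, ?_⟩
    have e1 : (φ^[k] x - x) / (φ^[1] x - x) - 1 = (φ^[k] x - φ^[1] x) / (φ^[1] x - x) := by
      field_simp
      ring
    rw [e1, map_div₀, hg, mul_div_cancel_right₀ _ hv1]

lemma card_TT (hS : S.Finite) (hM : 4 ≤ M) (h : ∀ v ∉ S, LP (v.valuation K) φ M) {x : K}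
    (px : Per φ x) (A : Finset ℕ) (hA : ∀ k ∈ A, 2 ≤ k ∧ k < Function.minimalPeriod φ x ∧
      Nat.gcd k (Function.minimalPeriod φ x) = 1 ∧
      Nat.gcd (k - 1) (Function.minimalPeriod φ x) = 1) :
    A.card ≤ (TT_finite hS hM).toFinset.card := by
  classical
  refine Finset.card_le_card_of_injOn (fun k => (φ^[k] x - x) / (φ^[1] x - x)) ?_ ?_
  · intro k hk
    obtain ⟨h1, h2, h3, h4⟩ := hA k hk
    rw [Finset.mem_coe, Set.Finite.mem_toFinset]
    exact mem_TT h px h1 (by omega) h3 h4
  · intro k hk k' hk' he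
    obtain ⟨h1, h2, h3, h4⟩ := hA k hk
    obtain ⟨h1', h2', h3', h4'⟩ := hA k' hk'
    have hne : φ^[1] x - x ≠ 0 := by
      rw [sub_ne_zero, Ne, iter_eq_self_iff]
      exact step_ne (by omega) (Nat.gcd_one_left _)
    simp only at he
    rw [div_left_inj' hne, sub_left_inj] at he
    exact iter_inj h2 h2' he

/-- odd prime powers dividing a period -/
theorem odd_bound (hS : S.Finite) (hM : 4 ≤ M) (h : ∀ v ∉ S, LP (v.valuation K) φ M) {x : K}
    (px : Per φ x) {p b : ℕ} (hp : p.Prime) (hp3 : 3 ≤ p)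
    (hd : p ^ b ∣ Function.minimalPeriod φ x) :
    p ^ b ≤ ((TT_finite hS hM).toFinset.card + 2) ^ 2 := by
  classical
  set B := (TT_finite hS hM).toFinset.card with hB
  rcases Nat.eq_zero_or_pos b with hb | hb
  · subst hb; rw [pow_zero]; nlinarith
  -- reduction to a period which is a power of `p`
  have red : ∀ r, p ^ r ∣ Function.minimalPeriod φ x → ∃ m, 0 < m ∧
      Function.minimalPeriod φ^[m] x = p ^ r := by
    intro r hr
    obtain ⟨m, hm⟩ := hr
    have hpos : 0 < Function.minimalPeriod φ x := by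
      obtain ⟨n, hn, he⟩ := px
      exact Function.IsPeriodicPt.minimalPeriod_pos hn he
    have hm0 : 0 < m := by
      rcases Nat.eq_zero_or_pos m with h0 | h0
      · rw [h0, Nat.mul_zero] at hm; omega
      · exact h0
    refine ⟨m, hm0, ?_⟩
    rw [Function.minimalPeriod_iterate_eq_div_gcd hm0.ne', hm, Nat.gcd_mul_left_left,
      Nat.mul_div_cancel _ hm0]
  have hpB : p ≤ B + 2 := by
    obtain ⟨m, hm, hmp⟩ := red 1 ((pow_dvd_pow p hb).trans hd)
    rw [pow_one] at hmp
    have := card_TT hS hM (fun v hv => (h v hv).iter hm) (per_iter px) (Finset.Ico 2 p) (by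
      intro k hk
      rw [Finset.mem_Ico] at hk
      rw [hmp]
      refine ⟨hk.1, hk.2, ?_, ?_⟩
      · exact (Nat.coprime_of_lt_prime (by omega) hk.2 hp).symm
      · exact (Nat.coprime_of_lt_prime (by omega) (by omega) hp).symm)
    rw [Nat.card_Ico] at this
    omega
  have hpb : p ^ (b - 1) ≤ B + 2 := by
    obtain ⟨m, hm, hmp⟩ := red b hd
    have hpb1 : p ^ b = p * p ^ (b - 1) := by
      rw [← pow_succ']; congr 1; omega
    have := card_TT hS hM (fun v hv => (h v hv).iter hm) (per_iter px)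
      ((Finset.range (p ^ (b - 1))).image (fun j => 2 + p * j)) (by
      intro k hk
      obtain ⟨j, hj, rfl⟩ := Finset.mem_image.mp hk
      rw [Finset.mem_range] at hj
      rw [hmp]
      have hcop : ∀ a, 0 < a → a < p → Nat.gcd (a + p * j) (p ^ b) = 1 := by
        intro a ha hap
        apply Nat.Coprime.pow_right
        rw [Nat.coprime_add_mul_left_left]
        exact (Nat.coprime_of_lt_prime (by omega) hap hp).symm
      refine ⟨by omega, ?_, hcop 2 (by omega) (by omega), ?_⟩
      · rw [hpb1]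
        calc 2 + p * j < p + p * j := by omega
          _ = p * (j + 1) := by ring
          _ ≤ p * p ^ (b - 1) := Nat.mul_le_mul_left _ hj
      · rw [show 2 + p * j - 1 = 1 + p * j by omega]
        exact hcop 1 (by omega) (by omega))
    rw [Finset.card_image_of_injective, Finset.card_range] at this
    · omega
    · intro a b hab
      simp only [add_right_inj] at hab
      exact Nat.eq_of_mul_eq_mul_left (by omega) hab
  calc p ^ b = p * p ^ (b - 1) := by rw [← pow_succ']; congr 1; omega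
    _ ≤ (B + 2) * (B + 2) := Nat.mul_le_mul hpB hpb
    _ = _ := (sq _).symm

end

end Pool.Agent.H422.DC
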