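import Mathlib
import Pool.Agent.H422.DC.Glob

/-!
# Cycle lengths over a number field: powers of two
-/

set_option autoImplicit false

open Polynomial IsDedekindDomain NumberField

namespace Pool.Agent.H422.DC

open Pool.Agent.H422.HE Pool.Agent.H422.UC Pool.Agent.H422.MF Pool.Agent.H422.MR

section

variable {K : Type} [Field K] [NumberField K] {S : Set (HeightOneSpectrum (𝓞 K))} {M : ℕ}
  {φ : K → K}

/-- the cross ratio -/
noncomputable def cr (φ : K → K) (x : K) (l : ℕ) : K :=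
  -((φ^[1] x - x) * (φ^[l] x - φ^[2] x)) / ((φ^[2] x - φ^[1] x) * (φ^[l] x - x))

omit [NumberField K] in
lemma cr_ne {x : K} (px : Per φ x) {s l : ℕ} (hs : 2 ≤ s)
    (hq : Function.minimalPeriod φ x = 2 ^ s) (hl : l % 4 = 3) :
    φ^[1] x - x ≠ 0 ∧ φ^[2] x - φ^[1] x ≠ 0 ∧ φ^[2] x - x ≠ 0 ∧ φ^[l] x - x ≠ 0 := by
  have h4 : 4 ∣ 2 ^ s := by
    rw [show (4 : ℕ) = 2 ^ 2 by norm_num]; exact pow_dvd_pow 2 hs
  have hno : ∀ k, ¬ 4 ∣ k → φ^[k] x - x ≠ 0 := by
    intro k hk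
    rw [sub_ne_zero, Ne, iter_eq_self_iff, hq]
    exact fun h => hk (h4.trans h)
  refine ⟨hno 1 (by omega), ?_, hno 2 (by omega), hno l (by omega)⟩
  intro h
  rw [sub_eq_zero, show φ^[2] x = φ^[1] (φ^[1] x) from rfl] at h
  have := hno 1 (by omega)
  rw [sub_ne_zero] at this
  exact this (per_inj (k := 1) (px.iter 1) px h)

lemma mem_LL (hM2 : Even M) (h : ∀ v ∉ S, LP (v.valuation K) φ M) {x : K} (px : Per φ x)
    {s l : ℕ} (hs : 2 ≤ s) (hq : Function.minimalPeriod φ x = 2 ^ s) (hl : l % 4 = 3) :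
    cr φ x l ∈ LL S M := by
  obtain ⟨n1, n2, n3, n4⟩ := cr_ne px hs hq hl
  have h4 : 4 ∣ 2 ^ s := by
    rw [show (4 : ℕ) = 2 ^ 2 by norm_num]; exact pow_dvd_pow 2 hs
  have hodd : ∀ k, k % 2 = 1 → Nat.gcd k (2 ^ s) = 1 := by
    intro k hk
    apply Nat.Coprime.pow_right
    exact (Nat.coprime_two_right).mpr (Nat.odd_iff.mpr hk)
  have hnd : ∀ k, k % 2 = 1 → ¬ Function.minimalPeriod φ x ∣ k := by
    intro k hk hd
    rw [hq] at hd
    have := h4.trans hd
    omega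
  have h2 : Nat.gcd (l - 1) (2 ^ s) = Nat.gcd 2 (2 ^ s) := by
    obtain ⟨j, hj⟩ : ∃ j, l - 1 = 2 * (1 + 2 * j) := ⟨(l - 3) / 4, by omega⟩
    obtain ⟨r, hr⟩ : ∃ r, s = r + 1 := ⟨s - 1, by omega⟩
    rw [hj, hr, pow_succ', Nat.gcd_mul_left]
    have h3 : Nat.gcd (1 + 2 * j) (2 ^ r) = 1 := by
      apply Nat.Coprime.pow_right
      exact (Nat.coprime_two_right).mpr (Nat.odd_iff.mpr (by omega))
    rw [h3, Nat.gcd_mul_right_right]
  obtain ⟨m, hm⟩ := hM2
  intro v hv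
  have key := fun k k' i i' hk hk0 => (h v hv).rel' px (k := k) (k' := k') hk hk0 i i'
  have v1 : v.valuation K (φ^[1] x - x) ≠ 0 := (Valuation.ne_zero_iff _).mpr n1
  have v2 : v.valuation K (φ^[2] x - φ^[1] x) ≠ 0 := (Valuation.ne_zero_iff _).mpr n2
  have v4 : v.valuation K (φ^[l] x - x) ≠ 0 := (Valuation.ne_zero_iff _).mpr n4
  constructor
  · obtain ⟨g, hg⟩ := key 1 1 0 1 rfl (hnd 1 rfl)
    obtain ⟨g', hg'⟩ := key (l - 2) l 2 0 (by rw [hq, hodd _ (by omega), hodd _ (by omega)])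
      (hnd _ (by omega))
    simp only [Nat.zero_add, Function.iterate_zero, id, Nat.reduceAdd] at hg hg'
    rw [show 2 + (l - 2) = l by omega] at hg'
    refine ⟨g * g', ?_⟩
    rw [cr, map_div₀, Valuation.map_neg, map_mul, map_mul, hg, hg', div_eq_iff (mul_ne_zero v2 v4),
      mul_pow, mul_mul_mul_comm]
  · obtain ⟨g1, hg1⟩ := key (l - 1) 2 1 0 (by rw [hq, h2]) (by
      rw [hq]
      intro hd
      have := h4.trans hd
      omega)
    obtain ⟨g2, hg2⟩ := key 1 1 1 0 rfl (hnd 1 rfl)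
    obtain ⟨g3, hg3⟩ := key l 1 0 0 (by rw [hq, hodd _ (by omega), hodd _ (by omega)])
      (hnd _ (by omega))
    simp only [Nat.zero_add, Function.iterate_zero, id, Nat.reduceAdd] at hg1 hg2 hg3
    rw [show 1 + (l - 1) = l by omega] at hg1
    have e1 : cr φ x l - 1 = -((φ^[2] x - x) * (φ^[l] x - φ^[1] x)) /
        ((φ^[2] x - φ^[1] x) * (φ^[l] x - x)) := by
      rw [cr]
      field_simp
      ring
    refine ⟨v.valuation K (φ^[2] x - x) * g1 ^ m /
      (g2 ^ m * g3 ^ m * v.valuation K (φ^[1] x - x)), ?_⟩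
    have hpow : ∀ g : WithZero (Multiplicative ℤ), g ^ M = g ^ m * g ^ m := by
      intro g; rw [hm, pow_add]
    rw [e1, map_div₀, Valuation.map_neg, map_mul, map_mul, hg1, hg2, hg3, hpow, hpow, hpow,
      div_mul_div_comm]
    congr 1
    · rw [mul_comm (g1 ^ m * g1 ^ m), ← mul_assoc, mul_mul_mul_comm]
    · rw [mul_mul_mul_comm, mul_mul_mul_comm (g2 ^ m) (g2 ^ m) (g3 ^ m) (g3 ^ m),
        mul_mul_mul_comm]

omit [NumberField K] in
lemma cr_inj {x : K} (px : Per φ x) {s l l' : ℕ} (hs : 2 ≤ s)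
    (hq : Function.minimalPeriod φ x = 2 ^ s) (hl : l % 4 = 3) (hl' : l' % 4 = 3)
    (h1 : l < 2 ^ s) (h1' : l' < 2 ^ s) (he : cr φ x l = cr φ x l') : l = l' := by
  obtain ⟨n1, n2, n3, n4⟩ := cr_ne px hs hq hl
  obtain ⟨-, -, -, n4'⟩ := cr_ne px hs hq hl'
  apply iter_inj (φ := φ) (x := x) (by rw [hq]; exact h1) (by rw [hq]; exact h1')
  rw [cr, cr, div_eq_div_iff (mul_ne_zero n2 n4) (mul_ne_zero n2 n4')] at he
  have h2 : (φ^[1] x - x) * (φ^[2] x - φ^[1] x) * (φ^[2] x - x) * (φ^[l] x - φ^[l'] x) = 0 := by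
    linear_combination -he
  have h3 : φ^[l] x - φ^[l'] x = 0 := by
    rcases mul_eq_zero.mp h2 with h | h
    · exact absurd h (mul_ne_zero (mul_ne_zero n1 n2) n3)
    · exact h
  exact sub_eq_zero.mp h3

/-- powers of two dividing a period -/
theorem two_bound (hS : S.Finite) (hM : 5 ≤ M) (hM2 : Even M)
    (h : ∀ v ∉ S, LP (v.valuation K) φ M) {x : K} (px : Per φ x) {s : ℕ}
    (hd : 2 ^ s ∣ Function.minimalPeriod φ x) :
    2 ^ s ≤ 4 * ((LL_finite hS hM).toFinset.card + 1) := by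
  classical
  set B := (LL_finite hS hM).toFinset.card with hB
  rcases Nat.lt_or_ge s 2 with hs | hs
  · calc 2 ^ s ≤ 2 ^ 2 := Nat.pow_le_pow_right (by norm_num) hs.le
      _ ≤ _ := by omega
  obtain ⟨m, hm⟩ := hd
  have hpos : 0 < Function.minimalPeriod φ x := by
    obtain ⟨n, hn, he⟩ := px
    exact Function.IsPeriodicPt.minimalPeriod_pos hn he
  have hm0 : 0 < m := by
    rcases Nat.eq_zero_or_pos m with h0 | h0
    · rw [h0, Nat.mul_zero] at hm; omega
    · exact h0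
  have hmp : Function.minimalPeriod φ^[m] x = 2 ^ s := by
    rw [Function.minimalPeriod_iterate_eq_div_gcd hm0.ne', hm, Nat.gcd_mul_left_left,
      Nat.mul_div_cancel _ hm0]
  have px' : Per φ^[m] x := per_iter px
  have hlt : ∀ j < 2 ^ (s - 2), 3 + 4 * j < 2 ^ s := by
    intro j hj
    have : 2 ^ s = 4 * 2 ^ (s - 2) := by
      rw [show (4 : ℕ) = 2 ^ 2 by norm_num, ← pow_add]; congr 1; omega
    omega
  have key : (Finset.range (2 ^ (s - 2))).card ≤ B := by
    refine Finset.card_le_card_of_injOn (fun j => cr φ^[m] x (3 + 4 * j)) ?_ ?_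
    · intro j _
      rw [Finset.mem_coe, Set.Finite.mem_toFinset]
      exact mem_LL hM2 (fun v hv => (h v hv).iter hm0) px' hs hmp (by omega)
    · intro j hj j' hj' he
      rw [Finset.mem_coe, Finset.mem_range] at hj hj'
      have := cr_inj px' hs hmp (by omega) (by omega) (hlt j hj) (hlt j' hj') he
      omega
  rw [Finset.card_range] at key
  have : 2 ^ s = 4 * 2 ^ (s - 2) := by
    rw [show (4 : ℕ) = 2 ^ 2 by norm_num, ← pow_add]; congr 1; omega
  omega

/-- odd divisors of periods -/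
theorem odd_dvd (hS : S.Finite) (hM : 4 ≤ M) : ∃ B : ℕ, ∀ φ : K → K,
    (∀ v ∉ S, LP (v.valuation K) φ M) → ∀ x, Per φ x → ∀ m, Odd m →
      m ∣ Function.minimalPeriod φ x → m ≤ B := by
  refine ⟨(((TT_finite hS hM).toFinset.card + 2) ^ 2).factorial, ?_⟩
  intro φ h x px m hodd hd
  apply Nat.le_of_dvd (Nat.factorial_pos _)
  rw [Nat.dvd_iff_prime_pow_dvd_dvd]
  intro p k hp hk
  apply Nat.dvd_factorial (pow_pos hp.pos _)
  rcases Nat.eq_zero_or_pos k with hk0 | hk0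
  · rw [hk0, pow_zero]; exact Nat.one_le_pow _ _ (by omega)
  apply odd_bound hS hM h px hp
  · have h2 : p ≠ 2 := by
      rintro rfl
      have : 2 ∣ m := (dvd_pow_self 2 hk0.ne').trans hk
      exact (Nat.not_even_iff_odd.mpr hodd) (even_iff_two_dvd.mpr this)
    have := hp.two_le
    omega
  · exact hk.trans hd

/-- periods, even exponent -/
theorem per_dvd (hS : S.Finite) (hM : 5 ≤ M) (hM2 : Even M) : ∃ B : ℕ, 0 < B ∧ ∀ φ : K → K,
    (∀ v ∉ S, LP (v.valuation K) φ M) → ∀ x, Per φ x → φ^[B] x = x := by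
  set B1 := ((TT_finite hS (M := M) (by omega)).toFinset.card + 2) ^ 2
  set B2 := 4 * ((LL_finite hS hM).toFinset.card + 1)
  refine ⟨(B1 + B2).factorial, Nat.factorial_pos _, ?_⟩
  intro φ h x px
  rw [iter_eq_self_iff, Nat.dvd_iff_prime_pow_dvd_dvd]
  intro p k hp hk
  apply Nat.dvd_factorial (pow_pos hp.pos _)
  rcases Nat.lt_or_ge p 3 with h3 | h3
  · have h2 : p = 2 := by have := hp.two_le; omega
    subst h2
    exact (two_bound hS hM hM2 h px hk).trans (Nat.le_add_left _ _)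
  · exact (odd_bound hS (by omega) h px hp h3 hk).trans (Nat.le_add_right _ _)

end

end Pool.Agent.H422.DC
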