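import Mathlib
import Pool.Agent.H422.DC.Cyc
import Pool.Agent.H422.UC.Global

/-!
# Polynomials in `z ^ e`: the differences `x - ζ y` at one place
-/

set_option autoImplicit false

open Polynomial

namespace Pool.Agent.H422.DC

open Pool.Agent.H422.HE Pool.Agent.H422.UC Pool.Agent.H422.MF Pool.Agent.H422.MR

section

variable {K : Type*} [Field K] {Γ : Type*} [LinearOrderedCommGroupWithZero Γ] {v : Valuation K Γ}
  {f g : K[X]} {e : ℕ}

lemma comp_coeff (he : 0 < e) (hf : f = g.comp (X ^ e)) (j : ℕ) :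
    g.coeff j = f.coeff (e * j) := by
  have h1 : f = expand K e g := by rw [hf, expand_eq_comp_X_pow]
  rw [h1, Nat.mul_comm, coeff_expand_mul he]

lemma comp_diff (hf : f = g.comp (X ^ e)) (x y : K) :
    f.eval x - f.eval y = g.eval (x ^ e) - g.eval (y ^ e) := by
  simp [hf, eval_comp]

lemma PG.diff_le (h : PG v f) (hD : 2 ≤ f.natDegree) (he : 0 < e) (hf : f = g.comp (X ^ e))
    {x y : K} (hx : v f.leadingCoeff * v x ^ (f.natDegree - 1) ≤ 1)
    (hy : v f.leadingCoeff * v y ^ (f.natDegree - 1) ≤ 1) :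
    v (f.eval x - f.eval y) ^ (f.natDegree - 1) ≤
      v (x ^ e - y ^ e) ^ (f.natDegree - 1) * v f.leadingCoeff ^ (e - 1) := by
  have hA := lead_ne (v := v) hD
  set R := max (v x) (v y) with hRdef
  have hR : v f.leadingCoeff * R ^ (f.natDegree - 1) ≤ 1 := by
    rcases le_total (v x) (v y) with h' | h'
    · rw [hRdef, max_eq_right h']; exact hy
    · rw [hRdef, max_eq_left h']; exact hx
  set D := f.natDegree - 1 with hDdef
  set A := v f.leadingCoeff with hAdef
  -- one coefficient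
  have hterm : ∀ j, (v (g.coeff (j + 1)) * (R ^ e) ^ j) ^ D ≤ A ^ (e - 1) := by
    intro j
    rw [← mul_le_mul_iff_left₀ (zero_lt_iff.mpr hA)]
    have h1 := h (e * (j + 1))
    rw [← comp_coeff he hf, ← hDdef, ← hAdef] at h1
    have hpos : 0 < A := zero_lt_iff.mpr hA
    calc (v (g.coeff (j + 1)) * (R ^ e) ^ j) ^ D * A
        = (v (g.coeff (j + 1)) ^ D * A) * (R ^ D) ^ (e * j) := by
          rw [mul_pow, mul_right_comm]
          congr 1
          rw [← pow_mul, ← pow_mul, ← pow_mul]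
          congr 1
          ring
      _ ≤ A ^ (e * (j + 1)) * (R ^ D) ^ (e * j) := mul_le_mul' h1 le_rfl
      _ = A ^ e * (A * R ^ D) ^ (e * j) := by
          rw [mul_pow, Nat.mul_succ, pow_add, mul_comm (A ^ (e * j)), mul_assoc]
      _ ≤ A ^ e * 1 := mul_le_mul' le_rfl (pow_le_one' hR _)
      _ = A ^ (e - 1) * A := by rw [mul_one, ← pow_succ]; congr 1; omega
  by_contra hcon
  rw [not_le] at hcon
  have hD0 : D ≠ 0 := by omega
  have hne : v (f.eval x - f.eval y) ≠ 0 := by
    intro h0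
    rw [h0, zero_pow hD0] at hcon
    exact not_lt_zero hcon
  have key : v (f.eval x - f.eval y) < v (f.eval x - f.eval y) := by
    conv_lhs => rw [comp_diff hf]
    rw [eval_eq_sum_range, eval_eq_sum_range, ← Finset.sum_sub_distrib]
    apply Valuation.map_sum_lt _ hne
    intro j _
    rw [← mul_sub, map_mul]
    rcases j with _ | j
    · simp only [pow_zero, sub_self, map_zero, mul_zero]
      exact zero_lt_iff.mpr hne
    · apply lt_of_pow_lt_pow_left₀ D zero_le
      refine lt_of_le_of_lt ?_ hcon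
      have h1 : v ((x ^ e) ^ (j + 1) - (y ^ e) ^ (j + 1)) ≤ (R ^ e) ^ j * v (x ^ e - y ^ e) :=
        pow_sub_le_pow (by rw [map_pow]; exact pow_le_pow_left₀ zero_le (le_max_left _ _) e)
          (by rw [map_pow]; exact pow_le_pow_left₀ zero_le (le_max_right _ _) e) j
      calc (v (g.coeff (j + 1)) * v ((x ^ e) ^ (j + 1) - (y ^ e) ^ (j + 1))) ^ D
          ≤ (v (g.coeff (j + 1)) * ((R ^ e) ^ j * v (x ^ e - y ^ e))) ^ D :=
            pow_le_pow_left₀ zero_le (mul_le_mul' le_rfl h1) D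
        _ = (v (g.coeff (j + 1)) * (R ^ e) ^ j) ^ D * v (x ^ e - y ^ e) ^ D := by
            rw [← mul_assoc, mul_pow]
        _ ≤ A ^ (e - 1) * v (x ^ e - y ^ e) ^ D := mul_le_mul' (hterm j) le_rfl
        _ = _ := mul_comm _ _
  exact lt_irrefl _ key

/-- potentially good reduction: `x - ζ y` -/
theorem PG.zeta (h : PG v f) (hD : 2 ≤ f.natDegree) (he : 2 ≤ e) (hf : f = g.comp (X ^ e))
    {ζ₀ : K} (hζ : IsPrimitiveRoot ζ₀ e) {x y : K} (px : Per (fun z => f.eval z) x)
    (py : Per (fun z => f.eval z) y) (hne : x ≠ y) {ζ : K} (h1 : ζ ^ e = 1) (h2 : ζ ≠ 1) :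
    v (x - ζ * y) ^ (f.natDegree - 1) * v f.leadingCoeff = 1 := by
  classical
  have hx := h.pre hD px.pre
  have hy := h.pre hD py.pre
  have hle := h.diff_le hD (by omega) hf hx hy
  rw [h.iso hD px py, prod_eq v hζ he, ← Finset.prod_pow] at hle
  have hcard : ((nthRootsFinset e (1 : K)).erase 1).card = e - 1 := by
    rw [Finset.card_erase_of_mem ((mem_roots' he).mpr (one_pow e)), hζ.card_nthRootsFinset]
  rw [← Finset.mul_prod_erase _ (fun ζ => v (x - ζ * y) ^ (f.natDegree - 1))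
    ((mem_roots' he).mpr (one_pow e)), one_mul, mul_assoc, ← hcard,
    ← Finset.prod_const, ← Finset.prod_mul_distrib] at hle
  have hxy : v (x - y) ^ (f.natDegree - 1) ≠ 0 :=
    pow_ne_zero _ ((Valuation.ne_zero_iff _).mpr (sub_ne_zero.mpr hne))
  have hfac : ∀ ζ ∈ (nthRootsFinset e (1 : K)).erase 1,
      v (x - ζ * y) ^ (f.natDegree - 1) * v f.leadingCoeff ≤ 1 := by
    intro ζ hζ'
    have hr := root_v v he ((mem_roots' he).mp (Finset.mem_of_mem_erase hζ'))
    have h3 : v (x - ζ * y) ≤ max (v x) (v y) := by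
      refine (v.map_sub _ _).trans ?_
      rw [map_mul, hr, one_mul]
    rw [mul_comm]
    refine (mul_le_mul' le_rfl (pow_le_pow_left₀ zero_le h3 _)).trans ?_
    rcases le_total (v x) (v y) with h' | h'
    · rw [max_eq_right h']; exact hy
    · rw [max_eq_left h']; exact hx
  have hone : ∏ ζ ∈ (nthRootsFinset e (1 : K)).erase 1,
      v (x - ζ * y) ^ (f.natDegree - 1) * v f.leadingCoeff = 1 := by
    refine le_antisymm (Finset.prod_le_one' hfac) ?_
    have h4 : v (x - y) ^ (f.natDegree - 1) * 1 ≤ v (x - y) ^ (f.natDegree - 1) *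
      ∏ ζ ∈ (nthRootsFinset e (1 : K)).erase 1,
        v (x - ζ * y) ^ (f.natDegree - 1) * v f.leadingCoeff := by rw [mul_one]; exact hle
    exact (mul_le_mul_iff_right₀ (zero_lt_iff.mpr hxy)).mp h4
  exact all_eq_one _ _ hfac hone ζ (Finset.mem_erase.mpr ⟨h2, (mem_roots' he).mpr h1⟩)

/-- dominating constant term: `x - z` for a point `z` with `f z = f y` -/
theorem BC.other (h : BC v f) (hD : 2 ≤ f.natDegree) {x y z : K} {M : ℕ}
    (hx : v f.leadingCoeff * v x ^ f.natDegree = v (f.coeff 0))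
    (hs : v (x * f.derivative.eval x) = v (f.coeff 0))
    (hz : v z = v x) (hfz : f.eval z = f.eval y) {g g' : Γ}
    (hg : v (f.eval x - f.eval y) = g ^ M * v x) (hg' : v (f.coeff 0) = v x * g' ^ M) :
    ∃ g, v (x - z) = g ^ M * v x := by
  have hle : v (x - z) ≤ v x := by
    refine (v.map_sub _ _).trans ?_
    rw [hz, max_self]
  have hX0 := h.ne_zero hD hx
  have h0 := h.c0 hD
  rcases lt_or_eq_of_le hle with h1 | h1
  · have h2 := h.step hD hx hs h1
    rw [hfz, hg, hg'] at h2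
    have hg0 : g' ^ M ≠ 0 := by
      intro h3
      rw [h3, mul_zero] at hg'
      exact h0 hg'
    refine ⟨g / g', ?_⟩
    rw [div_pow, div_mul_eq_mul_div, eq_div_iff hg0]
    have h3 : v x * (g ^ M * v x) = v x * (v (x - z) * g' ^ M) := by
      calc v x * (g ^ M * v x) = g ^ M * v x * v x := mul_comm _ _
        _ = v x * g' ^ M * v (x - z) := h2
        _ = _ := by rw [mul_assoc, mul_comm (g' ^ M)]
    exact (mul_left_cancel₀ hX0 h3).symm
  · exact ⟨1, by rw [one_pow, one_mul, h1]⟩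

end

end Pool.Agent.H422.DC
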