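import Mathlib
import Pool.Agent.H422.DC.Zeta
import Pool.Agent.H422.DC.Two

/-!
# Polynomials in `z ^ e`, `e ≥ 3`, over a number field
-/

set_option autoImplicit false

open Polynomial IsDedekindDomain NumberField

namespace Pool.Agent.H422.DC

open Pool.Agent.H422.HE Pool.Agent.H422.UC Pool.Agent.H422.MF Pool.Agent.H422.MR

section

variable {K : Type} [Field K] [NumberField K] (L : Type) [Field L] [NumberField L] [Algebra K L]

/-- valuations of elements of the smaller field -/
lemma val_under (w : HeightOneSpectrum (𝓞 L)) : ∃ r : ℕ, r ≠ 0 ∧ ∀ x : K,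
    w.valuation L (algebraMap K L x) = (w.under (𝓞 K)).valuation K x ^ r := by
  have : w.asIdeal.LiesOver (w.under (𝓞 K)).asIdeal := ⟨rfl⟩
  refine ⟨(w.under (𝓞 K)).asIdeal.ramificationIdx' w.asIdeal, ?_, fun x => ?_⟩
  · exact Ideal.IsDedekindDomain.ramificationIdx'_ne_zero_of_liesOver w.asIdeal
      (w.under (𝓞 K)).ne_bot
  · exact (HeightOneSpectrum.valuation_liesOver L (w.under (𝓞 K)) w x).symm

lemma under_finite {S : Set (HeightOneSpectrum (𝓞 K))} (hS : S.Finite) :
    {w : HeightOneSpectrum (𝓞 L) | w.under (𝓞 K) ∈ S}.Finite := by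
  classical
  have h1 : {w : HeightOneSpectrum (𝓞 L) | w.under (𝓞 K) ∈ S} =
      ⋃ v ∈ S, {w : HeightOneSpectrum (𝓞 L) | w.under (𝓞 K) = v} := by
    ext w; simp
  rw [h1]
  refine hS.biUnion fun v _ => ?_
  obtain ⟨a, ha, ha0⟩ := Submodule.exists_mem_ne_zero_of_ne_bot v.ne_bot
  have haK : (algebraMap (𝓞 K) K a) ≠ 0 := by simpa using ha0
  have haL : algebraMap K L (algebraMap (𝓞 K) K a) ≠ 0 := (_root_.map_ne_zero _).mpr haK
  refine (finite_unit _ haL).subset ?_
  rintro w rfl
  obtain ⟨r, hr, h⟩ := val_under (K := K) L w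
  rw [Set.mem_ofPred_eq, h]
  intro h2
  have h3 : (w.under (𝓞 K)).valuation K (algebraMap (𝓞 K) K a) = 1 :=
    (pow_eq_one_iff_of_nonneg zero_le hr).mp h2
  have h4 := (HeightOneSpectrum.valuation_lt_one_iff_mem (K := K) (w.under (𝓞 K)) a).mpr ha
  exact absurd h3 h4.ne

variable {L} {w : HeightOneSpectrum (𝓞 L)} {f : K[X]}

lemma PG.up (h : PG ((w.under (𝓞 K)).valuation K) f) :
    PG (w.valuation L) (f.map (algebraMap K L)) := by
  obtain ⟨r, hr, hv⟩ := val_under (K := K) L w
  intro i
  have h1 := pow_le_pow_left₀ zero_le (h i) r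
  rw [leadingCoeff_map, coeff_map, natDegree_map, hv, hv]
  rw [mul_pow] at h1
  rw [← pow_mul, ← pow_mul, Nat.mul_comm r, Nat.mul_comm r, pow_mul, pow_mul]
  exact h1

lemma BC.up (h : BC ((w.under (𝓞 K)).valuation K) f) :
    BC (w.valuation L) (f.map (algebraMap K L)) := by
  obtain ⟨r, hr, hv⟩ := val_under (K := K) L w
  constructor
  · have h1 := one_lt_pow₀ h.esc hr
    rw [leadingCoeff_map, coeff_map, natDegree_map, hv, hv]
    rw [mul_pow] at h1
    rw [← pow_mul, Nat.mul_comm r, pow_mul]
    exact h1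
  · intro i
    have h1 := pow_le_pow_left₀ zero_le (h.coef i) r
    rw [leadingCoeff_map, coeff_map, coeff_map, natDegree_map, hv, hv, hv]
    rw [mul_pow] at h1
    rw [← pow_mul, ← pow_mul, ← pow_mul, Nat.mul_comm r, Nat.mul_comm r, Nat.mul_comm r, pow_mul,
      pow_mul, pow_mul]
    exact h1

omit [NumberField K] [NumberField L] in
lemma map_iter (f : K[X]) (x : K) (n : ℕ) :
    (fun z => (f.map (algebraMap K L)).eval z)^[n] (algebraMap K L x) =
      algebraMap K L ((fun z => f.eval z)^[n] x) := by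
  induction n with
  | zero => rfl
  | succ n ih =>
    rw [Function.iterate_succ_apply', Function.iterate_succ_apply', ih, eval_map_algebraMap,
      aeval_algebraMap_apply_eq_algebraMap_eval]

omit [NumberField K] [NumberField L] in
lemma map_per {x : K} (h : Per (fun z => f.eval z) x) :
    Per (fun z => (f.map (algebraMap K L)).eval z) (algebraMap K L x) := by
  obtain ⟨n, hn, he⟩ := h
  exact ⟨n, hn, by rw [map_iter, he]⟩

omit [NumberField K] [NumberField L] in
lemma per_inj_root {x y : K} {ζ : L} {e : ℕ} {g : K[X]} (hf : f = g.comp (X ^ e)) (hζ : ζ ^ e = 1)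
    (px : Per (fun z => f.eval z) x) (py : Per (fun z => f.eval z) y) (hne : x ≠ y) :
    algebraMap K L x - ζ * algebraMap K L y ≠ 0 := by
  intro h
  apply hne
  apply per_inj (k := 1) px py
  simp only [Function.iterate_one]
  apply (algebraMap K L).injective
  have h1 : ∀ z : K, algebraMap K L (f.eval z) = (g.map (algebraMap K L)).eval
      ((algebraMap K L z) ^ e) := by
    intro z
    rw [hf, eval_comp, eval_pow, eval_X, ← map_pow, eval_map_algebraMap,
      aeval_algebraMap_apply_eq_algebraMap_eval]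
  rw [h1, h1, sub_eq_zero.mp h, mul_pow, hζ, one_mul]

/-- the local statement -/
theorem zeta_local {M e : ℕ} {g : K[X]} (hD : 2 ≤ f.natDegree) (he : 2 ≤ e)
    (hf : f = g.comp (X ^ e)) {ζ₀ : L} (hζ : IsPrimitiveRoot ζ₀ e)
    (h : PG ((w.under (𝓞 K)).valuation K) f ∨ BD ((w.under (𝓞 K)).valuation K) f M)
    {x y x' y' : K}
    (px : Per (fun z => f.eval z) x) (py : Per (fun z => f.eval z) y) (hne : x ≠ y)
    (px' : Per (fun z => f.eval z) x') (py' : Per (fun z => f.eval z) y') (hne' : x' ≠ y')
    {ζ ζ' : L} (h1 : ζ ^ e = 1) (h2 : ζ ≠ 1) (h1' : ζ' ^ e = 1) (h2' : ζ' ≠ 1) :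
    ∃ a, w.valuation L (algebraMap K L x - ζ * algebraMap K L y) =
      a ^ M * w.valuation L (algebraMap K L x' - ζ' * algebraMap K L y') := by
  have hDL : 2 ≤ (f.map (algebraMap K L)).natDegree := by rwa [natDegree_map]
  have hfL : f.map (algebraMap K L) = (g.map (algebraMap K L)).comp (X ^ e) := by
    rw [hf, Polynomial.map_comp]; simp
  have hinj : ∀ {x y : K}, x ≠ y → algebraMap K L x ≠ algebraMap K L y := fun h h' =>
    h ((algebraMap K L).injective h')
  obtain ⟨r, hr, hv⟩ := val_under (K := K) L w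
  rcases h with h | h
  · refine ⟨1, ?_⟩
    rw [one_pow, one_mul]
    have k1 := (PG.up h).zeta hDL he hfL hζ (map_per px) (map_per py) (hinj hne) h1 h2
    have k2 := (PG.up h).zeta hDL he hfL hζ (map_per px') (map_per py') (hinj hne') h1' h2'
    have hA := lead_ne (v := w.valuation L) hDL
    have k3 := mul_right_cancel₀ hA (k1.trans k2.symm)
    exact (pow_left_inj₀ zero_le zero_le (by omega)).mp k3
  · have key : ∀ {x y : K} {ζ : L}, Per (fun z => f.eval z) x → Per (fun z => f.eval z) y →
        x ≠ y → ζ ^ e = 1 → ∃ a, w.valuation L (algebraMap K L x - ζ * algebraMap K L y) =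
          a ^ M * w.valuation L (algebraMap K L x) := by
      intro x y ζ px py hne h1
      have hx := h.toBC.pre hD px.pre
      have hy := h.toBC.pre hD py.pre
      have hfx := h.toBC.pre hD px.step.pre
      have heq : ∀ {a b : K}, (w.under (𝓞 K)).valuation K f.leadingCoeff *
          (w.under (𝓞 K)).valuation K a ^ f.natDegree = (w.under (𝓞 K)).valuation K (f.coeff 0) →
          (w.under (𝓞 K)).valuation K f.leadingCoeff *
          (w.under (𝓞 K)).valuation K b ^ f.natDegree = (w.under (𝓞 K)).valuation K (f.coeff 0) →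
          (w.under (𝓞 K)).valuation K a = (w.under (𝓞 K)).valuation K b := by
        intro a b ha hb
        exact (pow_left_inj₀ zero_le zero_le (by omega)).mp
          (mul_left_cancel₀ (lead_ne (v := (w.under (𝓞 K)).valuation K) hD) (ha.trans hb.symm))
      have hs := h.simple x hx (by
        have h3 := heq hfx hx
        rw [h3]
        exact h.toBC.lt hD hx)
      obtain ⟨g', hg'⟩ := h.pow x hx
      have hfne : f.eval x ≠ f.eval y := by
        intro h'
        exact hne (per_inj (k := 1) px py h')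
      obtain ⟨g1, hg1⟩ := h.cls hD px.step.pre py.step.pre hfne
      have h4 := heq hfx hx
      rw [h4] at hg1
      refine BC.other (f := f.map (algebraMap K L)) (y := algebraMap K L y) (BC.up h.toBC) hDL
        (g := g1 ^ r) (g' := g' ^ r) ?_ ?_ ?_ ?_ ?_ ?_
      · rw [leadingCoeff_map, coeff_map, natDegree_map, hv, hv, hv, ← hx, mul_pow]
        rw [← pow_mul, ← pow_mul, Nat.mul_comm r]
      · rw [derivative_map, eval_map_algebraMap, aeval_algebraMap_apply_eq_algebraMap_eval,
          coeff_map, ← map_mul, hv, hv, hs]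
      · have hζ1 := root_v (w.valuation L) he h1
        rw [map_mul, hζ1, one_mul, hv, hv, heq hy hx]
      · rw [hfL, eval_comp, eval_comp, eval_pow, eval_pow, eval_X, eval_X, mul_pow, h1, one_mul]
      · rw [eval_map_algebraMap, eval_map_algebraMap, aeval_algebraMap_apply_eq_algebraMap_eval,
          aeval_algebraMap_apply_eq_algebraMap_eval, ← map_sub, hv, hv, hg1, mul_pow]
        rw [← pow_mul, ← pow_mul, Nat.mul_comm r]
      · rw [coeff_map, hv, hv, hg', mul_pow]
        rw [← pow_mul, ← pow_mul, Nat.mul_comm r]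
    obtain ⟨a, ha⟩ := key px py hne h1
    obtain ⟨a', ha'⟩ := key px' py' hne' h1'
    have hxx : w.valuation L (algebraMap K L x) = w.valuation L (algebraMap K L x') := by
      have hx := h.toBC.pre hD px.pre
      have hx' := h.toBC.pre hD px'.pre
      rw [hv, hv]
      congr 1
      exact (pow_left_inj₀ zero_le zero_le (by omega)).mp
        (mul_left_cancel₀ (lead_ne (v := (w.under (𝓞 K)).valuation K) hD) (hx.trans hx'.symm))
    have ha0 : a' ^ M ≠ 0 := by
      intro h0
      rw [h0, zero_mul, Valuation.zero_iff] at ha'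
      exact per_inj_root hf h1' px' py' hne' ha'
    refine ⟨a / a', ?_⟩
    rw [ha, ha', hxx, div_pow, ← mul_assoc, div_mul_cancel₀ _ ha0]

end

section

variable {K : Type} [Field K] [NumberField K]

/-- **polynomials in `z ^ e`, `e ≥ 3`** -/
theorem zeta_bound (K : Type) [Field K] [NumberField K] {S : Set (HeightOneSpectrum (𝓞 K))}
    (hS : S.Finite) {M e : ℕ} (hM : 4 ≤ M) (he : 3 ≤ e) :
    ∃ B : ℕ, ∀ f g : K[X], 2 ≤ f.natDegree → f = g.comp (X ^ e) →
      (∀ v ∉ S, PG (v.valuation K) f ∨ BD (v.valuation K) f M) →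
      ∀ T : Finset K, (∀ x ∈ T, Per (fun z => f.eval z) x) → T.card ≤ B := by
  classical
  have : NeZero e := ⟨by omega⟩
  have : NeZero ((e : ℕ) : K) := ⟨Nat.cast_ne_zero.mpr (by omega)⟩
  set L := CyclotomicField e K with hL
  have hω := IsCyclotomicExtension.zeta_spec e K L
  set ω := IsCyclotomicExtension.zeta e K L with hωdef
  have hω0 : ω ≠ 0 := hω.ne_zero (by omega)
  have hω1 : ω ≠ 1 := hω.ne_one (by omega)
  have hω2 : ω ^ 2 ≠ 1 := fun h => by
    have := hω.dvd_of_pow_eq_one 2 h
    have := Nat.le_of_dvd (by norm_num) this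
    omega
  have hSL := under_finite (K := K) L hS
  refine ⟨(TT_finite hSL hM).toFinset.card + 2, fun f g hD hf hloc T hT => ?_⟩
  by_cases hcard : T.card ≤ 2
  · omega
  rw [not_le] at hcard
  obtain ⟨x, hx, y, hy, hxy⟩ := Finset.one_lt_card.mp (by omega : 1 < T.card)
  have px := hT x hx
  have py := hT y hy
  set A := algebraMap K L with hA
  have hbase : A x - ω * A y ≠ 0 :=
    per_inj_root hf hω.pow_eq_one px py hxy
  have key : ((T.erase x).erase y).card ≤ (TT_finite hSL hM).toFinset.card := by
    refine Finset.card_le_card_of_injOn (fun z => -(ω * (A y - ω * A z)) / (A x - ω * A y)) ?_ ?_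
    · intro z hz
      rw [Finset.mem_coe, Finset.mem_erase, Finset.mem_erase] at hz
      obtain ⟨hzy, hzx, hzT⟩ := hz
      have pz := hT z hzT
      rw [Finset.mem_coe, Set.Finite.mem_toFinset]
      intro w hw
      have hw' : w.under (𝓞 K) ∉ S := hw
      have hvω := root_v (w.valuation L) (by omega : 2 ≤ e) hω.pow_eq_one
      have hvb : w.valuation L (A x - ω * A y) ≠ 0 := (Valuation.ne_zero_iff _).mpr hbase
      constructor
      · obtain ⟨a, ha⟩ := zeta_local hD (by omega) hf hω (hloc _ hw') py pz (Ne.symm hzy) px py hxy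
          hω.pow_eq_one hω1 hω.pow_eq_one hω1
        refine ⟨a, ?_⟩
        rw [map_div₀, Valuation.map_neg, map_mul, hvω, one_mul, ha, mul_div_cancel_right₀ _ hvb]
      · have h1 : (ω ^ (e - 2)) ^ e = 1 := by
          rw [← pow_mul, Nat.mul_comm, pow_mul, hω.pow_eq_one, one_pow]
        have h2 : ω ^ (e - 2) * ω ^ 2 = 1 := by
          rw [← pow_add, Nat.sub_add_cancel (by omega), hω.pow_eq_one]
        have h3 : ω ^ (e - 2) ≠ 1 := by
          intro h3
          rw [h3, one_mul] at h2
          exact hω2 h2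
        obtain ⟨a, ha⟩ := zeta_local hD (by omega) hf hω (hloc _ hw') pz px hzx px py hxy
          h1 h3 hω.pow_eq_one hω1
        refine ⟨a, ?_⟩
        have e1 : -(ω * (A y - ω * A z)) / (A x - ω * A y) - 1 =
            ω ^ 2 * (A z - ω ^ (e - 2) * A x) / (A x - ω * A y) := by
          rw [div_sub_one hbase]
          congr 1
          linear_combination A x * h2
        rw [e1, map_div₀, map_mul, map_pow, hvω, one_pow, one_mul, ha,
          mul_div_cancel_right₀ _ hvb]
    · intro z _ z' _ he'
      simp only at he'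
      rw [div_left_inj' hbase, neg_inj, mul_right_inj' hω0, sub_right_inj,
        mul_right_inj' hω0] at he'
      exact A.injective he'
  rw [Finset.card_erase_of_mem (Finset.mem_erase.mpr ⟨hxy.symm, hy⟩),
    Finset.card_erase_of_mem hx] at key
  omega

end

end Pool.Agent.H422.DC
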