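import Mathlib
import Pool.Agent.H422.DC.Ext

/-!
# Periodic points of polynomials with potentially good or dominated reduction: main theorems
-/

set_option autoImplicit false

open Polynomial IsDedekindDomain NumberField

namespace Pool.Agent.H422.DC

open Pool.Agent.H422.HE Pool.Agent.H422.UC Pool.Agent.H422.MF Pool.Agent.H422.MR

section

/-- points with `f^[N] x = x` -/
lemma card_iter_le {K : Type*} [Field K] {f : K[X]} (hD : 2 ≤ f.natDegree) {N : ℕ} (hN : 0 < N)
    (T : Finset K) (hT : ∀ x ∈ T, (fun z => f.eval z)^[N] x = x) :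
    T.card ≤ f.natDegree ^ N := by
  classical
  set F : K[X] := f.comp^[N] X - X with hF
  have h1 : (f.comp^[N] X).natDegree = f.natDegree ^ N := by
    rw [natDegree_iterate_comp, natDegree_X, mul_one]
  have h2 : 1 < f.natDegree ^ N := Nat.one_lt_pow hN.ne' (by omega)
  have h3 : F.natDegree = f.natDegree ^ N := by
    rw [hF, natDegree_sub_eq_left_of_natDegree_lt, h1]
    rw [h1, natDegree_X]; exact h2
  have h0 : F ≠ 0 := by
    intro h0
    rw [h0, natDegree_zero] at h3
    omega
  have h4 : T ⊆ F.roots.toFinset := by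
    intro x hx
    rw [Multiset.mem_toFinset, mem_roots h0, IsRoot.def, hF, eval_sub, iterate_comp_eval, eval_X,
      hT x hx, sub_self]
  calc T.card ≤ F.roots.toFinset.card := Finset.card_le_card h4
    _ ≤ F.roots.card := Multiset.toFinset_card_le _
    _ ≤ F.natDegree := card_roots' _
    _ = _ := h3

lemma per_of_pos {X : Type*} {φ : X → X} {x : X} (h : 0 < Function.minimalPeriod φ x) :
    Per φ x :=
  ⟨_, h, Function.iterate_minimalPeriod⟩

/-- **Main theorem**, general form. -/
theorem general (K : Type) [Field K] [NumberField K] {S : Set (HeightOneSpectrum (𝓞 K))}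
    (hS : S.Finite) {D M : ℕ} (hD : 2 ≤ D) (hM : 4 ≤ M) :
    ∃ B : ℕ, ∀ f : K[X], f.natDegree = D →
      ((∀ v ∉ S, ∃ c, PG (v.valuation K) (tr f c) ∨ BD (v.valuation K) (tr f c) M) →
        (∀ x, Per (fun z => f.eval z) x → ∀ m, Odd m →
          m ∣ Function.minimalPeriod (fun z => f.eval z) x → m ≤ B) ∧
        (∀ T : Finset K, (∀ x ∈ T, Odd (Function.minimalPeriod (fun z => f.eval z) x)) →
          T.card ≤ B) ∧
        (Even M → 6 ≤ M → ∀ T : Finset K, (∀ x ∈ T, Per (fun z => f.eval z) x) → T.card ≤ B)) ∧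
      ((∀ v ∉ S, PG (v.valuation K) f ∨ BD (v.valuation K) f M) →
        ∀ e, 3 ≤ e → (∃ g : K[X], f = g.comp (X ^ e)) →
          ∀ T : Finset K, (∀ x ∈ T, Per (fun z => f.eval z) x) → T.card ≤ B) := by
  classical
  obtain ⟨B1, hB1⟩ := odd_dvd (K := K) (M := M) hS hM
  have h2 : ∃ B2 : ℕ, ∀ f : K[X], f.natDegree = D →
      (∀ v ∉ S, LP (v.valuation K) (fun z => f.eval z) M) → Even M → 6 ≤ M →
      ∀ T : Finset K, (∀ x ∈ T, Per (fun z => f.eval z) x) → T.card ≤ B2 := by
    by_cases hcase : Even M ∧ 6 ≤ M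
    · obtain ⟨N, hN0, hN⟩ := per_dvd (K := K) (M := M) hS (by omega) hcase.1
      refine ⟨D ^ N, fun f hf h _ _ T hT => ?_⟩
      rw [← hf]
      exact card_iter_le (by omega) hN0 T fun x hx => hN _ h x (hT x hx)
    · exact ⟨0, fun f _ _ h1 h2 => absurd ⟨h1, h2⟩ hcase⟩
  obtain ⟨B2, hB2⟩ := h2
  have h3 : ∀ e : ℕ, ∃ B3 : ℕ, 3 ≤ e → ∀ f g : K[X], 2 ≤ f.natDegree → f = g.comp (X ^ e) →
      (∀ v ∉ S, PG (v.valuation K) f ∨ BD (v.valuation K) f M) →
      ∀ T : Finset K, (∀ x ∈ T, Per (fun z => f.eval z) x) → T.card ≤ B3 := by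
    intro e
    by_cases he : 3 ≤ e
    · obtain ⟨B3, hB3⟩ := zeta_bound K hS hM he
      exact ⟨B3, fun _ => hB3⟩
    · exact ⟨0, fun h => absurd h he⟩
  choose B3 hB3 using h3
  refine ⟨B1 + D ^ B1.factorial + B2 + ∑ e ∈ Finset.range (D + 1), B3 e, fun f hf => ⟨?_, ?_⟩⟩
  · intro hloc
    have hLP : ∀ v ∉ S, LP (v.valuation K) (fun z => f.eval z) M := by
      intro v hv
      obtain ⟨c, hc⟩ := hloc v hv
      exact LP_of (by omega) hc
    refine ⟨?_, ?_, ?_⟩
    · intro x px m hm hd
      have := hB1 _ hLP x px m hm hd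
      omega
    · intro T hT
      have h4 : T.card ≤ D ^ B1.factorial := by
        rw [← hf]
        apply card_iter_le (by omega) (Nat.factorial_pos _) T
        intro x hx
        have hodd := hT x hx
        have hpos : 0 < Function.minimalPeriod (fun z => f.eval z) x := hodd.pos
        rw [iter_eq_self_iff]
        exact Nat.dvd_factorial hpos (hB1 _ hLP x (per_of_pos hpos) _ hodd dvd_rfl)
      omega
    · intro hM2 hM6 T hT
      have := hB2 f hf hLP hM2 hM6 T hT
      omega
  · intro hloc e he hg T hT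
    obtain ⟨g, hg⟩ := hg
    have heD : e ≤ D := by
      have h5 : f.natDegree = g.natDegree * e := by
        rw [hg, natDegree_comp, natDegree_X_pow]
      have h6 : 0 < g.natDegree := by
        rcases Nat.eq_zero_or_pos g.natDegree with h0 | h0
        · rw [h0, Nat.zero_mul] at h5; omega
        · exact h0
      rw [← hf, h5]
      exact Nat.le_mul_of_pos_left _ h6
    have h7 := hB3 e he f g (by omega) hg hloc T hT
    have h8 : B3 e ≤ ∑ e ∈ Finset.range (D + 1), B3 e :=
      Finset.single_le_sum (f := B3) (fun _ _ => Nat.zero_le _)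
        (Finset.mem_range.mpr (by omega))
    omega

end

section special

variable {K : Type*} [Field K] {Γ : Type*} [LinearOrderedCommGroupWithZero Γ] {v : Valuation K Γ}

lemma PG_of_int {f : K[X]} (hm : f.Monic) (h : ∀ i, v (f.coeff i) ≤ 1) : PG v f := by
  intro i
  rw [hm.leadingCoeff, map_one, mul_one, one_pow]
  exact pow_le_one' (h i) _

/-- a dominating constant term -/
lemma BD_of_dom {f : K[X]} (hD : 2 ≤ f.natDegree) (hm : f.Monic) (htame : v (f.natDegree : K) = 1)
    (h0 : 1 < v (f.coeff 0))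
    (h : ∀ i, 0 < i → i < f.natDegree →
      v (f.coeff i) ^ f.natDegree < v (f.coeff 0) ^ (f.natDegree - i)) :
    BD v f (f.natDegree - 1) := by
  have hc0 : v (f.coeff 0) ≠ 0 := ne_of_gt (lt_trans zero_lt_one h0)
  have hlc : v f.leadingCoeff = 1 := by rw [hm.leadingCoeff, map_one]
  constructor
  · constructor
    · rw [hlc, one_mul]
      exact one_lt_pow₀ h0 (by omega)
    · intro i
      rw [hlc, one_pow, mul_one]
      rcases Nat.eq_zero_or_pos i with rfl | hi
      · rw [Nat.sub_zero]
      · rcases lt_trichotomy i f.natDegree with h1 | h1 | h1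
        · exact (h i hi h1).le
        · rw [h1, Nat.sub_self, pow_zero, hm.coeff_natDegree, map_one, one_pow]
        · rw [coeff_eq_zero_of_natDegree_lt h1, map_zero, zero_pow (by omega)]
          exact zero_le
  · intro x hx _
    rw [hlc, one_mul] at hx
    have hx0 : v x ≠ 0 := by
      intro h1
      rw [h1, zero_pow (by omega)] at hx
      exact hc0 hx.symm
    have h1 : x * f.derivative.eval x = ∑ i ∈ Finset.range (f.natDegree + 1),
        (i : K) * (f.coeff i * x ^ i) := by
      rw [derivative_eval, sum_over_range _ (by intro n; simp), Finset.mul_sum]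
      refine Finset.sum_congr rfl fun i _ => ?_
      rcases i with _ | i
      · simp
      · rw [Nat.add_sub_cancel, pow_succ]; ring
    have h2 : v ((f.natDegree : K) * (f.coeff f.natDegree * x ^ f.natDegree)) =
        v (f.coeff 0) := by
      rw [hm.coeff_natDegree, one_mul, map_mul, map_pow, htame, one_mul, hx]
    rw [h1, Finset.sum_range_succ, add_comm, Valuation.map_add_eq_of_lt_left, h2]
    rw [h2]
    apply Valuation.map_sum_lt _ hc0
    intro i hi
    rw [Finset.mem_range] at hi
    rcases Nat.eq_zero_or_pos i with rfl | hi0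
    · simp only [Nat.cast_zero, zero_mul, map_zero]
      exact zero_lt_iff.mpr hc0
    · rw [map_mul]
      refine lt_of_le_of_lt (mul_le_mul' (v_natCast_le v i) le_rfl) ?_
      rw [one_mul, map_mul, map_pow]
      apply lt_of_pow_lt_pow_left₀ f.natDegree zero_le
      calc (v (f.coeff i) * v x ^ i) ^ f.natDegree
          = v (f.coeff i) ^ f.natDegree * v (f.coeff 0) ^ i := by
            rw [mul_pow, ← pow_mul, Nat.mul_comm i, pow_mul, hx]
        _ < v (f.coeff 0) ^ (f.natDegree - i) * v (f.coeff 0) ^ i :=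
            (mul_lt_mul_iff_left₀ (zero_lt_iff.mpr (pow_ne_zero _ hc0))).mpr (h i hi0 hi)
        _ = v (f.coeff 0) ^ f.natDegree := by rw [← pow_add]; congr 1; omega
  · intro x hx
    rw [hlc, one_mul] at hx
    exact ⟨v x, by rw [← hx, ← pow_succ']; congr 1; omega⟩

/-- integral apart from the constant term -/
lemma PG_or_BD {f : K[X]} (hD : 2 ≤ f.natDegree) (hm : f.Monic) (htame : v (f.natDegree : K) = 1)
    (h : ∀ i, 0 < i → v (f.coeff i) ≤ 1) : PG v f ∨ BD v f (f.natDegree - 1) := by
  rcases le_or_gt (v (f.coeff 0)) 1 with h0 | h0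
  · left
    apply PG_of_int hm
    intro i
    rcases Nat.eq_zero_or_pos i with rfl | hi
    · exact h0
    · exact h i hi
  · right
    apply BD_of_dom hD hm htame h0
    intro i hi hiD
    exact lt_of_le_of_lt (pow_le_one' (h i hi) _) (one_lt_pow₀ h0 (by omega))

lemma tr_zero (f : K[X]) : tr f 0 = f := by simp [tr]

end special

/-- **Main theorem**, special case: monic polynomials which are integral outside `S` apart from the
constant term. -/
theorem special (K : Type) [Field K] [NumberField K] {S : Set (HeightOneSpectrum (𝓞 K))}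
    (hS : S.Finite) {D : ℕ} (hD : 5 ≤ D) :
    ∃ B : ℕ, ∀ f : K[X], f.Monic → f.natDegree = D →
      (∀ v ∉ S, ∀ i, 0 < i → v.valuation K (f.coeff i) ≤ 1) →
      (∀ x, Per (fun z => f.eval z) x → ∀ m, Odd m →
        m ∣ Function.minimalPeriod (fun z => f.eval z) x → m ≤ B) ∧
      (∀ T : Finset K, (∀ x ∈ T, Odd (Function.minimalPeriod (fun z => f.eval z) x)) →
        T.card ≤ B) ∧
      ((Odd D ∧ 7 ≤ D) ∨ (∃ (e : ℕ) (g : K[X]), 3 ≤ e ∧ f = g.comp (X ^ e)) →
        ∀ T : Finset K, (∀ x ∈ T, Per (fun z => f.eval z) x) → T.card ≤ B) := by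
  have hD0 : (D : K) ≠ 0 := Nat.cast_ne_zero.mpr (by omega)
  obtain ⟨B, hB⟩ := general K (hS.union (finite_unit (D : K) hD0)) (D := D) (M := D - 1)
    (by omega) (by omega)
  refine ⟨B, fun f hm hf hloc => ?_⟩
  obtain ⟨h1, h2⟩ := hB f hf
  have hloc' : ∀ v ∉ S ∪ {v : HeightOneSpectrum (𝓞 K) | v.valuation K (D : K) ≠ 1},
      PG (v.valuation K) f ∨ BD (v.valuation K) f (D - 1) := by
    intro v hv
    simp only [Set.mem_union, Set.mem_ofPred_eq, not_or, not_not] at hv
    have := PG_or_BD (v := v.valuation K) (f := f) (by omega) hm (by rw [hf]; exact hv.2)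
      (hloc v hv.1)
    rwa [hf] at this
  obtain ⟨k1, k2, k3⟩ := h1 fun v hv => ⟨0, by rw [tr_zero]; exact hloc' v hv⟩
  refine ⟨k1, k2, ?_⟩
  rintro (⟨hodd, h7⟩ | ⟨e, g, he, hg⟩)
  · exact k3 (Nat.Odd.sub_odd hodd odd_one) (by omega)
  · exact h2 hloc' e he ⟨g, hg⟩

end Pool.Agent.H422.DC
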