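import Mathlib
import Pool.Agent.H422.MF.Poly
import Pool.Agent.H422.MR.Pt
import Pool.Agent.H422.UC.Global
import Pool.Agent.H422.DC.Cyc

/-!
# Polynomials with simple reduction on a disk: one place
-/

set_option autoImplicit false

open Polynomial

namespace Pool.Agent.H422.DC

open Pool.Agent.H422.HE Pool.Agent.H422.UC Pool.Agent.H422.MF Pool.Agent.H422.MR

section

variable {K : Type*} [Field K] {Γ : Type*} [LinearOrderedCommGroupWithZero Γ] (v : Valuation K Γ)

/-- the disk of radius `ρ` around `0` is mapped over itself, all inverse images of it are in it -/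
structure SR (f : K[X]) (ρ : Γ) : Prop where
  one : 1 ≤ v f.leadingCoeff * ρ ^ (f.natDegree - 1)
  coef : ∀ i, v (f.coeff i) ≤ v f.leadingCoeff * ρ ^ (f.natDegree - i)

variable {v} {f g : K[X]} {ρ : Γ}

lemma SR.rho (h : SR v f ρ) (hD : 2 ≤ f.natDegree) : ρ ≠ 0 := by
  rintro rfl
  have := h.one
  rw [zero_pow (by omega), mul_zero] at this
  exact not_lt.mpr this zero_lt_one

lemma SR.lead (h : SR v f ρ) : v f.leadingCoeff ≠ 0 := by
  intro h0
  have := h.one
  rw [h0, zero_mul] at this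
  exact not_lt.mpr this zero_lt_one

lemma SR.big (h : SR v f ρ) (hD : 2 ≤ f.natDegree) {x : K} (hx : ρ < v x) :
    v (f.eval x) = v f.leadingCoeff * v x ^ f.natDegree := by
  have hx0 : x ≠ 0 := by
    rintro rfl
    rw [map_zero] at hx
    exact not_lt_zero hx
  have hA := h.lead
  apply eval_top hD hx0
  intro i hi
  have hX0 : v x ≠ 0 := (Valuation.ne_zero_iff _).mpr hx0
  calc v (f.coeff i) * v x ^ i ≤ v f.leadingCoeff * ρ ^ (f.natDegree - i) * v x ^ i :=
        mul_le_mul' (h.coef i) le_rfl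
    _ = v f.leadingCoeff * (ρ ^ (f.natDegree - i) * v x ^ i) := mul_assoc _ _ _
    _ < v f.leadingCoeff * (v x ^ (f.natDegree - i) * v x ^ i) := by
        refine (mul_lt_mul_iff_right₀ (zero_lt_iff.mpr hA)).mpr ?_
        refine (mul_lt_mul_iff_left₀ (zero_lt_iff.mpr (pow_ne_zero _ hX0))).mpr ?_
        exact pow_lt_pow_left₀ hx zero_le (by omega)
    _ = _ := by rw [← pow_add, Nat.sub_add_cancel hi.le]

/-- preperiodic points are in the disk -/
lemma SR.pre (h : SR v f ρ) (hD : 2 ≤ f.natDegree) {x : K} (px : Pre (fun z => f.eval z) x) :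
    v x ≤ ρ := by
  by_contra hcon
  rw [not_le] at hcon
  have hρ := h.rho hD
  have hA := h.lead
  have key : ∀ x : K, ρ < v x → v x < v (f.eval x) := by
    intro x hx
    have hX0 : v x ≠ 0 := ne_of_gt (lt_of_le_of_lt zero_le hx)
    have hpow : v x ^ f.natDegree = v x ^ (f.natDegree - 1) * v x := by
      rw [← pow_succ]; congr 1; omega
    rw [h.big hD hx, hpow, ← mul_assoc]
    have h1 : 1 < v f.leadingCoeff * v x ^ (f.natDegree - 1) := by
      refine lt_of_le_of_lt h.one ?_
      exact (mul_lt_mul_iff_right₀ (zero_lt_iff.mpr hA)).mpr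
        (pow_lt_pow_left₀ hx zero_le (by omega))
    calc v x = 1 * v x := (one_mul _).symm
      _ < _ := (mul_lt_mul_iff_left₀ (zero_lt_iff.mpr hX0)).mpr h1
  exact not_pre_of_lt' (F := fun z => f.eval z) (C := fun x => ρ < v x) (μ := fun x => v x)
    (fun x hx => hx.trans (key x hx)) (fun x hx => key x hx) hcon px

/-- Lipschitz constant -/
lemma SR.lip (h : SR v f ρ) (hD : 2 ≤ f.natDegree) {x y : K} (hx : v x ≤ ρ) (hy : v y ≤ ρ) :
    v (f.eval x - f.eval y) ≤ v f.leadingCoeff * ρ ^ (f.natDegree - 1) * v (x - y) := by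
  rw [eval_eq_sum_range, eval_eq_sum_range, ← Finset.sum_sub_distrib]
  apply Valuation.map_sum_le
  intro i hi
  rw [Finset.mem_range] at hi
  rw [← mul_sub, map_mul]
  rcases i with _ | i
  · simp
  · calc v (f.coeff (i + 1)) * v (x ^ (i + 1) - y ^ (i + 1)) ≤
        (v f.leadingCoeff * ρ ^ (f.natDegree - (i + 1))) * (ρ ^ i * v (x - y)) :=
          mul_le_mul' (h.coef _) (pow_sub_le_pow hx hy i)
      _ = v f.leadingCoeff * (ρ ^ (f.natDegree - (i + 1)) * ρ ^ i) * v (x - y) := by
          rw [mul_assoc, mul_assoc, mul_assoc]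
      _ = _ := by
          rw [← pow_add]
          congr 3
          omega

theorem SR.iso (h : SR v f ρ) (hD : 2 ≤ f.natDegree)
    (h1 : v f.leadingCoeff * ρ ^ (f.natDegree - 1) = 1) {x y : K}
    (px : Per (fun z => f.eval z) x) (py : Per (fun z => f.eval z) y) :
    v (f.eval x - f.eval y) = v (x - y) := by
  have hle : ∀ {x y : K}, Pre (fun z => f.eval z) x → Pre (fun z => f.eval z) y →
      v (f.eval x - f.eval y) ≤ v (x - y) := by
    intro x y px py
    refine (h.lip hD (h.pre hD px) (h.pre hD py)).trans ?_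
    rw [h1, one_mul]
  refine le_antisymm (hle px.pre py.pre) ?_
  exact per_step (F := fun z => f.eval z) (δ := fun x y => v (x - y))
    (C := fun x => Pre (fun z => f.eval z) x) (fun x hx => hx.step)
    (fun x y hx hy => hle hx hy) px.pre py.pre px py

lemma pow_taylor' {x y : K} {R : Γ} (hx : v x ≤ R) (hy : v y ≤ R) (n : ℕ) :
    v (x ^ (n + 2) - y ^ (n + 2) - (x - y) * (((n + 2 : ℕ) : K) * y ^ (n + 1))) ≤
      R ^ n * v (x - y) ^ 2 := by
  induction n with
  | zero =>
    have : x ^ (0 + 2) - y ^ (0 + 2) - (x - y) * (((0 + 2 : ℕ) : K) * y ^ (0 + 1)) =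
        (x - y) ^ 2 := by push_cast; ring
    rw [this, pow_zero, one_mul, map_pow]
  | succ n ih =>
    have hid : x ^ (n + 1 + 2) - y ^ (n + 1 + 2) -
        (x - y) * (((n + 1 + 2 : ℕ) : K) * y ^ (n + 1 + 1)) =
        x * (x ^ (n + 2) - y ^ (n + 2) - (x - y) * (((n + 2 : ℕ) : K) * y ^ (n + 1))) +
          ((n + 2 : ℕ) : K) * y ^ (n + 1) * (x - y) ^ 2 := by
      push_cast
      ring
    rw [hid]
    refine (v.map_add _ _).trans (max_le ?_ ?_)
    · rw [map_mul]
      calc v x * _ ≤ R * (R ^ n * v (x - y) ^ 2) := mul_le_mul' hx ih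
        _ = _ := by rw [← mul_assoc, ← pow_succ']
    · rw [map_mul, map_mul, map_pow, map_pow]
      calc v ((n + 2 : ℕ) : K) * v y ^ (n + 1) * v (x - y) ^ 2
          ≤ 1 * R ^ (n + 1) * v (x - y) ^ 2 :=
            mul_le_mul' (mul_le_mul' (v_natCast_le v _) (pow_le_pow_left₀ zero_le hy _)) le_rfl
        _ = _ := by rw [one_mul]

/-- one step -/
theorem SR.step (h : SR v f ρ) (hD : 2 ≤ f.natDegree) {x y : K} (hx : v x ≤ ρ) (hy : v y ≤ ρ)
    (hs : v (f.derivative.eval y) = v f.leadingCoeff * ρ ^ (f.natDegree - 1))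
    (hxy : v (x - y) < ρ) :
    v (f.eval x - f.eval y) = v f.leadingCoeff * ρ ^ (f.natDegree - 1) * v (x - y) := by
  rcases eq_or_ne x y with rfl | hne
  · simp
  have hδ : v (x - y) ≠ 0 := (Valuation.ne_zero_iff _).mpr (sub_ne_zero.mpr hne)
  have hρ := h.rho hD
  have hA := h.lead
  have h1 : (derivative f).eval y = ∑ i ∈ Finset.range (f.natDegree + 1),
      f.coeff i * (i * y ^ (i - 1)) := by
    rw [derivative_eval, sum_over_range _ (by intro n; simp)]
    refine Finset.sum_congr rfl fun i _ => by ring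
  have h2 : v (f.eval x - f.eval y - (x - y) * (derivative f).eval y) ≤
      v f.leadingCoeff * ρ ^ (f.natDegree - 2) * v (x - y) ^ 2 := by
    rw [h1, eval_eq_sum_range, eval_eq_sum_range, Finset.mul_sum, ← Finset.sum_sub_distrib,
      ← Finset.sum_sub_distrib]
    apply Valuation.map_sum_le
    intro i hi
    rw [Finset.mem_range] at hi
    have h3 : f.coeff i * x ^ i - f.coeff i * y ^ i - (x - y) * (f.coeff i * (i * y ^ (i - 1))) =
        f.coeff i * (x ^ i - y ^ i - (x - y) * (i * y ^ (i - 1))) := by ring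
    rw [h3, map_mul]
    match i, hi with
    | 0, _ => simp
    | 1, _ => simp
    | i + 2, hi =>
      calc v (f.coeff (i + 2)) * v (x ^ (i + 2) - y ^ (i + 2) -
            (x - y) * (((i + 2 : ℕ) : K) * y ^ (i + 2 - 1)))
          ≤ (v f.leadingCoeff * ρ ^ (f.natDegree - (i + 2))) * (ρ ^ i * v (x - y) ^ 2) :=
            mul_le_mul' (h.coef _) (pow_taylor' hx hy i)
        _ = v f.leadingCoeff * (ρ ^ (f.natDegree - (i + 2)) * ρ ^ i) * v (x - y) ^ 2 := by
            rw [mul_assoc, mul_assoc, mul_assoc]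
        _ = _ := by
            rw [← pow_add]
            congr 3
            omega
  have h3 : v ((x - y) * (derivative f).eval y) =
      v f.leadingCoeff * ρ ^ (f.natDegree - 1) * v (x - y) := by rw [map_mul, hs, mul_comm]
  have h4 : f.eval x - f.eval y = (x - y) * (derivative f).eval y +
    (f.eval x - f.eval y - (x - y) * (derivative f).eval y) := by ring
  rw [h4, Valuation.map_add_eq_of_lt_left, h3]
  rw [h3]
  refine lt_of_le_of_lt h2 ?_
  have h5 : ρ ^ (f.natDegree - 1) = ρ ^ (f.natDegree - 2) * ρ := by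
    rw [← pow_succ]; congr 1; omega
  rw [sq, h5, ← mul_assoc, ← mul_assoc]
  refine (mul_lt_mul_iff_left₀ (zero_lt_iff.mpr hδ)).mpr ?_
  exact (mul_lt_mul_iff_right₀ (zero_lt_iff.mpr (mul_ne_zero hA (pow_ne_zero _ hρ)))).mpr hxy

/-- Expanding dynamics on a disk: distances of all distinct points. -/
lemma ball {F : K → K} {C : K → Prop} (hC : ∀ x, C x → C (F x)) {ρ E : Γ}
    (hρ : ∀ x, C x → v x ≤ ρ) (hE1 : 1 < E)
    (hstep : ∀ x y, C x → C y → v (x - y) < ρ → v (F x - F y) = E * v (x - y)) {x y : K}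
    (hx : C x) (hy : C y) (px : Pre F x) (py : Pre F y) (hne : x ≠ y) :
    ∃ j : ℕ, v (x - y) * E ^ j = ρ := by
  have hCn : ∀ (n : ℕ) {x : K}, C x → C (F^[n] x) := by
    intro n
    induction n with
    | zero => intro x hx; exact hx
    | succ n ih => intro x hx; rw [Function.iterate_succ_apply']; exact hC _ (ih hx)
  have hle : ∀ {x y : K}, C x → C y → v (x - y) ≤ ρ := by
    intro x y hx hy
    exact (v.map_sub _ _).trans (max_le (hρ x hx) (hρ y hy))
  by_contra hcon
  push Not at hcon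
  have hpow : ∀ n, v (F^[n] x - F^[n] y) = v (x - y) * E ^ n := by
    intro n
    induction n with
    | zero => simp
    | succ n ih =>
      have h1 : v (F^[n] x - F^[n] y) < ρ :=
        lt_of_le_of_ne (hle (hCn n hx) (hCn n hy)) (by rw [ih]; exact hcon n)
      rw [Function.iterate_succ_apply', Function.iterate_succ_apply',
        hstep _ _ (hCn n hx) (hCn n hy) h1, ih, pow_succ]
      rw [mul_comm E, mul_assoc]
  obtain ⟨k, p, hp, e1, e2⟩ := common_pre px py
  have h1 := hpow (k + p)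
  rw [e1, e2, hpow k, pow_add] at h1
  have hxy : v (x - y) * E ^ k ≠ 0 := mul_ne_zero
    ((Valuation.ne_zero_iff _).mpr (sub_ne_zero.mpr hne))
    (pow_ne_zero _ (ne_of_gt (lt_trans zero_lt_one hE1)))
  rw [← mul_assoc] at h1
  have h2 : E ^ p = 1 := by
    have h3 : v (x - y) * E ^ k * E ^ p = v (x - y) * E ^ k * 1 := by rw [mul_one]; exact h1.symm
    exact mul_left_cancel₀ hxy h3
  exact absurd h2 (one_lt_pow₀ hE1 (by omega)).ne'

variable (v) in
/-- only simple zeros in the reduction -/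
def Simple (f : K[X]) (ρ : Γ) : Prop :=
  v f.leadingCoeff * ρ ^ (f.natDegree - 1) = 1 ∨
  ∀ x : K, v x ≤ ρ → v (f.eval x) ≤ ρ →
    v (f.derivative.eval x) = v f.leadingCoeff * ρ ^ (f.natDegree - 1)

/-- distances of distinct preperiodic points -/
theorem SR.dist (h : SR v f ρ) (hD : 2 ≤ f.natDegree)
    (h1 : 1 < v f.leadingCoeff * ρ ^ (f.natDegree - 1)) (hs : Simple v f ρ) {x y : K}
    (px : Pre (fun z => f.eval z) x) (py : Pre (fun z => f.eval z) y) (hne : x ≠ y) :
    ∃ j : ℕ, v (x - y) * (v f.leadingCoeff * ρ ^ (f.natDegree - 1)) ^ j = ρ := by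
  refine ball (F := fun z => f.eval z) (C := fun z => Pre (fun z => f.eval z) z)
    (fun z hz => hz.step) (fun z hz => h.pre hD hz) h1 ?_ px py px py hne
  intro z w pz pw hzw
  rcases hs with hs | hs
  · exact absurd hs h1.ne'
  · exact h.step hD (h.pre hD pz) (h.pre hD pw) (hs w (h.pre hD pw) (h.pre hD pw.step)) hzw

/-! ### polynomials in `z ^ e` -/

lemma comp_coeff' {f g : K[X]} {e : ℕ} (he : 0 < e) (hf : f = g.comp (X ^ e)) (j : ℕ) :
    g.coeff j = f.coeff (e * j) := by
  have h1 : f = expand K e g := by rw [hf, expand_eq_comp_X_pow]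
  rw [h1, Nat.mul_comm, coeff_expand_mul he]

lemma comp_diff' {f g : K[X]} {e : ℕ} (hf : f = g.comp (X ^ e)) (x y : K) :
    f.eval x - f.eval y = g.eval (x ^ e) - g.eval (y ^ e) := by
  simp [hf, eval_comp]

/-- potentially good reduction: `x - ζ y` -/
theorem SR.zeta {e : ℕ} (h : SR v f ρ) (hD : 2 ≤ f.natDegree)
    (h1 : v f.leadingCoeff * ρ ^ (f.natDegree - 1) = 1) (he : 2 ≤ e) (hf : f = g.comp (X ^ e))
    {ζ₀ : K} (hζ : IsPrimitiveRoot ζ₀ e) {x y : K} (px : Per (fun z => f.eval z) x)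
    (py : Per (fun z => f.eval z) y) (hne : x ≠ y) {ζ : K} (h3 : ζ ^ e = 1) (h4 : ζ ≠ 1) :
    v (x - ζ * y) = ρ := by
  classical
  have hρ := h.rho hD
  have hx := h.pre hD px.pre
  have hy := h.pre hD py.pre
  have heD : e ≤ f.natDegree := by
    have h5 : f.natDegree = g.natDegree * e := by rw [hf, natDegree_comp, natDegree_X_pow]
    have h6 : 0 < g.natDegree := by
      rcases Nat.eq_zero_or_pos g.natDegree with h0 | h0
      · rw [h0, Nat.zero_mul] at h5; omega
      · exact h0
    rw [h5]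
    exact Nat.le_mul_of_pos_left _ h6
  -- the bound by the product
  have hle : v (f.eval x - f.eval y) ≤
      v f.leadingCoeff * ρ ^ (f.natDegree - e) * v (x ^ e - y ^ e) := by
    conv_lhs => rw [comp_diff' hf]
    rw [eval_eq_sum_range, eval_eq_sum_range, ← Finset.sum_sub_distrib]
    apply Valuation.map_sum_le
    intro j hj
    rw [Finset.mem_range] at hj
    rw [← mul_sub, map_mul]
    rcases j with _ | j
    · simp
    · have hjD : e * (j + 1) ≤ f.natDegree := by
        have h5 : f.natDegree = g.natDegree * e := by rw [hf, natDegree_comp, natDegree_X_pow]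
        rw [h5, Nat.mul_comm]
        exact Nat.mul_le_mul_right _ (by omega)
      have h6 : v ((x ^ e) ^ (j + 1) - (y ^ e) ^ (j + 1)) ≤ (ρ ^ e) ^ j * v (x ^ e - y ^ e) :=
        pow_sub_le_pow (by rw [map_pow]; exact pow_le_pow_left₀ zero_le hx e)
          (by rw [map_pow]; exact pow_le_pow_left₀ zero_le hy e) j
      have h7 := h.coef (e * (j + 1))
      rw [← comp_coeff' (by omega : 0 < e) hf] at h7
      calc v (g.coeff (j + 1)) * v ((x ^ e) ^ (j + 1) - (y ^ e) ^ (j + 1))
          ≤ (v f.leadingCoeff * ρ ^ (f.natDegree - e * (j + 1))) *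
              ((ρ ^ e) ^ j * v (x ^ e - y ^ e)) := mul_le_mul' h7 h6
        _ = v f.leadingCoeff * (ρ ^ (f.natDegree - e * (j + 1)) * (ρ ^ e) ^ j) *
              v (x ^ e - y ^ e) := by rw [mul_assoc, mul_assoc, mul_assoc]
        _ = _ := by
            rw [← pow_mul, ← pow_add]
            congr 3
            rw [Nat.mul_succ] at hjD ⊢
            omega
  rw [h.iso hD h1 px py, prod_eq v hζ he,
    ← Finset.mul_prod_erase _ (fun ζ => v (x - ζ * y)) ((mem_roots' he).mpr (one_pow e)),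
    one_mul] at hle
  have hxy : v (x - y) ≠ 0 := (Valuation.ne_zero_iff _).mpr (sub_ne_zero.mpr hne)
  have hcard : ((nthRootsFinset e (1 : K)).erase 1).card = e - 1 := by
    rw [Finset.card_erase_of_mem ((mem_roots' he).mpr (one_pow e)), hζ.card_nthRootsFinset]
  have hfac : ∀ ζ ∈ (nthRootsFinset e (1 : K)).erase 1, v (x - ζ * y) / ρ ≤ 1 := by
    intro ζ hζ'
    have hr := root_v v he ((mem_roots' he).mp (Finset.mem_of_mem_erase hζ'))
    rw [div_le_one₀ (zero_lt_iff.mpr hρ)]
    refine (v.map_sub _ _).trans ?_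
    rw [map_mul, hr, one_mul]
    exact max_le hx hy
  have hone : ∏ ζ ∈ (nthRootsFinset e (1 : K)).erase 1, v (x - ζ * y) / ρ = 1 := by
    refine le_antisymm (Finset.prod_le_one' hfac) ?_
    rw [Finset.prod_div_distrib, Finset.prod_const, hcard,
      le_div_iff₀ (zero_lt_iff.mpr (pow_ne_zero _ hρ)), one_mul]
    set Pz := ∏ ζ ∈ (nthRootsFinset e (1 : K)).erase 1, v (x - ζ * y)
    have h8 : v (x - y) * 1 ≤ v (x - y) *
        (v f.leadingCoeff * ρ ^ (f.natDegree - e) * Pz) := by
      rw [mul_one]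
      refine hle.trans (le_of_eq ?_)
      rw [mul_left_comm]
    have h9 : (1 : Γ) ≤ v f.leadingCoeff * ρ ^ (f.natDegree - e) * Pz :=
      (mul_le_mul_iff_right₀ (zero_lt_iff.mpr hxy)).mp h8
    have h10 : v f.leadingCoeff * ρ ^ (f.natDegree - e) * ρ ^ (e - 1) = 1 := by
      rw [mul_assoc, ← pow_add, show f.natDegree - e + (e - 1) = f.natDegree - 1 by omega, h1]
    have h11 : v f.leadingCoeff * ρ ^ (f.natDegree - e) ≠ 0 :=
      mul_ne_zero h.lead (pow_ne_zero _ hρ)
    rw [← h10] at h9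
    exact (mul_le_mul_iff_right₀ (zero_lt_iff.mpr h11)).mp h9
  have := all_eq_one _ _ hfac hone ζ (Finset.mem_erase.mpr ⟨h4, (mem_roots' he).mpr h3⟩)
  rwa [div_eq_one_iff_eq hρ] at this

end

end Pool.Agent.H422.DC
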