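import Mathlib
import Pool.Agent.H422.DC.Rad
import Pool.Agent.H422.DC.Ext

/-!
# Simple reduction with respect to real absolute values
-/

set_option autoImplicit false

open Polynomial IsDedekindDomain NumberField

namespace Pool.Agent.H422.DC

open Pool.Agent.H422.HE Pool.Agent.H422.UC Pool.Agent.H422.MF Pool.Agent.H422.MR

section

variable {K : Type*} [Field K] {Γ : Type*} [LinearOrderedCommGroupWithZero Γ]

/-- simple reduction -/
structure SRed (v : Valuation K Γ) (f : K[X]) (ρ : Γ) (M : ℕ) : Prop extends SR v f ρ where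
  simple : Simple v f ρ
  pow : ∀ r : K, v r = ρ → ∃ π : K, v f.leadingCoeff * ρ ^ (f.natDegree - 1) = v π ^ M

variable {v : Valuation K Γ} {f : K[X]} {ρ : Γ} {M : ℕ}

lemma SRed.deriv (h : SRed v f ρ M) (hD : 2 ≤ f.natDegree)
    (h1 : 1 < v f.leadingCoeff * ρ ^ (f.natDegree - 1)) {x : K}
    (px : Pre (fun z => f.eval z) x) :
    v (f.derivative.eval x) = v f.leadingCoeff * ρ ^ (f.natDegree - 1) := by
  rcases h.simple with hs | hs
  · exact absurd hs h1.ne'
  · exact hs x (h.toSR.pre hD px) (h.toSR.pre hD px.step)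

/-- the radius and the expansion factor are values of elements of `K` -/
lemma SRed.elements (h : SRed v f ρ M) (hD : 2 ≤ f.natDegree)
    (h1 : 1 < v f.leadingCoeff * ρ ^ (f.natDegree - 1)) {x y : K}
    (px : Pre (fun z => f.eval z) x) (py : Pre (fun z => f.eval z) y) (hne : x ≠ y) :
    ∃ r π : K, v r = ρ ∧ v f.leadingCoeff * ρ ^ (f.natDegree - 1) = v π ^ M := by
  obtain ⟨j, hj⟩ := h.toSR.dist hD h1 h.simple px py hne
  have hr : v ((x - y) * (f.derivative.eval x) ^ j) = ρ := by
    rw [map_mul, map_pow, h.deriv hD h1 px, hj]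
  obtain ⟨π, hπ⟩ := h.pow _ hr
  exact ⟨_, π, hr, hπ⟩

variable {Γ' : Type*} [LinearOrderedCommGroupWithZero Γ'] {u : Γ →*₀ Γ'} (hu : StrictMono u)

include hu in
/-- simple reduction implies the property of the differences -/
theorem LP_of_SRed {ρ : Γ'} (h : SRed (v.map u hu.monotone) f ρ M) (hD : 2 ≤ f.natDegree) :
    LP v (fun z => f.eval z) M := by
  set v' := v.map u hu.monotone with hv'
  have hval : ∀ x, v' x = u (v x) := fun x => rfl
  rcases eq_or_lt_of_le h.toSR.one with h1 | h1
  · left
    intro x y px py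
    apply hu.injective
    exact h.toSR.iso hD h1.symm px py
  · right
    by_cases hex : ∃ x y, Per (fun z => f.eval z) x ∧ Per (fun z => f.eval z) y ∧ x ≠ y
    · obtain ⟨x0, y0, px0, py0, hne0⟩ := hex
      obtain ⟨r, π, hr, hπ⟩ := h.elements hD h1 px0.pre py0.pre hne0
      have hρ := h.toSR.rho hD
      have hr0 : v r ≠ 0 := by
        intro h0
        rw [hval, h0, map_zero] at hr
        exact hρ hr.symm
      have hπ0 : v π ^ M ≠ 0 := by
        intro h0
        have h2 : v' π ^ M = u (v π ^ M) := by rw [map_pow u, hval]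
        rw [hπ, h2, h0, map_zero] at h1
        exact not_lt_zero h1
      refine ⟨v r, hr0, fun x y px py hne => ?_⟩
      obtain ⟨j, hj⟩ := h.toSR.dist hD h1 h.simple px.pre py.pre hne
      rw [hπ, ← hr, hval, hval, hval, ← map_pow u, ← map_pow u, ← map_mul u] at hj
      have hj' := hu.injective hj
      refine ⟨(v π ^ j)⁻¹, ?_⟩
      rw [inv_pow, ← pow_mul, Nat.mul_comm j M, pow_mul, inv_mul_eq_div,
        eq_div_iff (pow_ne_zero _ hπ0)]
      exact hj'
    · push Not at hex
      exact ⟨1, one_ne_zero, fun x y px py hne => absurd (hex x y px py) hne⟩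

/-- translation of the coordinate -/
theorem LP_of_tr {c : K} (h : LP v (fun z => (tr f c).eval z) M) :
    LP v (fun z => f.eval z) M := by
  rcases h with h | ⟨ρ, hρ, h⟩
  · left
    intro x y px py
    have := h _ _ (tr_per (c := c) px) (tr_per (c := c) py)
    simp only [tr_eval, sub_sub_sub_cancel_right] at this
    exact this
  · right
    refine ⟨ρ, hρ, fun x y px py hne => ?_⟩
    have := h _ _ (tr_per (c := c) px) (tr_per (c := c) py)
      (fun h' => hne (sub_left_injective h'))
    simp only [sub_sub_sub_cancel_right] at this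
    exact this

end

section

variable {K : Type} [Field K] [NumberField K] {L : Type} [Field L] [NumberField L] [Algebra K L]
  {w : HeightOneSpectrum (𝓞 L)} {f g : K[X]} {Γ' : Type*} [LinearOrderedCommGroupWithZero Γ']
  {u : WithZero (Multiplicative ℤ) →*₀ Γ'} (hu : StrictMono u)

include hu in
/-- the local statement for `x - ζ y` -/
theorem zeta_local' {M e : ℕ} (hD : 2 ≤ f.natDegree) (he : 2 ≤ e)
    (hf : f = g.comp (X ^ e)) {ζ₀ : L} (hζ : IsPrimitiveRoot ζ₀ e) {ρ : Γ'}
    (h : SRed (((w.under (𝓞 K)).valuation K).map u hu.monotone) f ρ M)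
    {x y x' y' : K}
    (px : Per (fun z => f.eval z) x) (py : Per (fun z => f.eval z) y) (hne : x ≠ y)
    (px' : Per (fun z => f.eval z) x') (py' : Per (fun z => f.eval z) y') (hne' : x' ≠ y')
    {ζ ζ' : L} (h1 : ζ ^ e = 1) (h2 : ζ ≠ 1) (h1' : ζ' ^ e = 1) (h2' : ζ' ≠ 1) :
    ∃ a, w.valuation L (algebraMap K L x - ζ * algebraMap K L y) =
      a ^ M * w.valuation L (algebraMap K L x' - ζ' * algebraMap K L y') := by
  obtain ⟨r, hr, hv⟩ := val_under (K := K) L w
  set v' := ((w.under (𝓞 K)).valuation K).map u hu.monotone with hv'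
  set w' := (w.valuation L).map u hu.monotone with hw'
  have hval : ∀ x, w' x = u (w.valuation L x) := fun x => rfl
  have hvw : ∀ x : K, w' (algebraMap K L x) = v' x ^ r := by
    intro x
    rw [hval, hv, map_pow]; rfl
  have hDL : 2 ≤ (f.map (algebraMap K L)).natDegree := by rwa [natDegree_map]
  have hfL : f.map (algebraMap K L) = (g.map (algebraMap K L)).comp (X ^ e) := by
    rw [hf, Polynomial.map_comp]; simp
  have hinj : ∀ {x y : K}, x ≠ y → algebraMap K L x ≠ algebraMap K L y := fun h h' =>
    h ((algebraMap K L).injective h')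
  have hE : w' (f.map (algebraMap K L)).leadingCoeff *
      (ρ ^ r) ^ ((f.map (algebraMap K L)).natDegree - 1) =
      (v' f.leadingCoeff * ρ ^ (f.natDegree - 1)) ^ r := by
    rw [leadingCoeff_map, natDegree_map, hvw, mul_pow, ← pow_mul, ← pow_mul, Nat.mul_comm r]
  have hSR : SR w' (f.map (algebraMap K L)) (ρ ^ r) := by
    constructor
    · rw [hE]; exact one_le_pow₀ h.toSR.one
    · intro i
      have h3 := pow_le_pow_left₀ zero_le (h.toSR.coef i) r
      rw [leadingCoeff_map, coeff_map, natDegree_map, hvw, hvw]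
      rwa [mul_pow, ← pow_mul, Nat.mul_comm _ r, pow_mul] at h3
  rcases eq_or_lt_of_le h.toSR.one with hE1 | hE1
  · refine ⟨1, ?_⟩
    rw [one_pow, one_mul]
    have hE1' : w' (f.map (algebraMap K L)).leadingCoeff *
      (ρ ^ r) ^ ((f.map (algebraMap K L)).natDegree - 1) = 1 := by
      rw [hE, ← hE1, one_pow]
    apply hu.injective
    have k1 := hSR.zeta hDL hE1' he hfL hζ (map_per px) (map_per py) (hinj hne) h1 h2
    have k2 := hSR.zeta hDL hE1' he hfL hζ (map_per px') (map_per py') (hinj hne') h1' h2'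
    exact k1.trans k2.symm
  · have key : ∀ {x y : K} {ζ : L}, Per (fun z => f.eval z) x → Per (fun z => f.eval z) y →
        x ≠ y → ζ ^ e = 1 → ∃ j : ℕ, w' (algebraMap K L x - ζ * algebraMap K L y) *
          ((v' f.leadingCoeff * ρ ^ (f.natDegree - 1)) ^ r) ^ j = ρ ^ r := by
      intro x y ζ px py hne h1
      have hx := h.toSR.pre hD px.pre
      have hy := h.toSR.pre hD py.pre
      have hζ1 := root_v w' he h1
      have hxL : w' (algebraMap K L x) ≤ ρ ^ r := by
        rw [hvw]; exact pow_le_pow_left₀ zero_le hx r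
      have hyL : w' (ζ * algebraMap K L y) ≤ ρ ^ r := by
        rw [map_mul, hζ1, one_mul, hvw]; exact pow_le_pow_left₀ zero_le hy r
      have hle : w' (algebraMap K L x - ζ * algebraMap K L y) ≤ ρ ^ r :=
        (w'.map_sub _ _).trans (max_le hxL hyL)
      rcases lt_or_eq_of_le hle with h3 | h3
      · have hs : w' ((f.map (algebraMap K L)).derivative.eval (algebraMap K L x)) =
            w' (f.map (algebraMap K L)).leadingCoeff *
              (ρ ^ r) ^ ((f.map (algebraMap K L)).natDegree - 1) := by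
          rw [hE, derivative_map, eval_map_algebraMap,
            aeval_algebraMap_apply_eq_algebraMap_eval, hvw, h.deriv hD hE1 px.pre]
        have h4 := hSR.step hDL hyL hxL hs (by rwa [Valuation.map_sub_swap])
        have h5 : (f.map (algebraMap K L)).eval (ζ * algebraMap K L y) =
            algebraMap K L (f.eval y) := by
          rw [hfL, eval_comp, eval_pow, eval_X, mul_pow, h1, one_mul, ← map_pow,
            eval_map_algebraMap, aeval_algebraMap_apply_eq_algebraMap_eval]
          congr 1
          rw [hf]; simp [eval_comp]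
        have h6 : (f.map (algebraMap K L)).eval (algebraMap K L x) =
            algebraMap K L (f.eval x) := by
          rw [eval_map_algebraMap, aeval_algebraMap_apply_eq_algebraMap_eval]
        rw [h5, h6, ← map_sub, hvw, hE, Valuation.map_sub_swap,
          Valuation.map_sub_swap w'] at h4
        have hfne : f.eval x ≠ f.eval y := fun h' => hne (per_inj (k := 1) px py h')
        obtain ⟨j, hj⟩ := h.toSR.dist hD hE1 h.simple px.step.pre py.step.pre hfne
        refine ⟨j + 1, ?_⟩
        generalize v' f.leadingCoeff * ρ ^ (f.natDegree - 1) = E at h4 hj ⊢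
        rw [pow_succ', ← mul_assoc, mul_comm (w' _), ← h4, ← hj, mul_pow, pow_right_comm]
      · exact ⟨0, by rw [pow_zero, mul_one, h3]⟩
    obtain ⟨r0, π, -, hπ⟩ := h.elements hD hE1 px.pre py.pre hne
    obtain ⟨j, hj⟩ := key px py hne h1
    obtain ⟨j', hj'⟩ := key px' py' hne' h1'
    rw [← hj', hπ] at hj
    have hπw : (v' π ^ M) ^ r = u ((w.valuation L (algebraMap K L π)) ^ M) := by
      rw [map_pow, ← hval, hvw, ← pow_mul, ← pow_mul, Nat.mul_comm M]
    rw [hπw, hval, hval, ← map_pow u, ← map_pow u, ← map_mul u, ← map_mul u] at hj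
    have hj2 := hu.injective hj
    have hπ0 : w.valuation L (algebraMap K L π) ^ M ≠ 0 := by
      intro h0
      rw [h0, map_zero] at hπw
      have h7 : v' π ^ M = 0 := by
        by_contra h8
        exact pow_ne_zero r h8 hπw
      rw [hπ, h7] at hE1
      exact not_lt_zero hE1
    refine ⟨w.valuation L (algebraMap K L π) ^ j' / w.valuation L (algebraMap K L π) ^ j, ?_⟩
    rw [div_pow, ← pow_mul, ← pow_mul, Nat.mul_comm j', Nat.mul_comm j, pow_mul, pow_mul,
      div_mul_eq_mul_div, eq_div_iff (pow_ne_zero _ hπ0), hj2, mul_comm]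

/-- **polynomials in `z ^ e`, `e ≥ 3`** -/
theorem zeta_bound' (K : Type) [Field K] [NumberField K] {S : Set (HeightOneSpectrum (𝓞 K))}
    (hS : S.Finite) {M e : ℕ} (hM : 4 ≤ M) (he : 3 ≤ e) {Γ' : Type*}
    [LinearOrderedCommGroupWithZero Γ']
    (u : HeightOneSpectrum (𝓞 K) → WithZero (Multiplicative ℤ) →*₀ Γ')
    (hu : ∀ v, StrictMono (u v)) :
    ∃ B : ℕ, ∀ f g : K[X], 2 ≤ f.natDegree → f = g.comp (X ^ e) →
      (∀ v ∉ S, ∃ ρ, SRed ((v.valuation K).map (u v) (hu v).monotone) f ρ M) →
      ∀ T : Finset K, (∀ x ∈ T, Per (fun z => f.eval z) x) → T.card ≤ B := by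
  classical
  have : NeZero e := ⟨by omega⟩
  have : NeZero ((e : ℕ) : K) := ⟨Nat.cast_ne_zero.mpr (by omega)⟩
  set L := CyclotomicField e K with hL
  have hω := IsCyclotomicExtension.zeta_spec e K L
  set ω := IsCyclotomicExtension.zeta e K L with hωdef
  have hω0 : ω ≠ 0 := hω.ne_zero (by omega)
  have hω1 : ω ≠ 1 := hω.ne_one (by omega)
  have hω2 : ω ^ 2 ≠ 1 := fun h => by
    have := hω.dvd_of_pow_eq_one 2 h
    have := Nat.le_of_dvd (by norm_num) this
    omega
  have hSL := under_finite (K := K) L hS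
  refine ⟨(TT_finite hSL hM).toFinset.card + 2, fun f g hD hf hloc T hT => ?_⟩
  by_cases hcard : T.card ≤ 2
  · omega
  rw [not_le] at hcard
  obtain ⟨x, hx, y, hy, hxy⟩ := Finset.one_lt_card.mp (by omega : 1 < T.card)
  have px := hT x hx
  have py := hT y hy
  set A := algebraMap K L with hA
  have hbase : A x - ω * A y ≠ 0 :=
    per_inj_root hf hω.pow_eq_one px py hxy
  have key : ((T.erase x).erase y).card ≤ (TT_finite hSL hM).toFinset.card := by
    refine Finset.card_le_card_of_injOn (fun z => -(ω * (A y - ω * A z)) / (A x - ω * A y)) ?_ ?_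
    · intro z hz
      rw [Finset.mem_coe, Finset.mem_erase, Finset.mem_erase] at hz
      obtain ⟨hzy, hzx, hzT⟩ := hz
      have pz := hT z hzT
      rw [Finset.mem_coe, Set.Finite.mem_toFinset]
      intro w hw
      have hw' : w.under (𝓞 K) ∉ S := hw
      obtain ⟨ρ, hρ⟩ := hloc _ hw'
      have hvω := root_v (w.valuation L) (by omega : 2 ≤ e) hω.pow_eq_one
      have hvb : w.valuation L (A x - ω * A y) ≠ 0 := (Valuation.ne_zero_iff _).mpr hbase
      constructor
      · obtain ⟨a, ha⟩ := zeta_local' (hu _) hD (by omega) hf hω hρ py pz (Ne.symm hzy) px py hxy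
          hω.pow_eq_one hω1 hω.pow_eq_one hω1
        refine ⟨a, ?_⟩
        rw [map_div₀, Valuation.map_neg, map_mul, hvω, one_mul, ha, mul_div_cancel_right₀ _ hvb]
      · have h1 : (ω ^ (e - 2)) ^ e = 1 := by
          rw [← pow_mul, Nat.mul_comm, pow_mul, hω.pow_eq_one, one_pow]
        have h2 : ω ^ (e - 2) * ω ^ 2 = 1 := by
          rw [← pow_add, Nat.sub_add_cancel (by omega), hω.pow_eq_one]
        have h3 : ω ^ (e - 2) ≠ 1 := by
          intro h3
          rw [h3, one_mul] at h2
          exact hω2 h2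
        obtain ⟨a, ha⟩ := zeta_local' (hu _) hD (by omega) hf hω hρ pz px hzx px py hxy
          h1 h3 hω.pow_eq_one hω1
        refine ⟨a, ?_⟩
        have e1 : -(ω * (A y - ω * A z)) / (A x - ω * A y) - 1 =
            ω ^ 2 * (A z - ω ^ (e - 2) * A x) / (A x - ω * A y) := by
          rw [div_sub_one hbase]
          congr 1
          linear_combination A x * h2
        rw [e1, map_div₀, map_mul, map_pow, hvω, one_pow, one_mul, ha,
          mul_div_cancel_right₀ _ hvb]
    · intro z _ z' _ he'
      simp only at he'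
      rw [div_left_inj' hbase, neg_inj, mul_right_inj' hω0, sub_right_inj,
        mul_right_inj' hω0] at he'
      exact A.injective he'
  rw [Finset.card_erase_of_mem (Finset.mem_erase.mpr ⟨hxy.symm, hy⟩),
    Finset.card_erase_of_mem hx] at key
  omega

end

end Pool.Agent.H422.DC
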