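import Mathlib
import Pool.Agent.H422.DC.Abs

/-!
# Polynomials `h (G ^ e)`: one place
-/

set_option autoImplicit false

open Polynomial IsDedekindDomain NumberField

namespace Pool.Agent.H422.DC

open Pool.Agent.H422.HE Pool.Agent.H422.UC Pool.Agent.H422.MF Pool.Agent.H422.MR

section

variable {K : Type*} [Field K] {Γ : Type*} [LinearOrderedCommGroupWithZero Γ] (v : Valuation K Γ)

/-- the coefficients of positive degree are bounded on the disk of radius `R` -/
def GB (Q : K[X]) (R C : Γ) : Prop := ∀ i, 0 < i → v (Q.coeff i) * R ^ i ≤ C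

variable {v} {Q : K[X]} {R C : Γ}

lemma GB.lip (h : GB v Q R C) (hR : R ≠ 0) {x y : K} (hx : v x ≤ R) (hy : v y ≤ R) :
    v (Q.eval x - Q.eval y) * R ≤ C * v (x - y) := by
  rw [← le_div_iff₀ (zero_lt_iff.mpr hR)]
  rw [eval_eq_sum_range, eval_eq_sum_range, ← Finset.sum_sub_distrib]
  apply Valuation.map_sum_le
  intro i hi
  rw [← mul_sub, map_mul, le_div_iff₀ (zero_lt_iff.mpr hR)]
  rcases i with _ | i
  · simp
  · calc v (Q.coeff (i + 1)) * v (x ^ (i + 1) - y ^ (i + 1)) * R ≤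
        v (Q.coeff (i + 1)) * (R ^ i * v (x - y)) * R :=
          mul_le_mul' (mul_le_mul' le_rfl (pow_sub_le_pow hx hy i)) le_rfl
      _ = v (Q.coeff (i + 1)) * R ^ (i + 1) * v (x - y) := by
          rw [pow_succ, mul_assoc, mul_assoc, mul_assoc, mul_assoc, mul_comm (v (x - y)) R]
      _ ≤ _ := mul_le_mul' (h _ (Nat.succ_pos i)) le_rfl

lemma deriv_sum (Q : K[X]) (y : K) : Q.derivative.eval y = ∑ i ∈ Finset.range (Q.natDegree + 1),
    Q.coeff i * (i * y ^ (i - 1)) := by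
  rw [derivative_eval, sum_over_range _ (by intro n; simp)]
  exact Finset.sum_congr rfl fun i _ => by ring

lemma GB.der (h : GB v Q R C) (hR : R ≠ 0) {x : K} (hx : v x ≤ R) :
    v (Q.derivative.eval x) * R ≤ C := by
  rw [← le_div_iff₀ (zero_lt_iff.mpr hR), deriv_sum]
  apply Valuation.map_sum_le
  intro i hi
  rw [le_div_iff₀ (zero_lt_iff.mpr hR)]
  rcases i with _ | i
  · simp
  · rw [Nat.add_sub_cancel]
    rw [map_mul, map_mul, map_pow]
    calc v (Q.coeff (i + 1)) * (v ((i + 1 : ℕ) : K) * v x ^ i) * R ≤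
        v (Q.coeff (i + 1)) * (1 * R ^ i) * R :=
          mul_le_mul' (mul_le_mul' le_rfl (mul_le_mul' (v_natCast_le v _)
            (pow_le_pow_left₀ zero_le hx i))) le_rfl
      _ = v (Q.coeff (i + 1)) * R ^ (i + 1) := by rw [one_mul, pow_succ, mul_assoc]
      _ ≤ _ := h _ (Nat.succ_pos i)

lemma GB.taylor (h : GB v Q R C) (hR : R ≠ 0) {x y : K} (hx : v x ≤ R) (hy : v y ≤ R) :
    v (Q.eval x - Q.eval y - (x - y) * Q.derivative.eval y) * R ^ 2 ≤ C * v (x - y) ^ 2 := by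
  have hR2 : 0 < R ^ 2 := zero_lt_iff.mpr (pow_ne_zero 2 hR)
  rw [← le_div_iff₀ hR2, deriv_sum, eval_eq_sum_range, eval_eq_sum_range, Finset.mul_sum,
    ← Finset.sum_sub_distrib, ← Finset.sum_sub_distrib]
  apply Valuation.map_sum_le
  intro i hi
  have h3 : Q.coeff i * x ^ i - Q.coeff i * y ^ i - (x - y) * (Q.coeff i * (i * y ^ (i - 1))) =
      Q.coeff i * (x ^ i - y ^ i - (x - y) * (i * y ^ (i - 1))) := by ring
  rw [h3, map_mul, le_div_iff₀ hR2]
  match i with
  | 0 => simp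
  | 1 => simp
  | i + 2 =>
    calc v (Q.coeff (i + 2)) * v (x ^ (i + 2) - y ^ (i + 2) -
          (x - y) * (((i + 2 : ℕ) : K) * y ^ (i + 2 - 1))) * R ^ 2
        ≤ v (Q.coeff (i + 2)) * (R ^ i * v (x - y) ^ 2) * R ^ 2 :=
          mul_le_mul' (mul_le_mul' le_rfl (pow_taylor' hx hy i)) le_rfl
      _ = v (Q.coeff (i + 2)) * R ^ (i + 2) * v (x - y) ^ 2 := by
          rw [pow_add, mul_assoc, mul_assoc, mul_assoc, mul_assoc, mul_comm (v (x - y) ^ 2)]
      _ ≤ _ := mul_le_mul' (h _ (by omega)) le_rfl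

lemma GB.step (h : GB v Q R C) (hR : R ≠ 0) (hC : C ≠ 0) {x y : K} (hx : v x ≤ R)
    (hy : v y ≤ R) (hs : v (Q.derivative.eval y) * R = C) (hxy : v (x - y) < R) :
    v (Q.eval x - Q.eval y) * R = C * v (x - y) := by
  rcases eq_or_ne x y with rfl | hne
  · simp
  have hδ : v (x - y) ≠ 0 := (Valuation.ne_zero_iff _).mpr (sub_ne_zero.mpr hne)
  have h4 : Q.eval x - Q.eval y = (x - y) * Q.derivative.eval y +
    (Q.eval x - Q.eval y - (x - y) * Q.derivative.eval y) := by ring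
  have h5 : v ((x - y) * Q.derivative.eval y) * R = C * v (x - y) := by
    rw [map_mul, mul_assoc, hs, mul_comm]
  have h6 : v (Q.eval x - Q.eval y - (x - y) * Q.derivative.eval y) <
      v ((x - y) * Q.derivative.eval y) := by
    have h7 := h.taylor hR hx hy
    have hR2 : 0 < R ^ 2 := zero_lt_iff.mpr (pow_ne_zero 2 hR)
    refine (mul_lt_mul_iff_left₀ hR2).mp (lt_of_le_of_lt h7 ?_)
    rw [sq R, ← mul_assoc, h5, sq, ← mul_assoc]
    exact (mul_lt_mul_iff_right₀ (zero_lt_iff.mpr (mul_ne_zero hC hδ))).mpr hxy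
  rw [h4, Valuation.map_add_eq_of_lt_left _ h6, h5]

lemma SR.gb {f : K[X]} {ρ : Γ} (h : SR v f ρ) : GB v f ρ (v f.leadingCoeff * ρ ^ f.natDegree) := by
  intro i _
  rcases le_or_gt i f.natDegree with hi | hi
  · calc v (f.coeff i) * ρ ^ i ≤ v f.leadingCoeff * ρ ^ (f.natDegree - i) * ρ ^ i :=
        mul_le_mul' (h.coef i) le_rfl
      _ = _ := by rw [mul_assoc, ← pow_add, Nat.sub_add_cancel hi]
  · rw [coeff_eq_zero_of_natDegree_lt hi, map_zero, zero_mul]
    exact zero_le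

variable (v) in
/-- `f = h (G ^ e)`, with the disk of radius `ρ` mapped into the disk of radius `R` by `G` -/
structure PD (f h G : K[X]) (e : ℕ) (ρ R : Γ) : Prop where
  eq : f = (h.comp (X ^ e)).comp G
  inner : ∀ i, v (G.coeff i) * ρ ^ i ≤ R
  outer : ∀ i, 0 < i → v (h.coeff i) * R ^ (e * i) ≤ v f.leadingCoeff * ρ ^ f.natDegree

variable {f h G : K[X]} {e : ℕ} {ρ : Γ}

lemma PD.pos (hP : PD v f h G e ρ R) (hD : 2 ≤ f.natDegree) (hρ : ρ ≠ 0) : R ≠ 0 := by
  rintro rfl
  have h0 : ∀ i, G.coeff i = 0 := by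
    intro i
    have h1 := hP.inner i
    rw [le_zero_iff, mul_eq_zero] at h1
    rcases h1 with h1 | h1
    · exact (Valuation.zero_iff _).mp h1
    · exact absurd h1 (pow_ne_zero _ hρ)
  have h1 : G = 0 := by ext i; rw [h0, coeff_zero]
  have h2 := hP.eq
  rw [h1, comp_zero] at h2
  rw [h2, natDegree_C] at hD
  omega

lemma PD.eval (hP : PD v f h G e ρ R) (x : K) : f.eval x = h.eval ((G.eval x) ^ e) := by
  rw [hP.eq]; simp [eval_comp]

lemma PD.gle (hP : PD v f h G e ρ R) {x : K} (hx : v x ≤ ρ) : v (G.eval x) ≤ R := by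
  rw [eval_eq_sum_range]
  apply Valuation.map_sum_le
  intro i _
  rw [map_mul, map_pow]
  exact (mul_le_mul' le_rfl (pow_le_pow_left₀ zero_le hx i)).trans (hP.inner i)

lemma PD.gbG (hP : PD v f h G e ρ R) : GB v G ρ R := fun i _ => hP.inner i

lemma PD.gbh (hP : PD v f h G e ρ R) : GB v h (R ^ e) (v f.leadingCoeff * ρ ^ f.natDegree) := by
  intro i hi
  rw [← pow_mul]; exact hP.outer i hi

lemma PD.gbQ (hP : PD v f h G e ρ R) (he : 0 < e) :
    GB v (h.comp (X ^ e)) R (v f.leadingCoeff * ρ ^ f.natDegree) := by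
  intro i hi
  rw [← expand_eq_comp_X_pow, coeff_expand he]
  split_ifs with hd
  · obtain ⟨j, rfl⟩ := hd
    rw [Nat.mul_div_cancel_left _ he]
    exact hP.outer j (by
      rcases Nat.eq_zero_or_pos j with h0 | h0
      · rw [h0] at hi; omega
      · exact h0)
  · rw [map_zero, zero_mul]; exact zero_le

/-- potentially good reduction: `G x - ζ G y` -/
theorem PD.zeta (hP : PD v f h G e ρ R) (hSR : SR v f ρ) (hD : 2 ≤ f.natDegree)
    (h1 : v f.leadingCoeff * ρ ^ (f.natDegree - 1) = 1) (he : 2 ≤ e)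
    {ζ₀ : K} (hζ : IsPrimitiveRoot ζ₀ e) {x y : K} (px : Per (fun z => f.eval z) x)
    (py : Per (fun z => f.eval z) y) (hne : x ≠ y) {ζ : K} (h3 : ζ ^ e = 1) (h4 : ζ ≠ 1) :
    v (G.eval x - ζ * G.eval y) = R := by
  classical
  have hρ := hSR.rho hD
  have hR := hP.pos hD hρ
  have hx := hSR.pre hD px.pre
  have hy := hSR.pre hD py.pre
  have hgx := hP.gle hx
  have hgy := hP.gle hy
  have hA : v f.leadingCoeff * ρ ^ f.natDegree = ρ := by
    have : ρ ^ f.natDegree = ρ ^ (f.natDegree - 1) * ρ := by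
      rw [← pow_succ]; congr 1; omega
    rw [this, ← mul_assoc, h1, one_mul]
  have k1 : v (f.eval x - f.eval y) * R ^ e ≤
      ρ * v ((G.eval x) ^ e - (G.eval y) ^ e) := by
    have := hP.gbh.lip (pow_ne_zero e hR) (x := (G.eval x) ^ e) (y := (G.eval y) ^ e)
      (by rw [map_pow]; exact pow_le_pow_left₀ zero_le hgx e)
      (by rw [map_pow]; exact pow_le_pow_left₀ zero_le hgy e)
    rwa [hA, ← hP.eval, ← hP.eval] at this
  have k2 : v (G.eval x - G.eval y) * ρ ≤ R * v (x - y) := hP.gbG.lip hρ hx hy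
  rw [hSR.iso hD h1 px py, prod_eq v hζ he,
    ← Finset.mul_prod_erase _ (fun ζ => v (G.eval x - ζ * G.eval y))
      ((mem_roots' he).mpr (one_pow e)), one_mul] at k1
  have hxy : v (x - y) ≠ 0 := (Valuation.ne_zero_iff _).mpr (sub_ne_zero.mpr hne)
  have hcard : ((nthRootsFinset e (1 : K)).erase 1).card = e - 1 := by
    rw [Finset.card_erase_of_mem ((mem_roots' he).mpr (one_pow e)), hζ.card_nthRootsFinset]
  have hfac : ∀ ζ ∈ (nthRootsFinset e (1 : K)).erase 1,
      v (G.eval x - ζ * G.eval y) / R ≤ 1 := by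
    intro ζ hζ'
    have hr := root_v v he ((mem_roots' he).mp (Finset.mem_of_mem_erase hζ'))
    rw [div_le_one₀ (zero_lt_iff.mpr hR)]
    refine (v.map_sub _ _).trans ?_
    rw [map_mul, hr, one_mul]
    exact max_le hgx hgy
  have hone : ∏ ζ ∈ (nthRootsFinset e (1 : K)).erase 1, v (G.eval x - ζ * G.eval y) / R = 1 := by
    refine le_antisymm (Finset.prod_le_one' hfac) ?_
    rw [Finset.prod_div_distrib, Finset.prod_const, hcard,
      le_div_iff₀ (zero_lt_iff.mpr (pow_ne_zero _ hR)), one_mul]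
    set Pz := ∏ ζ ∈ (nthRootsFinset e (1 : K)).erase 1, v (G.eval x - ζ * G.eval y)
    have h8 : v (x - y) * R * R ^ (e - 1) ≤ v (x - y) * R * Pz := by
      calc v (x - y) * R * R ^ (e - 1) = v (x - y) * R ^ e := by
            rw [mul_assoc, ← pow_succ']; congr 2; omega
        _ ≤ ρ * (v (G.eval x - G.eval y) * Pz) := k1
        _ = (v (G.eval x - G.eval y) * ρ) * Pz := by
            rw [← mul_assoc, mul_comm ρ]
        _ ≤ (R * v (x - y)) * Pz := mul_le_mul' k2 le_rfl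
        _ = v (x - y) * R * Pz := by rw [mul_comm R]
    exact (mul_le_mul_iff_right₀ (zero_lt_iff.mpr (mul_ne_zero hxy hR))).mp h8
  have := all_eq_one _ _ hfac hone ζ (Finset.mem_erase.mpr ⟨h4, (mem_roots' he).mpr h3⟩)
  rwa [div_eq_one_iff_eq hR] at this

/-- one step, for `G x - ζ G y` -/
theorem PD.step (hP : PD v f h G e ρ R) (hSR : SR v f ρ) (hD : 2 ≤ f.natDegree) (he : 2 ≤ e)
    {x y : K} (hx : v x ≤ ρ) (hy : v y ≤ ρ)
    (hs : v (f.derivative.eval x) = v f.leadingCoeff * ρ ^ (f.natDegree - 1)) {ζ : K}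
    (hζ : ζ ^ e = 1) (hxy : v (G.eval x - ζ * G.eval y) < R) :
    v (f.eval x - f.eval y) * R =
      v f.leadingCoeff * ρ ^ f.natDegree * v (G.eval x - ζ * G.eval y) := by
  have hρ := hSR.rho hD
  have hR := hP.pos hD hρ
  have hA := hSR.lead
  have hC : v f.leadingCoeff * ρ ^ f.natDegree ≠ 0 := mul_ne_zero hA (pow_ne_zero _ hρ)
  have hgx := hP.gle hx
  have hgy := hP.gle hy
  have hr := root_v v he hζ
  have hgy' : v (ζ * G.eval y) ≤ R := by rw [map_mul, hr, one_mul]; exact hgy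
  have hQ := hP.gbQ (by omega)
  have hmax : v ((h.comp (X ^ e)).derivative.eval (G.eval x)) * R =
      v f.leadingCoeff * ρ ^ f.natDegree := by
    refine le_antisymm (hQ.der hR hgx) ?_
    have h1 : f.derivative.eval x =
        (h.comp (X ^ e)).derivative.eval (G.eval x) * G.derivative.eval x := by
      conv_lhs => rw [hP.eq, derivative_comp]
      rw [eval_mul, eval_comp, mul_comm]
    have h2 := hP.gbG.der hρ hx
    rw [h1, map_mul] at hs
    calc v f.leadingCoeff * ρ ^ f.natDegree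
        = v f.leadingCoeff * ρ ^ (f.natDegree - 1) * ρ := by
          rw [mul_assoc, ← pow_succ]; congr 2; omega
      _ = v ((h.comp (X ^ e)).derivative.eval (G.eval x)) *
          (v (G.derivative.eval x) * ρ) := by rw [← hs, mul_assoc]
      _ ≤ _ := mul_le_mul' le_rfl h2
  have key := hQ.step hR hC (x := ζ * G.eval y) (y := G.eval x) hgy' hgx hmax
    (by rwa [Valuation.map_sub_swap])
  have e1 : (h.comp (X ^ e)).eval (ζ * G.eval y) = f.eval y := by
    rw [hP.eval, eval_comp, eval_pow, eval_X, mul_pow, hζ, one_mul]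
  have e2 : (h.comp (X ^ e)).eval (G.eval x) = f.eval x := by
    rw [hP.eval, eval_comp, eval_pow, eval_X]
  rw [e1, e2, Valuation.map_sub_swap, Valuation.map_sub_swap v (ζ * G.eval y)] at key
  exact key

end

end Pool.Agent.H422.DC
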