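import Mathlib
import Pool.Agent.H422.DC.Dec

/-!
# Polynomials `h (G ^ e)`: number fields
-/

set_option autoImplicit false

open Polynomial IsDedekindDomain NumberField

namespace Pool.Agent.H422.DC

open Pool.Agent.H422.HE Pool.Agent.H422.UC Pool.Agent.H422.MF Pool.Agent.H422.MR

section

variable {K : Type} [Field K] [NumberField K] {L : Type} [Field L] [NumberField L] [Algebra K L]
  {w : HeightOneSpectrum (𝓞 L)} {f h G : K[X]} {Γ' : Type*} [LinearOrderedCommGroupWithZero Γ']
  {u : WithZero (Multiplicative ℤ) →*₀ Γ'} (hu : StrictMono u)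

omit [NumberField K] [NumberField L] in
lemma eval_map' (F : K[X]) (x : K) :
    (F.map (algebraMap K L)).eval (algebraMap K L x) = algebraMap K L (F.eval x) := by
  rw [eval_map_algebraMap, aeval_algebraMap_apply_eq_algebraMap_eval]

include hu in
/-- the local statement for `G x - ζ G y` -/
theorem zeta_local2 {M e : ℕ} (hD : 2 ≤ f.natDegree) (he : 2 ≤ e)
    {ζ₀ : L} (hζ : IsPrimitiveRoot ζ₀ e) {ρ R : Γ'}
    (hf : SRed (((w.under (𝓞 K)).valuation K).map u hu.monotone) f ρ M)
    (hP : PD (((w.under (𝓞 K)).valuation K).map u hu.monotone) f h G e ρ R)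
    {x y x' y' : K}
    (px : Per (fun z => f.eval z) x) (py : Per (fun z => f.eval z) y) (hne : x ≠ y)
    (px' : Per (fun z => f.eval z) x') (py' : Per (fun z => f.eval z) y') (hne' : x' ≠ y')
    {ζ ζ' : L} (h1 : ζ ^ e = 1) (h2 : ζ ≠ 1) (h1' : ζ' ^ e = 1) (h2' : ζ' ≠ 1) :
    ∃ a, w.valuation L (algebraMap K L (G.eval x) - ζ * algebraMap K L (G.eval y)) =
      a ^ M * w.valuation L (algebraMap K L (G.eval x') - ζ' * algebraMap K L (G.eval y')) := by
  obtain ⟨r, hr, hv⟩ := val_under (K := K) L w
  set v' := ((w.under (𝓞 K)).valuation K).map u hu.monotone with hv'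
  set w' := (w.valuation L).map u hu.monotone with hw'
  have hval : ∀ x, w' x = u (w.valuation L x) := fun x => rfl
  have hvw : ∀ x : K, w' (algebraMap K L x) = v' x ^ r := by
    intro x
    rw [hval, hv, map_pow]; rfl
  have hDL : 2 ≤ (f.map (algebraMap K L)).natDegree := by rwa [natDegree_map]
  have hinj : ∀ {x y : K}, x ≠ y → algebraMap K L x ≠ algebraMap K L y := fun h h' =>
    h ((algebraMap K L).injective h')
  have hE : w' (f.map (algebraMap K L)).leadingCoeff *
      (ρ ^ r) ^ ((f.map (algebraMap K L)).natDegree - 1) =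
      (v' f.leadingCoeff * ρ ^ (f.natDegree - 1)) ^ r := by
    rw [leadingCoeff_map, natDegree_map, hvw, mul_pow, ← pow_mul, ← pow_mul, Nat.mul_comm r]
  have hSR : SR w' (f.map (algebraMap K L)) (ρ ^ r) := by
    constructor
    · rw [hE]; exact one_le_pow₀ hf.toSR.one
    · intro i
      have h3 := pow_le_pow_left₀ zero_le (hf.toSR.coef i) r
      rw [leadingCoeff_map, coeff_map, natDegree_map, hvw, hvw]
      rwa [mul_pow, ← pow_mul, Nat.mul_comm _ r, pow_mul] at h3
  have hPL : PD w' (f.map (algebraMap K L)) (h.map (algebraMap K L)) (G.map (algebraMap K L)) e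
      (ρ ^ r) (R ^ r) := by
    refine ⟨?_, ?_, ?_⟩
    · rw [hP.eq, Polynomial.map_comp, Polynomial.map_comp]; simp
    · intro i
      have h3 := pow_le_pow_left₀ zero_le (hP.inner i) r
      rw [coeff_map, hvw]
      rwa [mul_pow, pow_right_comm] at h3
    · intro i hi
      have h3 := pow_le_pow_left₀ zero_le (hP.outer i hi) r
      rw [leadingCoeff_map, coeff_map, natDegree_map, hvw, hvw]
      rwa [mul_pow, mul_pow, pow_right_comm R, pow_right_comm ρ] at h3
  have hρ := hf.toSR.rho hD
  have hR := hP.pos hD hρ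
  rcases eq_or_lt_of_le hf.toSR.one with hE1 | hE1
  · refine ⟨1, ?_⟩
    rw [one_pow, one_mul]
    have hE1' : w' (f.map (algebraMap K L)).leadingCoeff *
      (ρ ^ r) ^ ((f.map (algebraMap K L)).natDegree - 1) = 1 := by
      rw [hE, ← hE1, one_pow]
    apply hu.injective
    have k1 := hPL.zeta hSR hDL hE1' he hζ (map_per px) (map_per py) (hinj hne) h1 h2
    have k2 := hPL.zeta hSR hDL hE1' he hζ (map_per px') (map_per py') (hinj hne') h1' h2'
    rw [eval_map', eval_map'] at k1 k2
    exact k1.trans k2.symm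
  · have key : ∀ {x y : K} {ζ : L}, Per (fun z => f.eval z) x → Per (fun z => f.eval z) y →
        x ≠ y → ζ ^ e = 1 → ∃ j : ℕ,
          w' (algebraMap K L (G.eval x) - ζ * algebraMap K L (G.eval y)) *
          ((v' f.leadingCoeff * ρ ^ (f.natDegree - 1)) ^ r) ^ j = R ^ r := by
      intro x y ζ px py hne h1
      have hx := hf.toSR.pre hD px.pre
      have hy := hf.toSR.pre hD py.pre
      have hζ1 := root_v w' he h1
      have hxL : w' (algebraMap K L x) ≤ ρ ^ r := by
        rw [hvw]; exact pow_le_pow_left₀ zero_le hx r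
      have hyL : w' (algebraMap K L y) ≤ ρ ^ r := by
        rw [hvw]; exact pow_le_pow_left₀ zero_le hy r
      have hgx := hPL.gle hxL
      have hgy := hPL.gle hyL
      rw [eval_map'] at hgx hgy
      have hle : w' (algebraMap K L (G.eval x) - ζ * algebraMap K L (G.eval y)) ≤ R ^ r := by
        refine (w'.map_sub _ _).trans (max_le hgx ?_)
        rwa [map_mul, hζ1, one_mul]
      rcases lt_or_eq_of_le hle with h3 | h3
      · have hs : w' ((f.map (algebraMap K L)).derivative.eval (algebraMap K L x)) =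
            w' (f.map (algebraMap K L)).leadingCoeff *
              (ρ ^ r) ^ ((f.map (algebraMap K L)).natDegree - 1) := by
          rw [hE, derivative_map, eval_map', hvw, hf.deriv hD hE1 px.pre]
        have h4 := hPL.step hSR hDL he hxL hyL hs h1 (by rwa [eval_map', eval_map'])
        have hE2 : w' (f.map (algebraMap K L)).leadingCoeff *
            (ρ ^ r) ^ (f.map (algebraMap K L)).natDegree =
            (v' f.leadingCoeff * ρ ^ (f.natDegree - 1)) ^ r * ρ ^ r := by
          rw [← hE, mul_assoc, ← pow_succ]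
          congr 2
          omega
        rw [eval_map', eval_map', eval_map', eval_map', ← map_sub, hvw, hE2] at h4
        have hfne : f.eval x ≠ f.eval y := fun h' => hne (per_inj (k := 1) px py h')
        obtain ⟨j, hj⟩ := hf.toSR.dist hD hE1 hf.simple px.step.pre py.step.pre hfne
        refine ⟨j + 1, ?_⟩
        generalize v' f.leadingCoeff * ρ ^ (f.natDegree - 1) = E at h4 hj ⊢
        generalize w' (algebraMap K L (G.eval x) - ζ * algebraMap K L (G.eval y)) = W at h4 ⊢
        have hρr : ρ ^ r ≠ 0 := pow_ne_zero r hρ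
        have h5 : v' (f.eval x - f.eval y) ^ r * (E ^ r) ^ j = ρ ^ r := by
          rw [← hj, mul_pow, pow_right_comm]
        have h6 : ρ ^ r * R ^ r = ρ ^ r * (W * (E ^ r) ^ (j + 1)) := by
          calc ρ ^ r * R ^ r = v' (f.eval x - f.eval y) ^ r * R ^ r * (E ^ r) ^ j := by
                rw [← h5, mul_right_comm]
            _ = E ^ r * ρ ^ r * W * (E ^ r) ^ j := by rw [h4]
            _ = _ := by
                rw [pow_succ, mul_comm (E ^ r) (ρ ^ r), mul_assoc, mul_assoc]
                congr 1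
                rw [← mul_assoc W, mul_comm (E ^ r)]
        exact (mul_left_cancel₀ hρr h6).symm
      · exact ⟨0, by rw [pow_zero, mul_one, h3]⟩
    obtain ⟨r0, π, -, hπ⟩ := hf.elements hD hE1 px.pre py.pre hne
    obtain ⟨j, hj⟩ := key px py hne h1
    obtain ⟨j', hj'⟩ := key px' py' hne' h1'
    rw [← hj', hπ] at hj
    have hπw : (v' π ^ M) ^ r = u ((w.valuation L (algebraMap K L π)) ^ M) := by
      rw [map_pow, ← hval, hvw, ← pow_mul, ← pow_mul, Nat.mul_comm M]
    rw [hπw, hval, hval, ← map_pow u, ← map_pow u, ← map_mul u, ← map_mul u] at hj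
    have hj2 := hu.injective hj
    have hπ0 : w.valuation L (algebraMap K L π) ^ M ≠ 0 := by
      intro h0
      rw [h0, map_zero] at hπw
      have h7 : v' π ^ M = 0 := by
        by_contra h8
        exact pow_ne_zero r h8 hπw
      rw [hπ, h7] at hE1
      exact not_lt_zero hE1
    refine ⟨w.valuation L (algebraMap K L π) ^ j' / w.valuation L (algebraMap K L π) ^ j, ?_⟩
    rw [div_pow, ← pow_mul, ← pow_mul, Nat.mul_comm j', Nat.mul_comm j, pow_mul, pow_mul,
      div_mul_eq_mul_div, eq_div_iff (pow_ne_zero _ hπ0), hj2, mul_comm]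

omit [NumberField K] [NumberField L] in
/-- `G x ≠ ζ G y` for periodic points `x ≠ y` -/
lemma per_inj_root2 {e : ℕ} (hf : f = (h.comp (X ^ e)).comp G) {ζ : L} (hζ : ζ ^ e = 1) {x y : K}
    (px : Per (fun z => f.eval z) x) (py : Per (fun z => f.eval z) y) (hne : x ≠ y) :
    algebraMap K L (G.eval x) - ζ * algebraMap K L (G.eval y) ≠ 0 := by
  intro h0
  rw [sub_eq_zero] at h0
  have h1 : algebraMap K L ((G.eval x) ^ e) = algebraMap K L ((G.eval y) ^ e) := by
    rw [map_pow, map_pow, h0, mul_pow, hζ, one_mul]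
  have h2 := (algebraMap K L).injective h1
  have h3 : f.eval x = f.eval y := by
    rw [hf]; simp [eval_comp, h2]
  exact hne (per_inj (k := 1) px py h3)

/-- **polynomials `h (G ^ e)`, `e ≥ 3`** -/
theorem zeta_bound2 (K : Type) [Field K] [NumberField K] {S : Set (HeightOneSpectrum (𝓞 K))}
    (hS : S.Finite) {M e : ℕ} (hM : 4 ≤ M) (he : 3 ≤ e) {Γ' : Type*}
    [LinearOrderedCommGroupWithZero Γ']
    (u : HeightOneSpectrum (𝓞 K) → WithZero (Multiplicative ℤ) →*₀ Γ')
    (hu : ∀ v, StrictMono (u v)) :
    ∃ B : ℕ, ∀ f h G : K[X], 2 ≤ f.natDegree → f = (h.comp (X ^ e)).comp G →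
      (∀ v ∉ S, ∃ c ρ R, SRed ((v.valuation K).map (u v) (hu v).monotone) (tr f c) ρ M ∧
        PD ((v.valuation K).map (u v) (hu v).monotone) (tr f c) (h - C c) (G.comp (X + C c)) e
          ρ R) →
      ∀ T : Finset K, (∀ x ∈ T, Per (fun z => f.eval z) x) → T.card ≤ B := by
  classical
  have : NeZero e := ⟨by omega⟩
  have : NeZero ((e : ℕ) : K) := ⟨Nat.cast_ne_zero.mpr (by omega)⟩
  set L := CyclotomicField e K with hL
  have hω := IsCyclotomicExtension.zeta_spec e K L
  set ω := IsCyclotomicExtension.zeta e K L with hωdef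
  have hω0 : ω ≠ 0 := hω.ne_zero (by omega)
  have hω1 : ω ≠ 1 := hω.ne_one (by omega)
  have hω2 : ω ^ 2 ≠ 1 := fun h => by
    have := hω.dvd_of_pow_eq_one 2 h
    have := Nat.le_of_dvd (by norm_num) this
    omega
  have hSL := under_finite (K := K) L hS
  refine ⟨(TT_finite hSL hM).toFinset.card + 2, fun f h G hD hf hloc T hT => ?_⟩
  by_cases hcard : T.card ≤ 2
  · omega
  rw [not_le] at hcard
  obtain ⟨x, hx, y, hy, hxy⟩ := Finset.one_lt_card.mp (by omega : 1 < T.card)
  have px := hT x hx
  have py := hT y hy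
  set A : K → L := fun x => algebraMap K L (G.eval x) with hA
  have hAinj : ∀ {x y : K}, Per (fun z => f.eval z) x → Per (fun z => f.eval z) y →
      A x = A y → x = y := by
    intro x y px py h1
    by_contra hne
    have := per_inj_root2 (L := L) (ζ := 1) hf (one_pow e) px py hne
    rw [one_mul, sub_ne_zero] at this
    exact this h1
  -- the local statement, after translation
  have hzl : ∀ w : HeightOneSpectrum (𝓞 L), w.under (𝓞 K) ∉ S → ∀ {x y x' y' : K},
      Per (fun z => f.eval z) x → Per (fun z => f.eval z) y → x ≠ y →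
      Per (fun z => f.eval z) x' → Per (fun z => f.eval z) y' → x' ≠ y' → ∀ {ζ ζ' : L},
      ζ ^ e = 1 → ζ ≠ 1 → ζ' ^ e = 1 → ζ' ≠ 1 → ∃ a, w.valuation L (A x - ζ * A y) =
        a ^ M * w.valuation L (A x' - ζ' * A y') := by
    intro w hw x y x' y' px py hne px' py' hne' ζ ζ' h1 h2 h1' h2'
    obtain ⟨c, ρ, R, hc, hP⟩ := hloc _ hw
    have := zeta_local2 (hu _) (by rwa [tr_natDegree]) (by omega) hω hc hP (tr_per (c := c) px)
      (tr_per (c := c) py) (fun h' => hne (sub_left_injective h')) (tr_per (c := c) px')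
      (tr_per (c := c) py') (fun h' => hne' (sub_left_injective h')) h1 h2 h1' h2'
    simpa [eval_comp] using this
  have hbase : A x - ω * A y ≠ 0 := per_inj_root2 hf hω.pow_eq_one px py hxy
  have key : ((T.erase x).erase y).card ≤ (TT_finite hSL hM).toFinset.card := by
    refine Finset.card_le_card_of_injOn (fun z => -(ω * (A y - ω * A z)) / (A x - ω * A y)) ?_ ?_
    · intro z hz
      rw [Finset.mem_coe, Finset.mem_erase, Finset.mem_erase] at hz
      obtain ⟨hzy, hzx, hzT⟩ := hz
      have pz := hT z hzT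
      rw [Finset.mem_coe, Set.Finite.mem_toFinset]
      intro w hw
      have hw' : w.under (𝓞 K) ∉ S := hw
      have hvω := root_v (w.valuation L) (by omega : 2 ≤ e) hω.pow_eq_one
      have hvb : w.valuation L (A x - ω * A y) ≠ 0 := (Valuation.ne_zero_iff _).mpr hbase
      constructor
      · obtain ⟨a, ha⟩ := hzl w hw' py pz (Ne.symm hzy) px py hxy
          hω.pow_eq_one hω1 hω.pow_eq_one hω1
        refine ⟨a, ?_⟩
        rw [map_div₀, Valuation.map_neg, map_mul, hvω, one_mul, ha, mul_div_cancel_right₀ _ hvb]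
      · have h1 : (ω ^ (e - 2)) ^ e = 1 := by
          rw [← pow_mul, Nat.mul_comm, pow_mul, hω.pow_eq_one, one_pow]
        have h2 : ω ^ (e - 2) * ω ^ 2 = 1 := by
          rw [← pow_add, Nat.sub_add_cancel (by omega), hω.pow_eq_one]
        have h3 : ω ^ (e - 2) ≠ 1 := by
          intro h3
          rw [h3, one_mul] at h2
          exact hω2 h2
        obtain ⟨a, ha⟩ := hzl w hw' pz px hzx px py hxy
          h1 h3 hω.pow_eq_one hω1
        refine ⟨a, ?_⟩
        have e1 : -(ω * (A y - ω * A z)) / (A x - ω * A y) - 1 =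
            ω ^ 2 * (A z - ω ^ (e - 2) * A x) / (A x - ω * A y) := by
          rw [div_sub_one hbase]
          congr 1
          linear_combination A x * h2
        rw [e1, map_div₀, map_mul, map_pow, hvω, one_pow, one_mul, ha,
          mul_div_cancel_right₀ _ hvb]
    · intro z hz z' hz' he'
      simp only at he'
      rw [div_left_inj' hbase, neg_inj, mul_right_inj' hω0, sub_right_inj,
        mul_right_inj' hω0] at he'
      rw [Finset.mem_coe, Finset.mem_erase, Finset.mem_erase] at hz hz'
      exact hAinj (hT z hz.2.2) (hT z' hz'.2.2) he'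
  rw [Finset.card_erase_of_mem (Finset.mem_erase.mpr ⟨hxy.symm, hy⟩),
    Finset.card_erase_of_mem hx] at key
  omega

end

end Pool.Agent.H422.DC
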