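import Mathlib
import Pool.Agent.H422.DC.DecG

/-!
# Decompositions of polynomials and disks
-/

set_option autoImplicit false

open Polynomial IsDedekindDomain NumberField

namespace Pool.Agent.H422.DC

open Pool.Agent.H422.HE Pool.Agent.H422.UC Pool.Agent.H422.MF Pool.Agent.H422.MR

section

variable {K : Type*} [Field K] {Γ : Type*} [LinearOrderedCommGroupWithZero Γ] (v : Valuation K Γ)

/-- polynomials of weight at most `N` -/
def WW (ρ : Γ) (P : K[X]) (N : ℕ) : Prop := ∀ i, v (P.coeff i) * ρ ^ i ≤ ρ ^ N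

variable {v} {ρ : Γ} {P Q : K[X]} {M N : ℕ}

lemma WW.add (hP : WW v ρ P N) (hQ : WW v ρ Q N) : WW v ρ (P + Q) N := by
  intro i
  rw [coeff_add]
  rcases le_total (v (P.coeff i)) (v (Q.coeff i)) with h | h
  · exact (mul_le_mul' ((v.map_add _ _).trans (max_le h le_rfl)) le_rfl).trans (hQ i)
  · exact (mul_le_mul' ((v.map_add _ _).trans (max_le le_rfl h)) le_rfl).trans (hP i)

lemma WW.neg (hP : WW v ρ P N) : WW v ρ (-P) N := by
  intro i
  rw [coeff_neg, Valuation.map_neg]
  exact hP i

lemma WW.sub (hP : WW v ρ P N) (hQ : WW v ρ Q N) : WW v ρ (P - Q) N := by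
  rw [sub_eq_add_neg]; exact hP.add hQ.neg

lemma WW.mul (hρ : ρ ≠ 0) (hP : WW v ρ P M) (hQ : WW v ρ Q N) : WW v ρ (P * Q) (M + N) := by
  intro k
  rw [coeff_mul, ← le_div_iff₀ (zero_lt_iff.mpr (pow_ne_zero k hρ))]
  apply Valuation.map_sum_le
  intro x hx
  have hx' : x.1 + x.2 = k := Finset.HasAntidiagonal.mem_antidiagonal.mp hx
  rw [le_div_iff₀ (zero_lt_iff.mpr (pow_ne_zero k hρ)), map_mul, ← hx', pow_add, pow_add,
    mul_mul_mul_comm]
  exact mul_le_mul' (hP _) (hQ _)

lemma WW.one : WW v ρ (1 : K[X]) 0 := by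
  intro i
  rw [coeff_one]
  split_ifs with h
  · rw [h, map_one]
    simp
  · rw [map_zero, zero_mul]; exact zero_le

lemma WW.pow (hρ : ρ ≠ 0) (hP : WW v ρ P M) (n : ℕ) : WW v ρ (P ^ n) (M * n) := by
  induction n with
  | zero => rw [pow_zero, Nat.mul_zero]; exact WW.one
  | succ n ih => rw [pow_succ, Nat.mul_succ]; exact ih.mul hρ hP

lemma WW.sum {ι : Type*} (s : Finset ι) (F : ι → K[X]) (h : ∀ i ∈ s, WW v ρ (F i) N) :
    WW v ρ (∑ i ∈ s, F i) N := by
  classical
  induction s using Finset.induction_on with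
  | empty =>
    intro i
    rw [Finset.sum_empty, coeff_zero, map_zero, zero_mul]; exact zero_le
  | insert a s ha ih =>
    rw [Finset.sum_insert ha]
    exact (h a (Finset.mem_insert_self _ _)).add
      (ih fun i hi => h i (Finset.mem_insert_of_mem hi))

lemma WW.smul {c : K} (hc : v c * ρ ^ M ≤ ρ ^ N) (hP : WW v ρ P M) : WW v ρ (C c * P) N := by
  intro i
  rw [coeff_C_mul, map_mul, mul_assoc]
  exact (mul_le_mul' le_rfl (hP i)).trans hc

/-- a factor of a unit integer is a unit -/
lemma unit_of_dvd {a b : ℕ} (h : v ((a * b : ℕ) : K) = 1) : v (a : K) = 1 := by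
  rw [Nat.cast_mul, map_mul] at h
  refine le_antisymm (v_natCast_le v a) ?_
  rw [← h]
  calc v (a : K) * v (b : K) ≤ v (a : K) * 1 := mul_le_mul' le_rfl (v_natCast_le v b)
    _ = _ := mul_one _

/-- the coefficients of the inner polynomial -/
theorem inner_bound {f h G : K[X]} {e m n : ℕ} (hρ : ρ ≠ 0) (he : 2 ≤ e) (hm : 0 < m)
    (hn : 0 < n)
    (hf : f = (h.comp (X ^ e)).comp G) (hG : G.Monic) (hGm : G.natDegree = m) (hh : h.Monic)
    (hhn : h.natDegree = n) (hW : WW v ρ f (m * (e * n))) (ht : v ((e * n : ℕ) : K) = 1) :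
    WW v ρ G m := by
  have hsum : f = ∑ j ∈ Finset.range (n + 1), C (h.coeff j) * G ^ (e * j) := by
    rw [hf, comp_assoc]
    conv_lhs => rw [h.as_sum_range_C_mul_X_pow, hhn]
    rw [Polynomial.sum_comp]
    refine Finset.sum_congr rfl fun j _ => ?_
    rw [mul_comp, C_comp, X_pow_comp, X_pow_comp, pow_mul]
  have hlow : ∀ k ≤ m, f.coeff (m * (e * n) - k) = (G ^ (e * n)).coeff (m * (e * n) - k) := by
    intro k hk
    rw [hsum, Finset.sum_range_succ, coeff_add, finsetSum_coeff]
    rw [Finset.sum_eq_zero, zero_add]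
    · have : h.coeff n = 1 := by rw [← hhn]; exact hh.coeff_natDegree
      rw [this, C_1, one_mul]
    · intro j hj
      rw [Finset.mem_range] at hj
      apply coeff_eq_zero_of_natDegree_lt
      refine lt_of_le_of_lt (natDegree_C_mul_le _ _) ?_
      rw [natDegree_pow, hGm]
      have h1 : e * j * m ≤ e * (n - 1) * m :=
        Nat.mul_le_mul_right _ (Nat.mul_le_mul_left _ (by omega))
      have h2 : m * (e * n) = e * (n - 1) * m + e * m := by
        obtain ⟨n', rfl⟩ : ∃ n', n = n' + 1 := ⟨n - 1, by omega⟩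
        rw [Nat.add_sub_cancel]; ring
      have h3 : 2 * m ≤ e * m := Nat.mul_le_mul_right _ he
      omega
  have key : ∀ k ≤ m, v (G.coeff (m - k)) * ρ ^ (m - k) ≤ ρ ^ m := by
    intro k
    induction k using Nat.strong_induction_on with
    | _ k ih =>
      intro hk
      rcases Nat.eq_zero_or_pos k with rfl | hk0
      · rw [Nat.sub_zero, ← hGm, hG.coeff_natDegree, map_one, one_mul]
      -- the upper part
      set T : K[X] := ∑ i ∈ Finset.Ioc (m - k) m, C (G.coeff i) * X ^ i with hT
      have hTc : ∀ i, T.coeff i = if m - k < i then G.coeff i else 0 := by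
        intro i
        rw [hT, finsetSum_coeff]
        simp only [coeff_C_mul, coeff_X_pow, mul_ite, mul_one, mul_zero]
        rw [Finset.sum_ite_eq]
        by_cases h1 : m - k < i
        · rw [if_pos h1]
          by_cases h2 : i ≤ m
          · rw [if_pos (Finset.mem_Ioc.mpr ⟨h1, h2⟩)]
          · rw [if_neg (by rw [Finset.mem_Ioc]; omega),
              coeff_eq_zero_of_natDegree_lt (by omega)]
        · rw [if_neg h1, if_neg (by rw [Finset.mem_Ioc]; omega)]
      have hTW : WW v ρ T m := by
        intro i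
        rw [hTc]
        split_ifs with h1
        · by_cases h2 : i ≤ m
          · have := ih (m - i) (by omega) (by omega)
            rwa [show m - (m - i) = i by omega] at this
          · rw [coeff_eq_zero_of_natDegree_lt (by omega), map_zero, zero_mul]; exact zero_le
        · rw [map_zero, zero_mul]; exact zero_le
      have hTd : T.natDegree ≤ m := by
        rw [natDegree_le_iff_coeff_eq_zero]
        intro i hi
        rw [hTc]
        split_ifs
        · exact coeff_eq_zero_of_natDegree_lt (by omega)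
        · rfl
      have hTm : T.Monic := by
        apply monic_of_natDegree_le_of_coeff_eq_one m hTd
        rw [hTc, if_pos (by omega), ← hGm, hG.coeff_natDegree]
      have hTd' : T.natDegree = m := by
        refine le_antisymm hTd ?_
        apply le_natDegree_of_ne_zero
        rw [hTc, if_pos (by omega), ← hGm, hG.coeff_natDegree]
        exact one_ne_zero
      have hUd : (G - T).natDegree ≤ m - k := by
        rw [natDegree_le_iff_coeff_eq_zero]
        intro i hi
        rw [coeff_sub, hTc, if_pos hi, sub_self]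
      have hgeom : G ^ (e * n) = T ^ (e * n) +
          (G - T) * ∑ i ∈ Finset.range (e * n), G ^ i * T ^ (e * n - 1 - i) := by
        rw [(Commute.all G T).mul_geom_sum₂]; ring
      have hen : 0 < e * n := Nat.mul_pos (by omega) hn
      have hterm : ∀ i ∈ Finset.range (e * n),
          (G ^ i * T ^ (e * n - 1 - i)).natDegree = m * (e * n - 1) ∧
          (G ^ i * T ^ (e * n - 1 - i)).Monic := by
        intro i hi
        rw [Finset.mem_range] at hi
        refine ⟨?_, (hG.pow _).mul (hTm.pow _)⟩
        rw [(hG.pow _).natDegree_mul (hTm.pow _), hG.natDegree_pow, hTm.natDegree_pow, hGm, hTd']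
        have : i + (e * n - 1 - i) = e * n - 1 := by omega
        rw [← Nat.add_mul, this, Nat.mul_comm]
      have hsd : (∑ i ∈ Finset.range (e * n), G ^ i * T ^ (e * n - 1 - i)).natDegree ≤
          m * (e * n - 1) :=
        natDegree_sum_le_of_forall_le _ _ fun i hi => (hterm i hi).1.le
      have hsc : (∑ i ∈ Finset.range (e * n), G ^ i * T ^ (e * n - 1 - i)).coeff
          (m * (e * n - 1)) = ((e * n : ℕ) : K) := by
        rw [finsetSum_coeff, Finset.sum_congr rfl (g := fun _ => (1 : K))]
        · simp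
        · intro i hi
          obtain ⟨h1, h2⟩ := hterm i hi
          rw [← h1]; exact h2.coeff_natDegree
      have hidx : m * (e * n) - k = (m - k) + m * (e * n - 1) := by
        have : m * (e * n) = m + m * (e * n - 1) := by
          obtain ⟨N, hN⟩ : ∃ N, e * n = N + 1 := ⟨e * n - 1, by omega⟩
          rw [hN, Nat.add_sub_cancel]; ring
        omega
      have hcoef : ((e * n : ℕ) : K) * G.coeff (m - k) =
          f.coeff (m * (e * n) - k) - (T ^ (e * n)).coeff (m * (e * n) - k) := by
        rw [hlow k hk, hgeom, coeff_add]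
        have : ((G - T) * ∑ i ∈ Finset.range (e * n), G ^ i * T ^ (e * n - 1 - i)).coeff
            (m * (e * n) - k) = G.coeff (m - k) * ((e * n : ℕ) : K) := by
          rw [hidx, coeff_mul_add_eq_of_natDegree_le hUd hsd, hsc, coeff_sub, hTc, if_neg (by omega),
            sub_zero]
        rw [this]; ring
      have hb : v (f.coeff (m * (e * n) - k) - (T ^ (e * n)).coeff (m * (e * n) - k)) *
          ρ ^ (m * (e * n) - k) ≤ ρ ^ (m * (e * n)) := by
        have h1 := (hW.sub (hTW.pow hρ (e * n))) (m * (e * n) - k)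
        rwa [coeff_sub] at h1
      rw [← hcoef, map_mul, ht, one_mul] at hb
      have hk' : k ≤ m * (e * n) := hk.trans (Nat.le_mul_of_pos_right _ hen)
      have h2 : ρ ^ (m * (e * n)) = ρ ^ m * ρ ^ (m * (e * n - 1)) := by
        rw [← pow_add]; congr 1
        obtain ⟨N, hN⟩ : ∃ N, e * n = N + 1 := ⟨e * n - 1, by omega⟩
        rw [hN, Nat.add_sub_cancel]; ring
      rw [hidx, pow_add, ← mul_assoc, h2] at hb
      exact (mul_le_mul_iff_left₀ (zero_lt_iff.mpr (pow_ne_zero _ hρ))).mp hb
  intro i
  by_cases hi : i ≤ m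
  · have := key (m - i) (by omega)
    rwa [show m - (m - i) = i by omega] at this
  · rw [coeff_eq_zero_of_natDegree_lt (by omega), map_zero, zero_mul]; exact zero_le

/-- the coefficients of the outer polynomial -/
theorem outer_bound {f h G : K[X]} {e m n : ℕ} (hρ : ρ ≠ 0) (he : 0 < e) (hm : 0 < m)
    (hf : f = (h.comp (X ^ e)).comp G) (hG : G.Monic) (hGm : G.natDegree = m)
    (hhn : h.natDegree = n) {N : ℕ} (hW : WW v ρ f N) (hGW : WW v ρ G m) :
    ∀ j, v (h.coeff j) * ρ ^ (m * (e * j)) ≤ ρ ^ N := by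
  have hsum : f = ∑ j ∈ Finset.range (n + 1), C (h.coeff j) * G ^ (e * j) := by
    rw [hf, comp_assoc]
    conv_lhs => rw [h.as_sum_range_C_mul_X_pow, hhn]
    rw [Polynomial.sum_comp]
    refine Finset.sum_congr rfl fun j _ => ?_
    rw [mul_comp, C_comp, X_pow_comp, X_pow_comp, pow_mul]
  have key : ∀ k ≤ n, v (h.coeff (n - k)) * ρ ^ (m * (e * (n - k))) ≤ ρ ^ N := by
    intro k
    induction k using Nat.strong_induction_on with
    | _ k ih =>
      intro hk
      have hsplit : f = (∑ j ∈ Finset.range (n - k), C (h.coeff j) * G ^ (e * j)) +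
          (C (h.coeff (n - k)) * G ^ (e * (n - k)) +
          ∑ j ∈ Finset.Ioc (n - k) n, C (h.coeff j) * G ^ (e * j)) := by
        rw [hsum, ← Finset.sum_range_add_sum_Ico _ (by omega : n - k ≤ n + 1)]
        congr 1
        rw [Finset.sum_eq_sum_Ico_succ_bot (by omega)]
        congr 1
        refine Finset.sum_congr ?_ fun _ _ => rfl
        ext j
        rw [Finset.mem_Ico, Finset.mem_Ioc]
        omega
      have hup : WW v ρ (∑ j ∈ Finset.Ioc (n - k) n, C (h.coeff j) * G ^ (e * j)) N := by
        apply WW.sum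
        intro j hj
        rw [Finset.mem_Ioc] at hj
        have h1 := ih (n - j) (by omega) (by omega)
        rw [show n - (n - j) = j by omega] at h1
        exact WW.smul h1 (hGW.pow hρ _)
      have hlow : (∑ j ∈ Finset.range (n - k), C (h.coeff j) * G ^ (e * j)).coeff
          (m * (e * (n - k))) = 0 := by
        rw [finsetSum_coeff]
        apply Finset.sum_eq_zero
        intro j hj
        rw [Finset.mem_range] at hj
        apply coeff_eq_zero_of_natDegree_lt
        refine lt_of_le_of_lt (natDegree_C_mul_le _ _) ?_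
        rw [natDegree_pow, hGm, Nat.mul_comm]
        exact Nat.mul_lt_mul_of_pos_left (Nat.mul_lt_mul_of_pos_left hj he) hm
      have hmid : (C (h.coeff (n - k)) * G ^ (e * (n - k))).coeff (m * (e * (n - k))) =
          h.coeff (n - k) := by
        rw [coeff_C_mul]
        have h1 : (G ^ (e * (n - k))).natDegree = m * (e * (n - k)) := by
          rw [hG.natDegree_pow, hGm, Nat.mul_comm]
        have h2 := (hG.pow (e * (n - k))).coeff_natDegree
        rw [h1] at h2
        rw [h2, mul_one]
      have h3 := (hW.sub hup) (m * (e * (n - k)))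
      have h4 : (f - ∑ j ∈ Finset.Ioc (n - k) n, C (h.coeff j) * G ^ (e * j)).coeff
          (m * (e * (n - k))) = h.coeff (n - k) := by
        conv_lhs => rw [hsplit]
        rw [coeff_sub, coeff_add, coeff_add, hlow, hmid]
        ring
      rwa [h4] at h3
  intro j
  by_cases hj : j ≤ n
  · have := key (n - j) (by omega)
    rwa [show n - (n - j) = j by omega] at this
  · rw [coeff_eq_zero_of_natDegree_lt (by omega), map_zero, zero_mul]; exact zero_le

/-- compatibility of decompositions with the disks -/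
theorem PD_of_SR {f h G : K[X]} {e : ℕ} (hD : 2 ≤ f.natDegree) (he : 2 ≤ e)
    (hf : f = (h.comp (X ^ e)).comp G) (hSR : SR v f ρ) (ht : v (f.natDegree : K) = 1) :
    PD v f h G e ρ (v G.leadingCoeff * ρ ^ G.natDegree) := by
  have hρ := hSR.rho hD
  have hdeg : f.natDegree = h.natDegree * e * G.natDegree := by
    rw [hf, natDegree_comp, natDegree_comp, natDegree_X_pow]
  have hn : 0 < h.natDegree := by
    rcases Nat.eq_zero_or_pos h.natDegree with h0 | h0
    · rw [h0, Nat.zero_mul, Nat.zero_mul] at hdeg; omega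
    · exact h0
  have hm : 0 < G.natDegree := by
    rcases Nat.eq_zero_or_pos G.natDegree with h0 | h0
    · rw [h0, Nat.mul_zero] at hdeg; omega
    · exact h0
  have hG0 : G ≠ 0 := by rintro rfl; rw [natDegree_zero] at hm; omega
  have hh0 : h ≠ 0 := by rintro rfl; rw [natDegree_zero] at hn; omega
  have ha : G.leadingCoeff ≠ 0 := leadingCoeff_ne_zero.mpr hG0
  have hhl : h.leadingCoeff ≠ 0 := leadingCoeff_ne_zero.mpr hh0
  have hdeg' : f.natDegree = G.natDegree * (e * h.natDegree) := by rw [hdeg]; ring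
  set a := G.leadingCoeff with hadef
  set n := h.natDegree with hndef
  set m := G.natDegree with hmdef
  set A := f.leadingCoeff with hAdef
  have hA : A = h.leadingCoeff * a ^ (e * n) := by
    rw [hAdef, hf, leadingCoeff_comp hm.ne', leadingCoeff_comp, leadingCoeff_X_pow,
      one_pow, mul_one, natDegree_comp, natDegree_X_pow, Nat.mul_comm e]
    rw [natDegree_X_pow]
    omega
  have hA0 : A ≠ 0 := by rw [hA]; exact mul_ne_zero hhl (pow_ne_zero _ ha)
  -- the normalized polynomials
  set G1 : K[X] := C a⁻¹ * G with hG1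
  set h1 : K[X] := C A⁻¹ * h.comp (C (a ^ e) * X) with hh1
  have hG1m : G1.Monic := by
    rw [hG1, Monic, leadingCoeff_mul, leadingCoeff_C, inv_mul_cancel₀ ha]
  have hG1d : G1.natDegree = m := by
    rw [hG1, natDegree_C_mul (inv_ne_zero ha)]
  have hc1 : ∀ j, h1.coeff j = A⁻¹ * (h.coeff j * (a ^ e) ^ j) := by
    intro j
    rw [hh1, coeff_C_mul, comp_C_mul_X_coeff]
  have hh1d : h1.natDegree = n := by
    rw [hh1, natDegree_C_mul (inv_ne_zero hA0), natDegree_comp,
      natDegree_C_mul_X _ (pow_ne_zero e ha), mul_one]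
  have hh1m : h1.Monic := by
    rw [Monic, ← coeff_natDegree, hh1d, hc1, hA, ← pow_mul]
    have : h.coeff n = h.leadingCoeff := rfl
    rw [this, inv_mul_cancel₀ (mul_ne_zero hhl (pow_ne_zero _ ha))]
  have hf1 : C A⁻¹ * f = (h1.comp (X ^ e)).comp G1 := by
    rw [hh1, hG1, hf, mul_comp, mul_comp, C_comp, C_comp]
    congr 1
    rw [comp_assoc, comp_assoc, comp_assoc]
    congr 1
    rw [mul_comp, C_comp, X_comp, X_pow_comp, X_pow_comp, mul_pow, ← C_pow,
      ← mul_assoc, ← C_mul, inv_pow, mul_inv_cancel₀ (pow_ne_zero e ha), C_1, one_mul]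
  have hvA : v A ≠ 0 := (Valuation.ne_zero_iff _).mpr hA0
  have hW : WW v ρ (C A⁻¹ * f) (m * (e * n)) := by
    intro i
    rw [coeff_C_mul, map_mul, map_inv₀, mul_assoc, inv_mul_le_iff₀ (zero_lt_iff.mpr hvA),
      ← hdeg']
    rcases le_or_gt i f.natDegree with hi | hi
    · calc v (f.coeff i) * ρ ^ i ≤ v f.leadingCoeff * ρ ^ (f.natDegree - i) * ρ ^ i :=
          mul_le_mul' (hSR.coef i) le_rfl
        _ = _ := by rw [mul_assoc, ← pow_add, Nat.sub_add_cancel hi]
    · rw [coeff_eq_zero_of_natDegree_lt hi, map_zero, zero_mul]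
      exact zero_le
  have htn : v ((e * n : ℕ) : K) = 1 := by
    rw [hdeg', Nat.mul_comm] at ht
    exact unit_of_dvd ht
  have hGW := inner_bound hρ he hm hn hf1 hG1m hG1d hh1m hh1d hW htn
  have hHW := outer_bound hρ (by omega) hm hf1 hG1m hG1d hh1d hW hGW
  have hva : v a ≠ 0 := (Valuation.ne_zero_iff _).mpr ha
  refine ⟨hf, fun i => ?_, fun j _ => ?_⟩
  · have h3 := hGW i
    rw [hG1, coeff_C_mul, map_mul, map_inv₀, mul_assoc,
      inv_mul_le_iff₀ (zero_lt_iff.mpr hva)] at h3
    exact h3
  · have h3 := hHW j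
    rw [hc1, map_mul, map_inv₀, mul_assoc, inv_mul_le_iff₀ (zero_lt_iff.mpr hvA), ← hdeg',
      map_mul, map_pow, map_pow] at h3
    rw [mul_pow, ← pow_mul ρ, pow_mul (v a), ← mul_assoc]
    exact h3

end

end Pool.Agent.H422.DC
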