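import Mathlib
import Pool.Agent.H422.DC.DecG
import Pool.Agent.H422.DC.Main

/-!
# Periodic points of polynomials with simple reduction on a disk: main theorems
-/

set_option autoImplicit false

open Polynomial IsDedekindDomain NumberField WithZeroMulInt
open scoped NNReal

namespace Pool.Agent.H422.DC

open Pool.Agent.H422.HE Pool.Agent.H422.UC Pool.Agent.H422.MF Pool.Agent.H422.MR

section

/-- **Main theorem**, abstract form. -/
theorem generalR (K : Type) [Field K] [NumberField K] {S : Set (HeightOneSpectrum (𝓞 K))}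
    (hS : S.Finite) {D M : ℕ} (hD : 2 ≤ D) (hM : 4 ≤ M) {Γ' : Type*}
    [LinearOrderedCommGroupWithZero Γ']
    (u : HeightOneSpectrum (𝓞 K) → WithZero (Multiplicative ℤ) →*₀ Γ')
    (hu : ∀ v, StrictMono (u v)) :
    ∃ B : ℕ, ∀ f : K[X], f.natDegree = D →
      ((∀ v ∉ S, ∃ c ρ, SRed ((v.valuation K).map (u v) (hu v).monotone) (tr f c) ρ M) →
        (∀ x, Per (fun z => f.eval z) x → ∀ m, Odd m →
          m ∣ Function.minimalPeriod (fun z => f.eval z) x → m ≤ B) ∧
        (∀ T : Finset K, (∀ x ∈ T, Odd (Function.minimalPeriod (fun z => f.eval z) x)) →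
          T.card ≤ B) ∧
        (Even M → 6 ≤ M → ∀ T : Finset K, (∀ x ∈ T, Per (fun z => f.eval z) x) → T.card ≤ B)) ∧
      (∀ (e : ℕ) (h G : K[X]), 3 ≤ e → f = (h.comp (X ^ e)).comp G →
        (∀ v ∉ S, ∃ c ρ R, SRed ((v.valuation K).map (u v) (hu v).monotone) (tr f c) ρ M ∧
          PD ((v.valuation K).map (u v) (hu v).monotone) (tr f c) (h - C c) (G.comp (X + C c)) e
            ρ R) →
          ∀ T : Finset K, (∀ x ∈ T, Per (fun z => f.eval z) x) → T.card ≤ B) := by
  classical
  obtain ⟨B1, hB1⟩ := odd_dvd (K := K) (M := M) hS hM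
  have h2 : ∃ B2 : ℕ, ∀ f : K[X], f.natDegree = D →
      (∀ v ∉ S, LP (v.valuation K) (fun z => f.eval z) M) → Even M → 6 ≤ M →
      ∀ T : Finset K, (∀ x ∈ T, Per (fun z => f.eval z) x) → T.card ≤ B2 := by
    by_cases hcase : Even M ∧ 6 ≤ M
    · obtain ⟨N, hN0, hN⟩ := per_dvd (K := K) (M := M) hS (by omega) hcase.1
      refine ⟨D ^ N, fun f hf h _ _ T hT => ?_⟩
      rw [← hf]
      exact card_iter_le (by omega) hN0 T fun x hx => hN _ h x (hT x hx)
    · exact ⟨0, fun f _ _ h1 h2 => absurd ⟨h1, h2⟩ hcase⟩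
  obtain ⟨B2, hB2⟩ := h2
  have h3 : ∀ e : ℕ, ∃ B3 : ℕ, 3 ≤ e → ∀ f h G : K[X], 2 ≤ f.natDegree →
      f = (h.comp (X ^ e)).comp G →
      (∀ v ∉ S, ∃ c ρ R, SRed ((v.valuation K).map (u v) (hu v).monotone) (tr f c) ρ M ∧
        PD ((v.valuation K).map (u v) (hu v).monotone) (tr f c) (h - C c) (G.comp (X + C c)) e
          ρ R) →
      ∀ T : Finset K, (∀ x ∈ T, Per (fun z => f.eval z) x) → T.card ≤ B3 := by
    intro e
    by_cases he : 3 ≤ e
    · obtain ⟨B3, hB3⟩ := zeta_bound2 K hS hM he u hu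
      exact ⟨B3, fun _ => hB3⟩
    · exact ⟨0, fun h => absurd h he⟩
  choose B3 hB3 using h3
  refine ⟨B1 + D ^ B1.factorial + B2 + ∑ e ∈ Finset.range (D + 1), B3 e, fun f hf => ⟨?_, ?_⟩⟩
  · intro hloc
    have hLP : ∀ v ∉ S, LP (v.valuation K) (fun z => f.eval z) M := by
      intro v hv
      obtain ⟨c, ρ, hc⟩ := hloc v hv
      have h1 := LP_of_SRed (hu v) hc (by rw [tr_natDegree]; omega)
      exact LP_of_tr h1
    refine ⟨?_, ?_, ?_⟩
    · intro x px m hm hd
      have := hB1 _ hLP x px m hm hd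
      omega
    · intro T hT
      have h4 : T.card ≤ D ^ B1.factorial := by
        rw [← hf]
        apply card_iter_le (by omega) (Nat.factorial_pos _) T
        intro x hx
        have hodd := hT x hx
        have hpos : 0 < Function.minimalPeriod (fun z => f.eval z) x := hodd.pos
        rw [iter_eq_self_iff]
        exact Nat.dvd_factorial hpos (hB1 _ hLP x (per_of_pos hpos) _ hodd dvd_rfl)
      omega
    · intro hM2 hM6 T hT
      have := hB2 f hf hLP hM2 hM6 T hT
      omega
  · intro e h G he hg hloc T hT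
    have heD : e ≤ D := by
      have h5 : f.natDegree = h.natDegree * e * G.natDegree := by
        rw [hg, natDegree_comp, natDegree_comp, natDegree_X_pow]
      have h6 : 0 < h.natDegree := by
        rcases Nat.eq_zero_or_pos h.natDegree with h0 | h0
        · rw [h0, Nat.zero_mul, Nat.zero_mul] at h5; omega
        · exact h0
      have h7 : 0 < G.natDegree := by
        rcases Nat.eq_zero_or_pos G.natDegree with h0 | h0
        · rw [h0, Nat.mul_zero] at h5; omega
        · exact h0
      rw [← hf, h5, Nat.mul_assoc]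
      exact (Nat.le_mul_of_pos_right _ h7).trans (Nat.le_mul_of_pos_left _ h6)
    have h7 := hB3 e he f h G (by omega) hg hloc T hT
    have h8 : B3 e ≤ ∑ e ∈ Finset.range (D + 1), B3 e :=
      Finset.single_le_sum (f := B3) (fun _ _ => Nat.zero_le _)
        (Finset.mem_range.mpr (by omega))
    omega

end

end Pool.Agent.H422.DC
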