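import Mathlib
import Pool.Agent.H422.DC.RMain
import Pool.Agent.H422.DC.Auto

/-!
# Periodic points of polynomials with simple reduction on a disk: real absolute values
-/

set_option autoImplicit false

open Polynomial IsDedekindDomain NumberField WithZeroMulInt
open scoped NNReal

namespace Pool.Agent.H422.DC

open Pool.Agent.H422.HE Pool.Agent.H422.UC Pool.Agent.H422.MF Pool.Agent.H422.MR

/-- Let `f` be a polynomial of degree `D` with leading coefficient `A` over a field `K` with a
(nonarchimedean) absolute value `|.|`, and `U = {z : |z - c| ≤ ρ}` the disk of radius `ρ > 0` around `c`.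
The first conditions, `|A| ρ ^ (D - 1) ≥ 1` and `|bᵢ| ≤ |A| ρ ^ (D - i)` for the coefficients `bᵢ` of
`f (z + c) - c`, say that the inverse image of `U` is contained in `U`. If `E = |A| ρ ^ (D - 1)` is equal to
`1`, then `f` has good reduction on `U`. Otherwise `E > 1`, and we suppose that `|f' x| = E` (the maximal
possible value) for all points `x ∈ K` which are in `U` together with `f x`: this says that the residue
classes of these `x` are simple zeros of the reduction of `f` on `U`. Finally, if `ρ = |r|` with `r ∈ K`,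
then `E` is the absolute value of an `M`-th power in `K`. -/
structure SimpleDisk {K : Type*} [Field K] (abv : AbsoluteValue K ℝ) (M : ℕ) (f : K[X]) (c : K)
    (ρ : ℝ) : Prop where
  pos : 0 < ρ
  one : 1 ≤ abv f.leadingCoeff * ρ ^ (f.natDegree - 1)
  coeff : ∀ i, abv ((f.comp (X + C c) - C c).coeff i) ≤
    abv f.leadingCoeff * ρ ^ (f.natDegree - i)
  simple : abv f.leadingCoeff * ρ ^ (f.natDegree - 1) = 1 ∨
    ∀ x : K, abv (x - c) ≤ ρ → abv (f.eval x - c) ≤ ρ →
      abv (f.derivative.eval x) = abv f.leadingCoeff * ρ ^ (f.natDegree - 1)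
  pow : ∀ r : K, abv r = ρ → ∃ π : K, abv f.leadingCoeff * ρ ^ (f.natDegree - 1) = abv π ^ M

section

variable {K : Type} [Field K] [NumberField K]

/-- the comparison map -/
noncomputable def uu (v : HeightOneSpectrum (𝓞 K)) : WithZero (Multiplicative ℤ) →*₀ ℝ≥0 :=
  toNNReal (NumberField.HeightOneSpectrum.absNorm_ne_zero v)

lemma uu_mono (v : HeightOneSpectrum (𝓞 K)) : StrictMono (uu v) :=
  toNNReal_strictMono (NumberField.HeightOneSpectrum.one_lt_absNorm_nnreal v)

/-- the absolute value as a valuation -/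
noncomputable def vv (v : HeightOneSpectrum (𝓞 K)) : Valuation K ℝ≥0 :=
  (v.valuation K).map (uu v) (uu_mono v).monotone

lemma vv_apply (v : HeightOneSpectrum (𝓞 K)) (x : K) :
    NumberField.HeightOneSpectrum.adicAbv K v x = ((vv v x : ℝ≥0) : ℝ) := rfl

lemma tr_leading {K : Type*} [Field K] {f : K[X]} (hD : 1 ≤ f.natDegree) (c : K) :
    (tr f c).leadingCoeff = f.leadingCoeff := by
  have h1 : (f.comp (X + C c)).leadingCoeff = f.leadingCoeff := by
    rw [leadingCoeff_comp (by rw [natDegree_X_add_C]; exact one_ne_zero), leadingCoeff_X_add_C,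
      one_pow, mul_one]
  have h2 : (f.comp (X + C c)).natDegree = f.natDegree := by
    rw [natDegree_comp, natDegree_X_add_C, mul_one]
  rw [tr, sub_eq_add_neg, leadingCoeff_add_of_degree_lt', h1]
  rw [← C_neg]
  refine lt_of_le_of_lt degree_C_le ?_
  rw [← natDegree_pos_iff_degree_pos, h2]
  exact hD

lemma tr_derivative {K : Type*} [Field K] (f : K[X]) (c x : K) :
    (tr f c).derivative.eval x = f.derivative.eval (x + c) := by
  simp [tr, derivative_comp, eval_comp]

lemma SimpleDisk.sred {v : HeightOneSpectrum (𝓞 K)} {M : ℕ} {f : K[X]} (hD : 1 ≤ f.natDegree)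
    {c : K} {ρ : ℝ}
    (h : SimpleDisk (NumberField.HeightOneSpectrum.adicAbv K v) M f c ρ) :
    SRed (vv v) (tr f c) ρ.toNNReal M := by
  have hρ : ((ρ.toNNReal : ℝ≥0) : ℝ) = ρ := Real.coe_toNNReal _ h.pos.le
  have hE : (((vv v f.leadingCoeff * ρ.toNNReal ^ (f.natDegree - 1) : ℝ≥0)) : ℝ) =
      NumberField.HeightOneSpectrum.adicAbv K v f.leadingCoeff * ρ ^ (f.natDegree - 1) := by
    rw [vv_apply]; push_cast; rw [hρ]
  refine ⟨⟨?_, ?_⟩, ?_, ?_⟩
  · rw [tr_leading hD, tr_natDegree, ← NNReal.coe_le_coe, hE]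
    exact h.one
  · intro i
    rw [tr_leading hD, tr_natDegree, ← NNReal.coe_le_coe]
    have := h.coeff i
    rw [vv_apply, vv_apply] at this
    push_cast
    rw [hρ]
    exact this
  · rcases h.simple with h1 | h1
    · left
      rw [tr_leading hD, tr_natDegree]
      rw [← NNReal.coe_inj, hE, h1, NNReal.coe_one]
    · right
      intro x hx hfx
      rw [tr_leading hD, tr_natDegree, ← NNReal.coe_inj, hE, tr_derivative, ← vv_apply]
      apply h1
      · rw [add_sub_cancel_right, vv_apply, ← hρ]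
        exact_mod_cast hx
      · rw [vv_apply, ← tr_eval, add_sub_cancel_right, ← hρ]
        exact_mod_cast hfx
  · intro r hr
    obtain ⟨π, hπ⟩ := h.pow r (by rw [vv_apply, hr, hρ])
    refine ⟨π, ?_⟩
    rw [tr_leading hD, tr_natDegree, ← NNReal.coe_inj, hE, hπ, vv_apply, NNReal.coe_pow]

lemma per_iff {X : Type*} {φ : X → X} {x : X} : x ∈ Function.periodicPts φ ↔ Per φ x :=
  Iff.rfl

end

section dom

variable {K : Type*} [Field K] {Γ : Type*} [LinearOrderedCommGroupWithZero Γ] {v : Valuation K Γ}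

/-- all coefficients are integral -/
lemma SRed_int {f : K[X]} {M : ℕ} (hm : f.Monic) (h : ∀ i, v (f.coeff i) ≤ 1) : SRed v f 1 M := by
  have hlc : v f.leadingCoeff = 1 := by rw [hm.leadingCoeff, map_one]
  refine ⟨⟨?_, ?_⟩, ?_, ?_⟩
  · rw [hlc, one_pow, one_mul]
  · intro i; rw [hlc, one_pow, one_mul]; exact h i
  · left; rw [hlc, one_pow, one_mul]
  · intro r _
    exact ⟨1, by rw [hlc, one_pow, one_mul, map_one, one_pow]⟩

/-- a large constant or linear term -/
lemma SRed_dom {f : K[X]} {M : ℕ} (hD : 2 ≤ f.natDegree) (hm : f.Monic)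
    (htame : v (f.natDegree : K) = 1) (htame' : v ((f.natDegree - 1 : ℕ) : K) = 1) {ρ : Γ}
    (hρ1 : 1 < ρ) (hc : ∀ i, 2 ≤ i → v (f.coeff i) ≤ 1)
    (hmax : (v (f.coeff 0) = ρ ^ f.natDegree ∧ v (f.coeff 1) < ρ ^ (f.natDegree - 1)) ∨
      (v (f.coeff 0) < ρ ^ f.natDegree ∧ v (f.coeff 1) = ρ ^ (f.natDegree - 1)))
    (hpow : ∀ r : K, v r = ρ → ∃ π : K, v r ^ (f.natDegree - 1) = v π ^ M) : SRed v f ρ M := by
  have hlc : v f.leadingCoeff = 1 := by rw [hm.leadingCoeff, map_one]
  have hρ0 : ρ ≠ 0 := ne_of_gt (lt_trans zero_lt_one hρ1)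
  have hρD : ∀ n, ρ ^ n ≠ 0 := fun n => pow_ne_zero n hρ0
  have hpowD : ρ ^ f.natDegree = ρ ^ (f.natDegree - 1) * ρ := by
    rw [← pow_succ]; congr 1; omega
  -- the remaining coefficients
  set g : K[X] := f - X ^ f.natDegree - C (f.coeff 1) * X - C (f.coeff 0) with hg
  have hgc : ∀ i, (i < 2 ∨ f.natDegree ≤ i → g.coeff i = 0) ∧ v (g.coeff i) ≤ 1 := by
    intro i
    rw [hg, coeff_sub, coeff_sub, coeff_sub, coeff_X_pow, coeff_C_mul, coeff_X, coeff_C]
    rcases Nat.lt_or_ge i 2 with hi | hi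
    · have hi' : i = 0 ∨ i = 1 := by omega
      rcases hi' with rfl | rfl
      · have : (0 : ℕ) ≠ f.natDegree := by omega
        simp [this]
      · have : (1 : ℕ) ≠ f.natDegree := by omega
        simp [this]
    · have h1 : (1 : ℕ) ≠ i := by omega
      have h0 : i ≠ 0 := by omega
      rw [if_neg h1, if_neg h0, mul_zero, sub_zero, sub_zero]
      rcases lt_trichotomy i f.natDegree with h2 | h2 | h2
      · rw [if_neg h2.ne, sub_zero]
        exact ⟨fun h => absurd h (by omega), hc i hi⟩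
      · rw [if_pos h2, h2, hm.coeff_natDegree, sub_self]
        exact ⟨fun _ => rfl, by rw [map_zero]; exact zero_le⟩
      · rw [if_neg h2.ne', coeff_eq_zero_of_natDegree_lt h2, sub_self]
        exact ⟨fun _ => rfl, by rw [map_zero]; exact zero_le⟩
  have hfe : ∀ x, f.eval x = x ^ f.natDegree + f.coeff 1 * x + f.coeff 0 + g.eval x := by
    intro x; rw [hg]; simp
  have hfd : ∀ x, f.derivative.eval x =
      (f.natDegree : K) * x ^ (f.natDegree - 1) + f.coeff 1 + g.derivative.eval x := by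
    intro x
    rw [hg]
    simp only [derivative_sub, derivative_X_pow, derivative_C_mul, derivative_X, derivative_C,
      eval_sub, eval_mul, eval_pow, eval_X, eval_C, eval_zero, mul_one]
    ring
  have hge : ∀ x, v x ≤ ρ → v (g.eval x) < ρ ^ f.natDegree := by
    intro x hx
    rw [eval_eq_sum_range]
    apply Valuation.map_sum_lt _ (hρD _)
    intro i _
    by_cases hi : i < 2 ∨ f.natDegree ≤ i
    · rw [(hgc i).1 hi, zero_mul, map_zero]; exact zero_lt_iff.mpr (hρD _)
    · push Not at hi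
      rw [map_mul, map_pow]
      calc v (g.coeff i) * v x ^ i ≤ 1 * ρ ^ i :=
            mul_le_mul' (hgc i).2 (pow_le_pow_left₀ zero_le hx i)
        _ < _ := by rw [one_mul]; exact pow_lt_pow_right₀ hρ1 hi.2
  have hgd : ∀ x, v x ≤ ρ → v (g.derivative.eval x) < ρ ^ (f.natDegree - 1) := by
    intro x hx
    rw [deriv_sum]
    apply Valuation.map_sum_lt _ (hρD _)
    intro i _
    by_cases hi : i < 2 ∨ f.natDegree ≤ i
    · rw [(hgc i).1 hi, zero_mul, map_zero]; exact zero_lt_iff.mpr (hρD _)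
    · push Not at hi
      rw [map_mul, map_mul, map_pow]
      calc v (g.coeff i) * (v (i : K) * v x ^ (i - 1)) ≤ 1 * (1 * ρ ^ (i - 1)) :=
            mul_le_mul' (hgc i).2 (mul_le_mul' (v_natCast_le v i)
              (pow_le_pow_left₀ zero_le hx _))
        _ < _ := by rw [one_mul, one_mul]; exact pow_lt_pow_right₀ hρ1 (by omega)
  have hρf : ρ < ρ ^ f.natDegree := by
    calc ρ = ρ ^ 1 := (pow_one ρ).symm
      _ < _ := pow_lt_pow_right₀ hρ1 (by omega)
  refine ⟨⟨?_, ?_⟩, ?_, ?_⟩
  · rw [hlc, one_mul]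
    exact one_le_pow₀ hρ1.le
  · intro i
    rw [hlc, one_mul]
    rcases Nat.lt_or_ge i 2 with hi | hi
    · have hi' : i = 0 ∨ i = 1 := by omega
      rcases hi' with rfl | rfl
      · rw [Nat.sub_zero]
        rcases hmax with ⟨h, -⟩ | ⟨h, -⟩
        · exact h.le
        · exact h.le
      · rcases hmax with ⟨-, h⟩ | ⟨-, h⟩
        · exact h.le
        · exact h.le
    · exact (hc i hi).trans (one_le_pow₀ hρ1.le)
  · right
    intro x hx hfx
    rw [hlc, one_mul]
    rcases hmax with ⟨h0, h1⟩ | ⟨h0, h1⟩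
    · have hvx : v x = ρ := by
        by_contra hne
        have hlt : v x < ρ := lt_of_le_of_ne hx hne
        have h2 : v (x ^ f.natDegree + f.coeff 1 * x + g.eval x) < v (f.coeff 0) := by
          rw [h0]
          refine lt_of_le_of_lt (v.map_add _ _) (max_lt ?_ (hge x hx))
          refine lt_of_le_of_lt (v.map_add _ _) (max_lt ?_ ?_)
          · rw [map_pow]; exact pow_lt_pow_left₀ hlt zero_le (by omega)
          · rw [map_mul, hpowD]
            calc v (f.coeff 1) * v x ≤ v (f.coeff 1) * ρ := mul_le_mul' le_rfl hx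
              _ < _ := (mul_lt_mul_iff_left₀ (zero_lt_iff.mpr hρ0)).mpr h1
        have h3 : f.eval x = f.coeff 0 + (x ^ f.natDegree + f.coeff 1 * x + g.eval x) := by
          rw [hfe]; ring
        rw [h3, Valuation.map_add_eq_of_lt_left _ h2, h0] at hfx
        exact absurd hρf (not_lt.mpr hfx)
      have h2 : v ((f.natDegree : K) * x ^ (f.natDegree - 1)) = ρ ^ (f.natDegree - 1) := by
        rw [map_mul, map_pow, htame, one_mul, hvx]
      have h3 : f.derivative.eval x = (f.natDegree : K) * x ^ (f.natDegree - 1) +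
          (f.coeff 1 + g.derivative.eval x) := by rw [hfd]; ring
      rw [h3, Valuation.map_add_eq_of_lt_left, h2]
      rw [h2]
      exact lt_of_le_of_lt (v.map_add _ _) (max_lt h1 (hgd x hx))
    · rcases lt_or_eq_of_le hx with hlt | heq
      · have h3 : f.derivative.eval x = f.coeff 1 + ((f.natDegree : K) * x ^ (f.natDegree - 1) +
            g.derivative.eval x) := by rw [hfd]; ring
        rw [h3, Valuation.map_add_eq_of_lt_left, h1]
        rw [h1]
        refine lt_of_le_of_lt (v.map_add _ _) (max_lt ?_ (hgd x hx))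
        rw [map_mul, map_pow, htame, one_mul]
        exact pow_lt_pow_left₀ hlt zero_le (by omega)
      · have h2 : v (x ^ (f.natDegree - 1) + f.coeff 1) < ρ ^ (f.natDegree - 1) := by
          have h4 : x * (x ^ (f.natDegree - 1) + f.coeff 1) =
              f.eval x - (f.coeff 0 + g.eval x) := by
            rw [hfe]
            have : x ^ f.natDegree = x * x ^ (f.natDegree - 1) := by
              rw [← pow_succ']; congr 1; omega
            rw [this]; ring
          have h5 : v x * v (x ^ (f.natDegree - 1) + f.coeff 1) < ρ ^ f.natDegree := by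
            rw [← map_mul, h4]
            refine lt_of_le_of_lt (v.map_sub _ _) (max_lt (lt_of_le_of_lt hfx hρf) ?_)
            exact lt_of_le_of_lt (v.map_add _ _) (max_lt h0 (hge x hx))
          rw [heq, hpowD, mul_comm] at h5
          exact (mul_lt_mul_iff_left₀ (zero_lt_iff.mpr hρ0)).mp h5
        have h6 : ((f.natDegree - 1 : ℕ) : K) = (f.natDegree : K) - 1 := by
          rw [Nat.cast_sub (by omega), Nat.cast_one]
        have h3 : f.derivative.eval x = -(((f.natDegree - 1 : ℕ) : K) * f.coeff 1) +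
            ((f.natDegree : K) * (x ^ (f.natDegree - 1) + f.coeff 1) +
            g.derivative.eval x) := by rw [hfd, h6]; ring
        have h7 : v (-(((f.natDegree - 1 : ℕ) : K) * f.coeff 1)) = ρ ^ (f.natDegree - 1) := by
          rw [Valuation.map_neg, map_mul, htame', one_mul, h1]
        rw [h3, Valuation.map_add_eq_of_lt_left, h7]
        rw [h7]
        refine lt_of_le_of_lt (v.map_add _ _) (max_lt ?_ (hgd x hx))
        rw [map_mul, htame, one_mul]
        exact h2
  · intro r hr
    obtain ⟨π, hπ⟩ := hpow r hr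
    exact ⟨π, by rw [hlc, one_mul, ← hπ, hr]⟩

end dom

section

variable {K : Type} [Field K] [NumberField K]

/-- the local condition for monic polynomials with integral coefficients apart from the first two -/
lemma sred_of_monic {v : HeightOneSpectrum (𝓞 K)} {f : K[X]} {D : ℕ} (hD : 2 ≤ D)
    (hf : f.natDegree = D) (hm : f.Monic) (hvD : v.valuation K (D : K) = 1)
    (hvD1 : v.valuation K ((D - 1 : ℕ) : K) = 1)
    (hint : ∀ i, 2 ≤ i → v.valuation K (f.coeff i) ≤ 1)
    (hne : v.valuation K (f.coeff 0) ^ (D - 1) = v.valuation K (f.coeff 1) ^ D →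
        v.valuation K (f.coeff 0) ≤ 1) :
    ∃ ρ, SRed (vv v) f ρ (D - 1) := by
  have hmono := uu_mono v
  have hval : ∀ x, vv v x = uu v (v.valuation K x) := fun x => rfl
  have hle1 : ∀ x, v.valuation K x ≤ 1 → vv v x ≤ 1 := by
    intro x hx
    rw [hval, ← map_one (uu v)]
    exact hmono.monotone hx
  have hlt1 : ∀ x, 1 < v.valuation K x → 1 < vv v x := by
    intro x hx
    rw [hval, ← map_one (uu v)]
    exact hmono hx
  have hint' : ∀ i, 2 ≤ i → vv v (f.coeff i) ≤ 1 := fun i hi => hle1 _ (hint i hi)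
  set b0 := v.valuation K (f.coeff 0) with hb0
  set b1 := v.valuation K (f.coeff 1) with hb1
  by_cases hall : b0 ≤ 1 ∧ b1 ≤ 1
  · refine ⟨1, SRed_int hm fun i => ?_⟩
    rcases Nat.lt_or_ge i 2 with hi | hi
    · have hi' : i = 0 ∨ i = 1 := by omega
      rcases hi' with rfl | rfl
      · exact hle1 _ hall.1
      · exact hle1 _ hall.2
    · exact hint' i hi
  · have hpow' : ∀ ρ : ℝ≥0, ∀ r : K, vv v r = ρ →
        ∃ π : K, vv v r ^ (f.natDegree - 1) = vv v π ^ (D - 1) := by
      intro ρ r hr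
      exact ⟨r, by rw [hf]⟩
    have hDt : vv v (f.natDegree : K) = 1 := by rw [hf, hval, hvD, map_one]
    have hDt' : vv v ((f.natDegree - 1 : ℕ) : K) = 1 := by rw [hf, hval, hvD1, map_one]
    have hD1' : D - 1 ≠ 0 := by omega
    have hD' : D ≠ 0 := by omega
    have hneq : b0 ^ (D - 1) ≠ b1 ^ D := by
      intro h
      have h3 := hne h
      apply hall
      refine ⟨h3, ?_⟩
      by_contra h4
      rw [not_le] at h4
      have h5 : 1 < b1 ^ D := one_lt_pow₀ h4 hD'
      rw [← h] at h5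
      exact absurd h5 (not_lt.mpr (pow_le_one' h3 _))
    rcases lt_or_gt_of_ne hneq with hlt | hlt
    · -- the linear term dominates
      have hb1' : 1 < b1 := by
        by_contra h4
        rw [not_lt] at h4
        apply hall
        refine ⟨?_, h4⟩
        by_contra h5
        rw [not_le] at h5
        have h6 : 1 < b0 ^ (D - 1) := one_lt_pow₀ h5 hD1'
        exact absurd (h6.trans hlt) (not_lt.mpr (pow_le_one' h4 _))
      set ρ : ℝ≥0 := (vv v (f.coeff 1)) ^ (((D - 1 : ℕ) : ℝ)⁻¹) with hρ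
      have hρ1 : ρ ^ (D - 1) = vv v (f.coeff 1) := NNReal.rpow_inv_natCast_pow _ hD1'
      have hρ2 : 1 < ρ := by
        by_contra h4
        rw [not_lt] at h4
        have h5 := hlt1 _ hb1'
        rw [← hρ1] at h5
        exact absurd h5 (not_lt.mpr (pow_le_one' h4 _))
      have hρD : vv v (f.coeff 0) < ρ ^ D := by
        apply lt_of_pow_lt_pow_left₀ (D - 1) zero_le
        rw [← pow_mul, Nat.mul_comm, pow_mul, hρ1]
        have := hmono hlt
        rwa [map_pow, map_pow, ← hval, ← hval] at this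
      refine ⟨ρ, SRed_dom (by omega) hm hDt hDt' hρ2 hint' (Or.inr ⟨?_, ?_⟩) (hpow' ρ)⟩
      · rw [hf]; exact hρD
      · rw [hf, hρ1]
    · -- the constant term dominates
      have hb0' : 1 < b0 := by
        by_contra h4
        rw [not_lt] at h4
        apply hall
        refine ⟨h4, ?_⟩
        by_contra h5
        rw [not_le] at h5
        have h6 : 1 < b1 ^ D := one_lt_pow₀ h5 hD'
        exact absurd (h6.trans hlt) (not_lt.mpr (pow_le_one' h4 _))
      set ρ : ℝ≥0 := (vv v (f.coeff 0)) ^ ((D : ℝ)⁻¹) with hρ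
      have hρ1 : ρ ^ D = vv v (f.coeff 0) := NNReal.rpow_inv_natCast_pow _ hD'
      have hρ2 : 1 < ρ := by
        by_contra h4
        rw [not_lt] at h4
        have h5 := hlt1 _ hb0'
        rw [← hρ1] at h5
        exact absurd h5 (not_lt.mpr (pow_le_one' h4 _))
      have hρD : vv v (f.coeff 1) < ρ ^ (D - 1) := by
        apply lt_of_pow_lt_pow_left₀ D zero_le
        rw [← pow_mul, Nat.mul_comm, pow_mul, hρ1]
        have := hmono hlt
        rwa [map_pow, map_pow, ← hval, ← hval] at this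
      refine ⟨ρ, SRed_dom (by omega) hm hDt hDt' hρ2 hint' (Or.inl ⟨?_, ?_⟩) (hpow' ρ)⟩
      · rw [hf, hρ1]
      · rw [hf]; exact hρD

/-- **Main theorem** -/
theorem main_real (K : Type) [Field K] [NumberField K] {S : Set (HeightOneSpectrum (𝓞 K))}
    (hS : S.Finite) {D M : ℕ} (hD : 2 ≤ D) (hM : 4 ≤ M) :
    ∃ B : ℕ, ∀ f : K[X], f.natDegree = D →
      (∀ v ∉ S,
        (∃ (c : K) (ρ : ℝ), SimpleDisk (NumberField.HeightOneSpectrum.adicAbv K v) M f c ρ) ∨
        (f.Monic ∧ M = D - 1 ∧ (∀ i, 2 ≤ i → v.valuation K (f.coeff i) ≤ 1) ∧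
          (v.valuation K (f.coeff 0) ^ (D - 1) = v.valuation K (f.coeff 1) ^ D →
            v.valuation K (f.coeff 0) ≤ 1))) →
        (∀ x ∈ Function.periodicPts (fun z => f.eval z), ∀ m, Odd m →
          m ∣ Function.minimalPeriod (fun z => f.eval z) x → m ≤ B) ∧
        (∀ T : Finset K, (∀ x ∈ T, Odd (Function.minimalPeriod (fun z => f.eval z) x)) →
          T.card ≤ B) ∧
        (((Even M ∧ 6 ≤ M) ∨ (∃ (e : ℕ) (h G : K[X]), 3 ≤ e ∧ f = (h.comp (X ^ e)).comp G)) →
          ∀ T : Finset K, (∀ x ∈ T, x ∈ Function.periodicPts (fun z => f.eval z)) →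
            T.card ≤ B) := by
  have hD0 : (D : K) ≠ 0 := Nat.cast_ne_zero.mpr (by omega)
  have hD1 : ((D - 1 : ℕ) : K) ≠ 0 := Nat.cast_ne_zero.mpr (by omega)
  obtain ⟨B, hB⟩ := generalR K ((hS.union (finite_unit (D : K) hD0)).union
    (finite_unit ((D - 1 : ℕ) : K) hD1)) hD hM uu uu_mono
  refine ⟨B, fun f hf hloc => ?_⟩
  obtain ⟨h1, h2⟩ := hB f hf
  have hloc' : ∀ v ∉ S ∪ {v : HeightOneSpectrum (𝓞 K) | v.valuation K (D : K) ≠ 1} ∪
      {v : HeightOneSpectrum (𝓞 K) | v.valuation K ((D - 1 : ℕ) : K) ≠ 1},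
      v.valuation K (D : K) = 1 ∧ ∃ c ρ, SRed (vv v) (tr f c) ρ M := by
    intro v hv
    simp only [Set.mem_union, Set.mem_ofPred_eq, not_or, not_not] at hv
    obtain ⟨⟨hvS, hvD⟩, hvD1⟩ := hv
    refine ⟨hvD, ?_⟩
    rcases hloc v hvS with ⟨c, ρ, h⟩ | ⟨hm, hMD, hint, hne⟩
    · exact ⟨c, _, h.sred (by omega)⟩
    · obtain ⟨ρ, h⟩ := sred_of_monic hD hf hm hvD hvD1 hint hne
      exact ⟨0, ρ, by rw [tr_zero, hMD]; exact h⟩
  obtain ⟨k1, k2, k3⟩ := h1 fun v hv => (hloc' v hv).2
  refine ⟨k1, k2, ?_⟩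
  rintro (⟨he, h6⟩ | ⟨e, h, G, he, hg⟩)
  · exact k3 he h6
  · refine h2 e h G he hg fun v hv => ?_
    obtain ⟨hvD, c, ρ, hc⟩ := hloc' v hv
    have htr : tr f c = ((h - C c).comp (X ^ e)).comp (G.comp (X + C c)) := by
      rw [tr, hg, sub_comp, sub_comp, C_comp, C_comp, comp_assoc, comp_assoc]
    have hPD := PD_of_SR (v := vv v) (by rw [tr_natDegree]; omega) (by omega : 2 ≤ e) htr
      hc.toSR (by
        rw [tr_natDegree, hf]
        change uu v (v.valuation K (D : K)) = 1
        rw [hvD, map_one])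
    exact ⟨c, ρ, _, hc, hPD⟩

end

end Pool.Agent.H422.DC
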